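import Mathlib
import Pool.Agent.Helper113.Gorin.Schottky

/-! Inverse branches of polynomials, a Harnack inequality, prescribing a continuous function along an
orbit. -/

set_option autoImplicit false

open Filter Topology Metric Set Polynomial

namespace Pool.Agent.Y334.ST

/-- inverse branches over discs without critical values -/
theorem branchP {F : ℂ[X]} {v₀ u₀ : ℂ} {δ : ℝ} (hδ : 0 < δ) (hv : F.eval v₀ = u₀)
    (hcrit : ∀ ζ, (derivative F).eval ζ = 0 → F.eval ζ ∉ ball u₀ δ) :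
    ∃ φ : ℂ → ℂ, DifferentiableOn ℂ φ (ball u₀ δ) ∧ φ u₀ = v₀ ∧
      ∀ u ∈ ball u₀ δ, F.eval (φ u) = u := by
  classical
  have hc : ContractibleSpace (ball u₀ δ) :=
    (convex_ball u₀ δ).contractibleSpace ⟨u₀, mem_ball_self hδ⟩
  have : LocallyPathConnectedSpace (ball u₀ δ) := isOpen_ball.locallyPathConnectedSpace
  have hcov := (Polynomial.isCoveringMapOn_eval F).mono (t := ball u₀ δ) (by
    rintro u hu ⟨ζ, hζ, rfl⟩
    exact hcrit ζ hζ hu)
  obtain ⟨Φ, ⟨h1, h2⟩, -⟩ := hcov.existsUnique_continuousMap_lifts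
    (⟨Subtype.val, continuous_subtype_val⟩ : C(ball u₀ δ, ℂ)) (a₀ := ⟨u₀, mem_ball_self hδ⟩)
    (e₀ := v₀) hv (fun a => a.2)
  refine ⟨fun u => if h : u ∈ ball u₀ δ then Φ ⟨u, h⟩ else 0, ?_, ?_, ?_⟩
  · intro u hu
    apply HasDerivAt.differentiableAt (f' := ((derivative F).eval (Φ ⟨u, hu⟩))⁻¹) _
      |>.differentiableWithinAt
    have hcont : ContinuousAt (fun u => if h : u ∈ ball u₀ δ then Φ ⟨u, h⟩ else 0) u := by
      have h3 : ContinuousOn (fun u => if h : u ∈ ball u₀ δ then Φ ⟨u, h⟩ else 0)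
          (ball u₀ δ) := by
        rw [continuousOn_iff_continuous_domRestrict]
        convert! Φ.continuous using 1
        funext z
        simp [Set.domRestrict]
      exact h3.continuousAt (isOpen_ball.mem_nhds hu)
    have heq : ∀ u (hu : u ∈ ball u₀ δ), F.eval (Φ ⟨u, hu⟩) = u := by
      intro u hu
      have := congrFun h2 ⟨u, hu⟩
      exact this
    apply HasDerivAt.of_local_left_inverse (f := fun z => F.eval z) hcont
    · show HasDerivAt (fun z => F.eval z) _ (if h : u ∈ ball u₀ δ then Φ ⟨u, h⟩ else 0)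
      rw [dif_pos hu]
      exact F.hasDerivAt _
    · intro h0
      exact hcrit _ h0 (by rw [heq u hu]; exact hu)
    · filter_upwards [isOpen_ball.mem_nhds hu] with w hw
      rw [dif_pos hw]
      exact heq w hw
  · show (if h : u₀ ∈ ball u₀ δ then Φ ⟨u₀, h⟩ else 0) = v₀
    rw [dif_pos (mem_ball_self hδ)]
    exact h1
  · intro u hu
    show F.eval (if h : u ∈ ball u₀ δ then Φ ⟨u, h⟩ else 0) = u
    rw [dif_pos hu]
    have := congrFun h2 ⟨u, hu⟩
    exact this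

/-- A quantitative form: if the derivative is small there is a critical value nearby. -/
theorem smale {F : ℂ[X]} {v₀ : ℂ} {δ R : ℝ} (hδ : 0 < δ)
    (hR : ∀ z, F.eval z ∈ ball (F.eval v₀) δ → ‖z‖ ≤ R)
    (hsm : ‖(derivative F).eval v₀‖ * (2 * R) < δ) :
    ∃ ζ, (derivative F).eval ζ = 0 ∧ ‖F.eval ζ - F.eval v₀‖ < δ := by
  by_contra hcon
  push Not at hcon
  obtain ⟨φ, h1, h2, h3⟩ := branchP hδ rfl (fun ζ hζ h => by
    rw [mem_ball_iff_norm] at h
    exact absurd h (not_lt.2 (hcon ζ hζ)))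
  set u₀ := F.eval v₀ with hu₀
  have hu : u₀ ∈ ball u₀ δ := mem_ball_self hδ
  have hb : MapsTo φ (ball u₀ δ) (closedBall (φ u₀) (2 * R)) := by
    intro w hw
    have h4 := hR (φ w) (by rw [h3 w hw]; exact hw)
    have h5 := hR (φ u₀) (by rw [h3 u₀ hu]; exact hu)
    rw [mem_closedBall, dist_eq_norm]
    have := norm_sub_le (φ w) (φ u₀)
    linarith
  have h4 : ‖deriv φ u₀‖ ≤ 2 * R / δ := Complex.norm_deriv_le_div_of_mapsTo_ball h1 hb hδ
  have h5 : HasDerivAt φ (deriv φ u₀) u₀ :=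
    (h1.differentiableAt (isOpen_ball.mem_nhds hu)).hasDerivAt
  have h6 : HasDerivAt (fun w => F.eval (φ w)) ((derivative F).eval (φ u₀) * deriv φ u₀) u₀ :=
    (F.hasDerivAt (φ u₀)).comp u₀ h5
  have h7 : HasDerivAt (fun w => F.eval (φ w)) 1 u₀ := by
    refine (hasDerivAt_id u₀).congr_of_eventuallyEq ?_
    filter_upwards [isOpen_ball.mem_nhds hu] with w hw using h3 w hw
  have h8 := h6.unique h7
  rw [h2] at h8
  have h9 : ‖(derivative F).eval v₀‖ * ‖deriv φ u₀‖ = 1 := by rw [← norm_mul, h8, norm_one]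
  have h10 : ‖(derivative F).eval v₀‖ * ‖deriv φ u₀‖ ≤ ‖(derivative F).eval v₀‖ * (2 * R / δ) := by
    gcongr
  rw [h9, ← mul_div_assoc, le_div_iff₀ hδ] at h10
  linarith

/-- a holomorphic logarithm on a disc -/
theorem exists_log {f : ℂ → ℂ} {ρ : ℝ} (hρ : 0 < ρ) (hf : DifferentiableOn ℂ f (ball 0 ρ))
    (h0 : ∀ z ∈ ball (0 : ℂ) ρ, f z ≠ 0) :
    ∃ g : ℂ → ℂ, DifferentiableOn ℂ g (ball 0 ρ) ∧ ∀ z ∈ ball (0 : ℂ) ρ, Complex.exp (g z) = f z := by
  have hρc : (ρ : ℂ) ≠ 0 := by exact_mod_cast hρ.ne'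
  have hmap : ∀ w ∈ ball (0 : ℂ) 1, ρ * w ∈ ball (0 : ℂ) ρ := by
    intro w hw
    rw [mem_ball_zero_iff] at hw ⊢
    rw [norm_mul, Complex.norm_real, Real.norm_eq_abs, abs_of_pos hρ]
    nlinarith
  have hmap' : ∀ z ∈ ball (0 : ℂ) ρ, z / ρ ∈ ball (0 : ℂ) 1 := by
    intro z hz
    rw [mem_ball_zero_iff] at hz ⊢
    rw [norm_div, Complex.norm_real, Real.norm_eq_abs, abs_of_pos hρ, div_lt_one hρ]
    exact hz
  have hg : DifferentiableOn ℂ (fun w => f (ρ * w)) (ball 0 1) := by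
    apply hf.comp _ hmap
    exact differentiableOn_id.const_mul _
  obtain ⟨g, hgd, hge⟩ := H113G.J_schottky.exists_log hg (fun w hw => h0 _ (hmap w hw))
  refine ⟨fun z => g (z / ρ), ?_, ?_⟩
  · apply hgd.comp _ hmap'
    exact differentiableOn_id.div_const _
  · intro z hz
    have h1 := hge _ (hmap' z hz)
    have e : ρ * (z / ρ) = z := by field_simp
    rw [e] at h1
    exact h1

/-- **Harnack.** -/
theorem harnack {f : ℂ → ℂ} {ρ : ℝ} (hρ : 0 < ρ) (hf : DifferentiableOn ℂ f (ball 0 ρ))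
    (h1 : ∀ z ∈ ball (0 : ℂ) ρ, 1 < ‖f z‖) {z : ℂ} (hz : ‖z‖ ≤ ρ / 2) : ‖f z‖ ≤ ‖f 0‖ ^ 3 := by
  obtain ⟨g, hg, hge⟩ := exists_log hρ hf (fun z hz h => by
    have := h1 z hz
    rw [h, norm_zero] at this
    linarith)
  have hre : ∀ w ∈ ball (0 : ℂ) ρ, ‖f w‖ = Real.exp (g w).re := by
    intro w hw
    rw [← hge w hw, Complex.norm_exp]
  have h00 : (0 : ℂ) ∈ ball (0 : ℂ) ρ := mem_ball_self hρ
  have hpos : ∀ w ∈ ball (0 : ℂ) ρ, 0 < (g w).re := by
    intro w hw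
    have := h1 w hw
    rw [hre w hw, Real.one_lt_exp_iff] at this
    exact this
  set M : ℝ := (g 0).re with hM
  have hM0 : 0 < M := hpos 0 h00
  have hzb : z ∈ ball (0 : ℂ) ρ := by rw [mem_ball_zero_iff]; linarith
  have h2 := Complex.borelCaratheodory_zero (f := fun w => g 0 - g w) hM0 (hg.const_sub _)
    (by
      intro w hw
      show (g 0 - g w).re ≤ M
      rw [Complex.sub_re]
      have := hpos w hw
      linarith) hρ hzb (sub_self _)
  have h3 : 2 * M * ‖z‖ / (ρ - ‖z‖) ≤ 2 * M := by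
    have h4 : ‖z‖ ≤ ρ - ‖z‖ := by linarith
    have h5 : 0 < ρ - ‖z‖ := by linarith
    rw [div_le_iff₀ h5]
    nlinarith
  have h4 : |(g 0 - g z).re| ≤ ‖g 0 - g z‖ := Complex.abs_re_le_norm _
  have h5 := (abs_le.1 h4).1
  rw [Complex.sub_re] at h5
  have h2' : ‖g 0 - g z‖ ≤ 2 * M := h2.trans h3
  rw [hre z hzb, hre 0 h00, ← Real.exp_nat_mul]
  apply Real.exp_le_exp.2
  push_cast
  linarith

end Pool.Agent.Y334.ST
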