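import Mathlib
import Pool.Agent.Y334.FN.Per
import Pool.Agent.Y334.ST.Br

/-! Growth of compositions of polynomials; a bound for perturbed orbits of one kind. -/

set_option autoImplicit false

open Filter Topology Metric Set Polynomial

namespace Pool.Agent.Y334.ST

open Pool.Agent.Y334.FP Pool.Agent.Y334.FN

/-- the compositions of a sequence of polynomials -/
noncomputable def it (U : ℕ → ℂ[X]) : ℕ → ℂ → ℂ
  | 0, z => z
  | k + 1, z => (U k).eval (it U k z)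

theorem it_succ (U : ℕ → ℂ[X]) (k : ℕ) (z : ℂ) : it U (k + 1) z = (U k).eval (it U k z) := rfl

theorem it_fib {X : Type} (T : X → X) (g : X → ℂ[X]) (k : ℕ) (x : X) (z : ℂ) :
    fib T g k x z = it (fun i => g (T^[i] x)) k z := by
  induction k with
  | zero => rfl
  | succ k ih => rw [fib_succ, ih, it_succ]

theorem it_add (U : ℕ → ℂ[X]) (m k : ℕ) (z : ℂ) :
    it U (m + k) z = it (fun i => U (i + k)) m (it U k z) := by
  induction m with
  | zero => rw [Nat.zero_add]; rfl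
  | succ m ih =>
    have e : m + 1 + k = (m + k) + 1 := by ring
    rw [e, it_succ, it_succ, ih]

theorem it_congr {U V : ℕ → ℂ[X]} {n : ℕ} (h : ∀ i < n, U i = V i) (z : ℂ) :
    it U n z = it V n z := by
  induction n with
  | zero => rfl
  | succ n ih => rw [it_succ, it_succ, ih fun i hi => h i (by omega), h n (by omega)]

/-- the constant -/
noncomputable def BB (d : ℕ) (A : ℝ) : ℝ := 4 * (d + 1) * A ^ 2

theorem BB_ge (d : ℕ) {A : ℝ} (hA : 1 ≤ A) : 4 ≤ BB d A := by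
  unfold BB
  have h1 : (1 : ℝ) ≤ A ^ 2 := one_le_pow₀ hA
  have h2 : (0 : ℝ) ≤ d := Nat.cast_nonneg d
  nlinarith

theorem upper {d : ℕ} {A : ℝ} (hA : 1 ≤ A) {P : ℂ[X]} (hP : Bd d A P) {z : ℂ} {ρ : ℝ} (hρ : 1 ≤ ρ)
    (hz : ‖z‖ ≤ ρ) : ‖P.eval z‖ ≤ (BB d A * ρ) ^ P.natDegree / BB d A := by
  have hB := BB_ge d hA
  obtain ⟨h2, hd, hc, -⟩ := hP
  have h1 : ‖P.eval z‖ ≤ (d + 1) * A * ρ ^ P.natDegree := by
    rw [eval_eq_sum_range]
    refine (norm_sum_le _ _).trans ?_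
    have h3 : ∀ j ∈ Finset.range (P.natDegree + 1), ‖P.coeff j * z ^ j‖ ≤ A * ρ ^ P.natDegree := by
      intro j hj
      rw [norm_mul, norm_pow]
      have h4 : ‖z‖ ^ j ≤ ρ ^ P.natDegree :=
        (pow_le_pow_left₀ (norm_nonneg _) hz j).trans
          (pow_le_pow_right₀ hρ (by have := Finset.mem_range.1 hj; omega))
      exact mul_le_mul (hc j) h4 (by positivity) (by linarith)
    refine (Finset.sum_le_sum h3).trans ?_
    rw [Finset.sum_const, Finset.card_range, nsmul_eq_mul]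
    have h5 : ((P.natDegree + 1 : ℕ) : ℝ) ≤ d + 1 := by exact_mod_cast Nat.succ_le_succ hd
    have h6 : 0 ≤ A * ρ ^ P.natDegree := by positivity
    calc ((P.natDegree + 1 : ℕ) : ℝ) * (A * ρ ^ P.natDegree) ≤ (d + 1) * (A * ρ ^ P.natDegree) := by
          gcongr
      _ = _ := by ring
  refine h1.trans ?_
  rw [le_div_iff₀ (by linarith), mul_pow]
  have h3 : (BB d A) ^ 2 ≤ BB d A ^ P.natDegree := pow_le_pow_right₀ (by linarith) h2
  have h4 : (d + 1) * A ≤ BB d A := by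
    unfold BB
    have h5 : (0 : ℝ) ≤ (d + 1) * A := by positivity
    nlinarith
  have h5 : 0 ≤ ρ ^ P.natDegree := by positivity
  calc (d + 1) * A * ρ ^ P.natDegree * BB d A = ((d + 1) * A * BB d A) * ρ ^ P.natDegree := by ring
    _ ≤ (BB d A ^ 2) * ρ ^ P.natDegree := by
        gcongr
        nlinarith
    _ ≤ _ := by gcongr

theorem lower {d : ℕ} {A : ℝ} (hA : 1 ≤ A) {P : ℂ[X]} (hP : Bd d A P) {z : ℂ}
    (hz : BB d A ≤ ‖z‖) : ‖z‖ ^ P.natDegree / (2 * A) ≤ ‖P.eval z‖ := by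
  have hB := BB_ge d hA
  obtain ⟨h2, hd, hc, hl⟩ := hP
  have hz1 : 1 ≤ ‖z‖ := by linarith
  obtain ⟨n, hn⟩ : ∃ n, P.natDegree = n + 1 := ⟨P.natDegree - 1, by omega⟩
  rw [eval_eq_sum_range, Finset.sum_range_succ]
  have h1 : ‖∑ j ∈ Finset.range P.natDegree, P.coeff j * z ^ j‖ ≤ d * A * ‖z‖ ^ n := by
    refine (norm_sum_le _ _).trans ?_
    have h3 : ∀ j ∈ Finset.range P.natDegree, ‖P.coeff j * z ^ j‖ ≤ A * ‖z‖ ^ n := by
      intro j hj
      rw [norm_mul, norm_pow]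
      have h4 : ‖z‖ ^ j ≤ ‖z‖ ^ n :=
        pow_le_pow_right₀ hz1 (by have := Finset.mem_range.1 hj; omega)
      exact mul_le_mul (hc j) h4 (by positivity) (by linarith)
    refine (Finset.sum_le_sum h3).trans ?_
    rw [Finset.sum_const, Finset.card_range, nsmul_eq_mul, mul_assoc]
    have h6 : 0 ≤ A * ‖z‖ ^ n := by positivity
    have h5 : (P.natDegree : ℝ) ≤ d := by exact_mod_cast hd
    gcongr
  have h3 : 1 / A * ‖z‖ ^ P.natDegree ≤ ‖P.coeff P.natDegree * z ^ P.natDegree‖ := by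
    rw [norm_mul, norm_pow]
    exact mul_le_mul_of_nonneg_right hl (by positivity)
  have h4 := norm_sub_norm_le (P.coeff P.natDegree * z ^ P.natDegree)
    (-(∑ j ∈ Finset.range P.natDegree, P.coeff j * z ^ j))
  rw [norm_neg, sub_neg_eq_add, add_comm (P.coeff P.natDegree * z ^ P.natDegree)] at h4
  refine le_trans ?_ h4
  have h5 : d * A * ‖z‖ ^ n ≤ 1 / (2 * A) * ‖z‖ ^ P.natDegree := by
    rw [hn, pow_succ]
    have h6 : d * A ≤ 1 / (2 * A) * ‖z‖ := by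
      rw [one_div, ← div_eq_inv_mul, le_div_iff₀ (by linarith)]
      refine le_trans ?_ hz
      unfold BB
      have : (0 : ℝ) ≤ d := Nat.cast_nonneg d
      nlinarith [sq_nonneg A]
    have h7 : 0 ≤ ‖z‖ ^ n := by positivity
    calc d * A * ‖z‖ ^ n ≤ (1 / (2 * A) * ‖z‖) * ‖z‖ ^ n := by gcongr
      _ = _ := by ring
  have h6 : 1 / A * ‖z‖ ^ P.natDegree =
      ‖z‖ ^ P.natDegree / (2 * A) + 1 / (2 * A) * ‖z‖ ^ P.natDegree := by
    field_simp
    ring
  linarith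

theorem esc2 {d : ℕ} {A : ℝ} (hA : 1 ≤ A) {P : ℂ[X]} (hP : Bd d A P) {z : ℂ}
    (hz : BB d A ≤ ‖z‖) : 2 * ‖z‖ ≤ ‖P.eval z‖ := by
  have hB := BB_ge d hA
  refine le_trans ?_ (lower hA hP hz)
  have hz1 : 1 ≤ ‖z‖ := by linarith
  rw [le_div_iff₀ (by linarith)]
  have h1 : ‖z‖ ^ 2 ≤ ‖z‖ ^ P.natDegree := pow_le_pow_right₀ hz1 hP.1
  have h2 : 4 * A ≤ ‖z‖ := by
    refine le_trans ?_ hz
    unfold BB
    have : (0 : ℝ) ≤ d := Nat.cast_nonneg d
    nlinarith [sq_nonneg A]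
  nlinarith

theorem it_big {d : ℕ} {A : ℝ} (hA : 1 ≤ A) {U : ℕ → ℂ[X]} (hU : ∀ i, Bd d A (U i)) {z : ℂ} {k : ℕ}
    (hz : BB d A ≤ ‖it U k z‖) (m : ℕ) : 2 ^ m * ‖it U k z‖ ≤ ‖it U (k + m) z‖ := by
  have hB := BB_ge d hA
  induction m with
  | zero => simp
  | succ m ih =>
    have h1 : (1 : ℝ) ≤ 2 ^ m := one_le_pow₀ (by norm_num)
    have h2 : BB d A ≤ ‖it U (k + m) z‖ := by nlinarith
    have h3 := esc2 hA (hU (k + m)) h2
    rw [← Nat.add_assoc, it_succ, pow_succ]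
    linarith

/-- products of degrees -/
def DD (U : ℕ → ℂ[X]) (n : ℕ) : ℕ := ∏ i ∈ Finset.range n, (U i).natDegree

theorem DD_pos {d : ℕ} {A : ℝ} {U : ℕ → ℂ[X]} (hU : ∀ i, Bd d A (U i)) (n : ℕ) : DD U n ≠ 0 := by
  unfold DD
  rw [Finset.prod_ne_zero_iff]
  intro i _
  have := (hU i).1
  omega

theorem it_upper {d : ℕ} {A : ℝ} (hA : 1 ≤ A) {U : ℕ → ℂ[X]} (hU : ∀ i, Bd d A (U i)) {z : ℂ}
    {ρ : ℝ} (hρ : 1 ≤ ρ) (hz : ‖z‖ ≤ ρ) (n : ℕ) :
    ‖it U n z‖ ≤ (BB d A * ρ) ^ DD U n / BB d A := by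
  have hB := BB_ge d hA
  induction n with
  | zero =>
    simp only [it, DD, Finset.range_zero, Finset.prod_empty, pow_one]
    rw [mul_div_cancel_left₀ _ (by linarith : BB d A ≠ 0)]
    exact hz
  | succ n ih =>
    have h1 : 1 ≤ BB d A * ρ := by nlinarith
    have h2 : BB d A ≤ (BB d A * ρ) ^ DD U n := by
      have h3 : (BB d A * ρ) ^ 1 ≤ (BB d A * ρ) ^ DD U n :=
        pow_le_pow_right₀ h1 (Nat.one_le_iff_ne_zero.2 (DD_pos hU n))
      rw [pow_one] at h3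
      nlinarith
    have h3 : 1 ≤ (BB d A * ρ) ^ DD U n / BB d A := by
      rw [le_div_iff₀ (by linarith)]
      linarith
    have h4 := upper hA (hU n) h3 ih
    rw [it_succ]
    refine h4.trans_eq ?_
    rw [mul_div_cancel₀ _ (by linarith : BB d A ≠ 0), ← pow_mul]
    unfold DD
    rw [Finset.prod_range_succ]

theorem it_lower {d : ℕ} {A : ℝ} (hA : 1 ≤ A) {U : ℕ → ℂ[X]} (hU : ∀ i, Bd d A (U i)) {z : ℂ}
    (hz : BB d A ≤ ‖z‖) (n : ℕ) :
    BB d A * (‖z‖ / BB d A) ^ DD U n ≤ ‖it U n z‖ := by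
  have hB := BB_ge d hA
  have hB0 : BB d A ≠ 0 := by linarith
  have h1 : 1 ≤ ‖z‖ / BB d A := by rw [le_div_iff₀ (by linarith)]; linarith
  induction n with
  | zero =>
    simp only [it, DD, Finset.range_zero, Finset.prod_empty, pow_one]
    rw [mul_div_cancel₀ _ hB0]
  | succ n ih =>
    have h2 : (1 : ℝ) ≤ (‖z‖ / BB d A) ^ DD U n := one_le_pow₀ h1
    have h3 : BB d A ≤ ‖it U n z‖ := by nlinarith
    have h4 := lower hA (hU n) h3
    rw [it_succ]
    refine le_trans ?_ h4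
    have e : DD U (n + 1) = DD U n * (U n).natDegree := by
      unfold DD
      rw [Finset.prod_range_succ]
    rw [e, pow_mul]
    set q : ℝ := (‖z‖ / BB d A) ^ DD U n with hq
    set m : ℕ := (U n).natDegree with hm
    have hm2 : 2 ≤ m := (hU n).1
    have h5 : (BB d A * q) ^ m ≤ ‖it U n z‖ ^ m := by gcongr
    have h6 : BB d A * q ^ m ≤ (BB d A * q) ^ m / (2 * A) := by
      rw [le_div_iff₀ (by linarith), mul_pow]
      have h7 : BB d A ^ 2 ≤ BB d A ^ m := pow_le_pow_right₀ (by linarith) hm2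
      have h8 : 2 * A ≤ BB d A := by
        unfold BB
        have : (0 : ℝ) ≤ d := Nat.cast_nonneg d
        nlinarith [sq_nonneg A]
      have h9 : 0 ≤ q ^ m := by positivity
      calc BB d A * q ^ m * (2 * A) = (BB d A * (2 * A)) * q ^ m := by ring
        _ ≤ BB d A ^ 2 * q ^ m := by
            gcongr
            nlinarith
        _ ≤ _ := by gcongr
    refine h6.trans ?_
    gcongr

/-- the perturbed sequence -/
noncomputable def pt (U : ℕ → ℂ[X]) (θ : ℕ → ℂ) (t : ℂ) : ℕ → ℂ[X] := fun i => U i + C (t * θ i)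

theorem pt_zero (U : ℕ → ℂ[X]) (θ : ℕ → ℂ) : pt U θ 0 = U := by
  funext i
  simp [pt]

theorem pt_deg (U : ℕ → ℂ[X]) (θ : ℕ → ℂ) (t : ℂ) (i : ℕ) :
    (pt U θ t i).natDegree = (U i).natDegree := by
  unfold pt
  exact natDegree_add_C

theorem pt_DD (U : ℕ → ℂ[X]) (θ : ℕ → ℂ) (t : ℂ) (k n : ℕ) :
    DD (fun i => pt U θ t (i + k)) n = DD (fun i => U (i + k)) n := by
  unfold DD
  simp only [pt_deg]

theorem pt_diff (U : ℕ → ℂ[X]) (θ : ℕ → ℂ) (z : ℂ) (k : ℕ) :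
    Differentiable ℂ fun t => it (pt U θ t) k z := by
  induction k with
  | zero => exact differentiable_const _
  | succ k ih =>
    have h1 : (fun t => it (pt U θ t) (k + 1) z) =
        fun t => (U k).eval (it (pt U θ t) k z) + t * θ k := by
      funext t
      rw [it_succ]
      simp only [pt, eval_add, eval_C]
    rw [h1]
    exact ((U k).differentiable.comp ih).add (differentiable_id.mul_const _)

/-- **Perturbed orbits of one kind stay bounded as long as the unperturbed one does.** -/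
theorem fam_bound {d : ℕ} {A : ℝ} (hA : 1 ≤ A) {U : ℕ → ℂ[X]} {θ : ℕ → ℂ} {z : ℂ} {η : ℝ}
    (hη : 0 < η) (hU : ∀ t ∈ closedBall (0 : ℂ) η, ∀ i, Bd d A (pt U θ t i))
    (halt : (∀ t ∈ closedBall (0 : ℂ) η, ∃ k, BB d A < ‖it (pt U θ t) k z‖) ∨
      ∀ t ∈ closedBall (0 : ℂ) η, ∀ k, ‖it (pt U θ t) k z‖ ≤ BB d A)
    {ρ : ℝ} (hρ : 1 ≤ ρ) {k : ℕ} (hk : ‖it U k z‖ ≤ ρ) {t : ℂ} (ht : ‖t‖ ≤ η / 2) :
    ‖it (pt U θ t) k z‖ ≤ BB d A * (BB d A * ρ) ^ 3 := by
  have hB := BB_ge d hA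
  have hB1 : (1 : ℝ) ≤ BB d A * ρ := by nlinarith
  have hBρ : (1 : ℝ) ≤ (BB d A * ρ) ^ 3 := one_le_pow₀ hB1
  have htc : t ∈ closedBall (0 : ℂ) η := by rw [mem_closedBall_zero_iff]; linarith
  rcases halt with h | h
  swap
  · refine (h t htc k).trans ?_
    nlinarith
  -- a common escape time
  obtain ⟨N, hN⟩ : ∃ N, ∀ t ∈ closedBall (0 : ℂ) η, BB d A < ‖it (pt U θ t) N z‖ := by
    have hmono : ∀ t ∈ closedBall (0 : ℂ) η, ∀ i j, i ≤ j → BB d A < ‖it (pt U θ t) i z‖ →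
        BB d A < ‖it (pt U θ t) j z‖ := by
      intro t ht i j hij hi
      obtain ⟨m, rfl⟩ : ∃ m, j = i + m := ⟨j - i, by omega⟩
      have h1 := it_big hA (hU t ht) hi.le m
      have h2 : (1 : ℝ) ≤ 2 ^ m := one_le_pow₀ (by norm_num)
      nlinarith
    have hopen : ∀ i : ℕ, IsOpen {t : ℂ | BB d A < ‖it (pt U θ t) i z‖} := fun i =>
      isOpen_lt continuous_const (pt_diff U θ z i).continuous.norm
    obtain ⟨s, hs⟩ := (isCompact_closedBall (0 : ℂ) η).elim_finite_subcover _ hopen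
      (fun t ht => mem_iUnion.2 (h t ht))
    refine ⟨s.sup id, fun t ht => ?_⟩
    obtain ⟨i, hi, h1⟩ := mem_iUnion₂.1 (hs ht)
    exact hmono t ht i _ (Finset.le_sup (f := id) hi) h1
  set i : ℕ := N with hi
  have hN' : ∀ t ∈ closedBall (0 : ℂ) η, BB d A < ‖it (pt U θ t) (i + k) z‖ := by
    intro t ht
    have h1 := it_big hA (hU t ht) (hN t ht).le k
    have h2 : (1 : ℝ) ≤ 2 ^ k := one_le_pow₀ (by norm_num)
    have h3 := hN t ht
    nlinarith
  have h0c : (0 : ℂ) ∈ closedBall (0 : ℂ) η := mem_closedBall_self hη.le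
  have hharn := harnack hη (f := fun t => it (pt U θ t) (i + k) z)
    (pt_diff U θ z (i + k)).differentiableOn
    (fun t ht => by
      have := hN' t (ball_subset_closedBall ht)
      show 1 < ‖it (pt U θ t) (i + k) z‖
      linarith) ht
  have hUk : ∀ t ∈ closedBall (0 : ℂ) η, ∀ j, Bd d A ((fun j => pt U θ t (j + k)) j) :=
    fun t ht j => hU t ht _
  have hup : ‖it (pt U θ 0) (i + k) z‖ ≤ (BB d A * ρ) ^ DD (fun j => U (j + k)) i := by
    rw [it_add, pt_zero]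
    have h1 : ∀ j, Bd d A ((fun j => U (j + k)) j) := by
      intro j
      have := hUk 0 h0c j
      rwa [pt_zero] at this
    refine (it_upper hA h1 hρ hk i).trans ?_
    apply div_le_self (by positivity) (by linarith)
  by_contra hcon
  push Not at hcon
  have hσ : BB d A ≤ ‖it (pt U θ t) k z‖ := by
    refine le_trans ?_ hcon.le
    nlinarith
  have hlow := it_lower hA (hUk t htc) hσ i
  rw [← it_add, pt_DD] at hlow
  set D : ℕ := DD (fun j => U (j + k)) i with hD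
  have hD0 : D ≠ 0 := by
    have h1 : ∀ j, Bd d A ((fun j => U (j + k)) j) := by
      intro j
      have := hUk 0 h0c j
      rwa [pt_zero] at this
    exact DD_pos h1 i
  set q : ℝ := ‖it (pt U θ t) k z‖ / BB d A with hq
  have hq1 : (BB d A * ρ) ^ 3 < q := by
    rw [hq, lt_div_iff₀ (by linarith)]
    linarith
  have h1 : q ^ D ≤ ‖it (pt U θ t) (i + k) z‖ := by
    have h2 : 0 ≤ q ^ D := by positivity
    nlinarith
  have h2 : ‖it (pt U θ t) (i + k) z‖ ≤ ((BB d A * ρ) ^ 3) ^ D := by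
    refine hharn.trans ?_
    calc ‖it (pt U θ 0) (i + k) z‖ ^ 3 ≤ ((BB d A * ρ) ^ D) ^ 3 := by gcongr
      _ = _ := by rw [← pow_mul, ← pow_mul, mul_comm D 3]
  have h3 : ((BB d A * ρ) ^ 3) ^ D < q ^ D := pow_lt_pow_left₀ hq1 (by positivity) hD0
  linarith

end Pool.Agent.Y334.ST
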