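import Mathlib
import Pool.Agent.Y334.ST.Gro

/-! Contraction along stable orbits. -/

set_option autoImplicit false

open Filter Topology Metric Set Polynomial

namespace Pool.Agent.Y334.ST

open Pool.Agent.Y334.FP Pool.Agent.Y334.FN

/-- the phase -/
noncomputable def ph (w : ℂ) : ℂ := if w = 0 then 1 else w / (‖w‖ : ℂ)

theorem norm_ph (w : ℂ) : ‖ph w‖ = 1 := by
  unfold ph
  split_ifs with h
  · exact norm_one
  · rw [norm_div, Complex.norm_real, norm_norm, div_self (norm_ne_zero_iff.2 h)]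

theorem norm_add_ph (w : ℂ) : ‖w + ph w‖ = ‖w‖ + 1 := by
  unfold ph
  split_ifs with h
  · rw [h, zero_add, norm_zero, zero_add, norm_one]
  · have hw : (0 : ℝ) < ‖w‖ := norm_pos_iff.2 h
    have hwc : ((‖w‖ : ℝ) : ℂ) ≠ 0 := by exact_mod_cast hw.ne'
    have e : w + w / (‖w‖ : ℂ) = ((1 + 1 / ‖w‖ : ℝ) : ℂ) * w := by
      push_cast
      field_simp
    rw [e, norm_mul, Complex.norm_real, Real.norm_eq_abs, abs_of_pos (by positivity)]
    field_simp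

/-- the derivative along the orbit -/
noncomputable def mm (U : ℕ → ℂ[X]) (z : ℂ) (k : ℕ) : ℂ := (derivative (U k)).eval (it U k z)

/-- the aligned derivatives -/
noncomputable def uu (U : ℕ → ℂ[X]) (z : ℂ) : ℕ → ℂ
  | 0 => 0
  | k + 1 => mm U z k * uu U z k + ph (mm U z k * uu U z k)

theorem norm_uu (U : ℕ → ℂ[X]) (z : ℂ) (k : ℕ) :
    ‖uu U z (k + 1)‖ = ‖mm U z k‖ * ‖uu U z k‖ + 1 := by
  rw [uu, norm_add_ph, norm_mul]

theorem one_le_uu (U : ℕ → ℂ[X]) (z : ℂ) {k : ℕ} (hk : 1 ≤ k) : 1 ≤ ‖uu U z k‖ := by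
  obtain ⟨j, rfl⟩ : ∃ j, k = j + 1 := ⟨k - 1, by omega⟩
  rw [norm_uu]
  have : 0 ≤ ‖mm U z j‖ * ‖uu U z j‖ := by positivity
  linarith

theorem hasDeriv_uu (U : ℕ → ℂ[X]) (z : ℂ) {θ : ℕ → ℂ} (k : ℕ)
    (hθ : ∀ i < k, θ i = ph (mm U z i * uu U z i)) :
    HasDerivAt (fun t => it (pt U θ t) k z) (uu U z k) 0 := by
  induction k with
  | zero => exact hasDerivAt_const _ _
  | succ k ih =>
    have h1 : (fun t => it (pt U θ t) (k + 1) z) =
        fun t => (U k).eval (it (pt U θ t) k z) + t * θ k := by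
      funext t
      rw [it_succ]
      simp only [pt, eval_add, eval_C]
    rw [h1]
    have h2 := ih fun i hi => hθ i (by omega)
    have h3 : HasDerivAt (fun w => (U k).eval w) (mm U z k)
        ((fun t => it (pt U θ t) k z) 0) := by
      show HasDerivAt (fun w => (U k).eval w) (mm U z k) (it (pt U θ 0) k z)
      rw [pt_zero]
      exact (U k).hasDerivAt _
    have h4 : HasDerivAt (fun t => (U k).eval (it (pt U θ t) k z)) (mm U z k * uu U z k) 0 :=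
      HasDerivAt.comp (h₂ := fun w => (U k).eval w) (h := fun t => it (pt U θ t) k z) (0 : ℂ) h3 h2
    have h5 : HasDerivAt (fun t : ℂ => t * θ k) (θ k) 0 := by
      simpa using (hasDerivAt_id (0 : ℂ)).mul_const (θ k)
    rw [uu, ← hθ k (Nat.lt_succ_self k)]
    exact h4.fun_add h5

/-- all perturbations of the orbit are of one kind -/
def Kind (d : ℕ) (A : ℝ) (U : ℕ → ℂ[X]) (z : ℂ) (η : ℝ) : Prop :=
  ∀ K : ℕ, ∀ θ : ℕ → ℂ, (∀ i < K, ‖θ i‖ ≤ 1) → ∃ θ' : ℕ → ℂ, (∀ i < K, θ' i = θ i) ∧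
    (∀ t ∈ closedBall (0 : ℂ) η, ∀ i, Bd d A (pt U θ' t i)) ∧
    ((∀ t ∈ closedBall (0 : ℂ) η, ∃ k, BB d A < ‖it (pt U θ' t) k z‖) ∨
      ∀ t ∈ closedBall (0 : ℂ) η, ∀ k, ‖it (pt U θ' t) k z‖ ≤ BB d A)

/-- the bound -/
noncomputable def LL (d : ℕ) (A ρ η : ℝ) : ℝ := BB d A * (BB d A * ρ) ^ 3 / (η / 2)

theorem uu_le {d : ℕ} {A : ℝ} (hA : 1 ≤ A) {U : ℕ → ℂ[X]} {z : ℂ} {η : ℝ} (hη : 0 < η)
    (hK : Kind d A U z η) {ρ : ℝ} (hρ : 1 ≤ ρ) {k : ℕ} (hk : ‖it U k z‖ ≤ ρ) :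
    ‖uu U z k‖ ≤ LL d A ρ η := by
  obtain ⟨θ, h1, h2, h3⟩ := hK k (fun i => ph (mm U z i * uu U z i)) fun i _ => (norm_ph _).le
  have h4 := hasDeriv_uu U z k h1
  rw [← h4.deriv]
  apply Complex.norm_deriv_le_of_forall_mem_sphere_norm_le (half_pos hη)
    (pt_diff U θ z k).diffContOnCl
  intro t ht
  rw [mem_sphere_zero_iff_norm] at ht
  exact fam_bound hA hη h2 h3 hρ hk ht.le

theorem LL_gt {d : ℕ} {A : ℝ} (hA : 1 ≤ A) {ρ η : ℝ} (hρ : 1 ≤ ρ) (hη : 0 < η) (hη1 : η ≤ 1) :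
    2 ≤ LL d A ρ η := by
  have hB := BB_ge d hA
  have hB1 : (1 : ℝ) ≤ BB d A * ρ := by nlinarith
  have hBρ : (1 : ℝ) ≤ (BB d A * ρ) ^ 3 := one_le_pow₀ hB1
  unfold LL
  rw [le_div_iff₀ (by linarith)]
  nlinarith

/-- **Exponential contraction from summability.** -/
theorem prod_le {U : ℕ → ℂ[X]} {z : ℂ} {L : ℝ} (hL : 1 < L) {j : ℕ} (hj : 1 ≤ j) (m : ℕ)
    (h : ∀ i ≤ m, ‖uu U z (j + i)‖ ≤ L) :
    ∏ i ∈ Finset.range m, ‖mm U z (j + i)‖ ≤ L * (1 - 1 / L) ^ m := by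
  have hq : 0 ≤ 1 - 1 / L := by
    rw [sub_nonneg, div_le_one (by linarith)]
    exact hL.le
  have key : ∀ n ≤ m, ‖uu U z j‖ * ∏ i ∈ Finset.range n, ‖mm U z (j + i)‖ ≤
      (1 - 1 / L) ^ n * ‖uu U z (j + n)‖ := by
    intro n
    induction n with
    | zero => intro _; simp
    | succ n ih =>
      intro hn
      have h1 := ih (by omega)
      rw [Finset.prod_range_succ, ← mul_assoc]
      have h2 : ‖uu U z (j + (n + 1))‖ = ‖mm U z (j + n)‖ * ‖uu U z (j + n)‖ + 1 := by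
        rw [← Nat.add_assoc, norm_uu]
      have h3 := h (n + 1) hn
      have h4 : ‖mm U z (j + n)‖ * ‖uu U z (j + n)‖ ≤ (1 - 1 / L) * ‖uu U z (j + (n + 1))‖ := by
        have h5 : 1 / L * ‖uu U z (j + (n + 1))‖ ≤ 1 := by
          rw [one_div, ← div_eq_inv_mul, div_le_one (by linarith)]
          exact h3
        linarith
      calc (‖uu U z j‖ * ∏ i ∈ Finset.range n, ‖mm U z (j + i)‖) * ‖mm U z (j + n)‖
          ≤ ((1 - 1 / L) ^ n * ‖uu U z (j + n)‖) * ‖mm U z (j + n)‖ := by gcongr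
        _ = (1 - 1 / L) ^ n * (‖mm U z (j + n)‖ * ‖uu U z (j + n)‖) := by ring
        _ ≤ (1 - 1 / L) ^ n * ((1 - 1 / L) * ‖uu U z (j + (n + 1))‖) := by gcongr
        _ = _ := by rw [pow_succ]; ring
  have h1 := key m le_rfl
  have h2 := one_le_uu U z hj
  have h3 := h m le_rfl
  have h4 : 0 ≤ ∏ i ∈ Finset.range m, ‖mm U z (j + i)‖ :=
    Finset.prod_nonneg fun i _ => norm_nonneg _
  calc ∏ i ∈ Finset.range m, ‖mm U z (j + i)‖
      ≤ ‖uu U z j‖ * ∏ i ∈ Finset.range m, ‖mm U z (j + i)‖ := by nlinarith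
    _ ≤ (1 - 1 / L) ^ m * ‖uu U z (j + m)‖ := h1
    _ ≤ (1 - 1 / L) ^ m * L := by gcongr
    _ = _ := by ring

/-- the derivative of a composition -/
theorem it_hasDeriv (U : ℕ → ℂ[X]) (z : ℂ) (m : ℕ) :
    HasDerivAt (it U m) (∏ i ∈ Finset.range m, mm U z i) z := by
  induction m with
  | zero =>
    simp only [Finset.range_zero, Finset.prod_empty]
    exact hasDerivAt_id z
  | succ m ih =>
    rw [Finset.prod_range_succ, mul_comm]
    exact ((U m).hasDerivAt (it U m z)).comp z ih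

end Pool.Agent.Y334.ST
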