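import Mathlib

/-! Prescribing a continuous function along an orbit. -/

set_option autoImplicit false

open Filter Topology Metric Set

namespace Pool.Agent.Y334.ST

theorem orbit_inj {X : Type} {T : X → X} (hT : ∀ x : X, ∀ k : ℕ, 1 ≤ k → T^[k] x ≠ x) (x : X) :
    Function.Injective fun k : ℕ => T^[k] x := by
  have key : ∀ i j : ℕ, i < j → T^[i] x ≠ T^[j] x := by
    intro i j hij h
    obtain ⟨k, rfl⟩ : ∃ k, j = k + i := ⟨j - i, by omega⟩
    rw [Function.iterate_add_apply] at h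
    exact hT _ k (by omega) h.symm
  intro i j h
  rcases lt_trichotomy i j with h1 | h1 | h1
  · exact absurd h (key i j h1)
  · exact h1
  · exact absurd h.symm (key j i h1)

/-- truncation -/
noncomputable def trunc (ρ : ℝ) (z : ℂ) : ℂ := ((ρ / max ρ ‖z‖ : ℝ) : ℂ) * z

theorem trunc_cont {ρ : ℝ} (hρ : 0 < ρ) : Continuous (trunc ρ) := by
  unfold trunc
  apply Continuous.mul _ continuous_id
  apply Complex.continuous_ofReal.comp
  apply Continuous.div continuous_const (continuous_const.max continuous_norm)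
  intro z
  have : ρ ≤ max ρ ‖z‖ := le_max_left _ _
  exact (lt_of_lt_of_le hρ this).ne'

theorem trunc_le {ρ : ℝ} (hρ : 0 < ρ) (z : ℂ) : ‖trunc ρ z‖ ≤ ρ := by
  have h1 : ρ ≤ max ρ ‖z‖ := le_max_left _ _
  have h2 : ‖z‖ ≤ max ρ ‖z‖ := le_max_right _ _
  have h3 : 0 < max ρ ‖z‖ := lt_of_lt_of_le hρ h1
  unfold trunc
  rw [norm_mul, Complex.norm_real, Real.norm_eq_abs, abs_of_pos (by positivity),
    div_mul_eq_mul_div, div_le_iff₀ h3]
  gcongr

theorem trunc_eq {ρ : ℝ} (hρ : 0 < ρ) {z : ℂ} (hz : ‖z‖ ≤ ρ) : trunc ρ z = z := by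
  unfold trunc
  rw [max_eq_left hz, div_self hρ.ne', Complex.ofReal_one, one_mul]

theorem exists_pert {X : Type} [TopologicalSpace X] [NormalSpace X] [T1Space X] {T : X → X}
    (hT : ∀ x : X, ∀ k : ℕ, 1 ≤ k → T^[k] x ≠ x) (x : X) (n : ℕ) (a : ℕ → ℂ) {ρ : ℝ} (hρ : 0 < ρ)
    (ha : ∀ j < n, ‖a j‖ ≤ ρ) :
    ∃ s : X → ℂ, Continuous s ∧ (∀ y, ‖s y‖ ≤ ρ) ∧ ∀ j < n, s (T^[j] x) = a j := by
  classical
  set S : Set X := (fun j : ℕ => T^[j] x) '' (Set.Iio n) with hS
  have hfin : S.Finite := (Set.finite_Iio n).image _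
  have hcl : IsClosed S := hfin.isClosed
  have : Finite S := hfin
  have hdisc : DiscreteTopology S := Finite.instDiscreteTopology
  have hinj := orbit_inj hT x
  set f₀ : X → ℂ := fun y => if h : ∃ j, T^[j] x = y then a h.choose else 0 with hf₀
  have hval : ∀ j, f₀ (T^[j] x) = a j := by
    intro j
    have h : ∃ i, T^[i] x = T^[j] x := ⟨j, rfl⟩
    rw [hf₀]
    simp only
    rw [dif_pos h]
    congr 1
    exact hinj h.choose_spec
  obtain ⟨g, hg⟩ := ContinuousMap.exists_restrict_eq hcl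
    (⟨fun y : S => f₀ y, continuous_of_discreteTopology⟩ : C(S, ℂ))
  refine ⟨fun y => trunc ρ (g y), (trunc_cont hρ).comp g.continuous, fun y => trunc_le hρ _,
    fun j hj => ?_⟩
  have h1 : g (T^[j] x) = a j := by
    have hm : T^[j] x ∈ S := ⟨j, hj, rfl⟩
    have h2 := DFunLike.congr_fun hg ⟨T^[j] x, hm⟩
    have h3 : g (T^[j] x) = f₀ (T^[j] x) := h2
    rw [h3, hval]
  show trunc ρ (g (T^[j] x)) = a j
  rw [h1, trunc_eq hρ (ha j hj)]

end Pool.Agent.Y334.ST
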