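import Mathlib
import Pool.Agent.Y334.ST.Der
import Pool.Agent.Y334.ST.Pre

/-! Stable fibered polynomials: contraction near the post-critical set. -/

set_option autoImplicit false

open Filter Topology Metric Set Polynomial

namespace Pool.Agent.Y334.ST

open Pool.Agent.Y334.FP Pool.Agent.Y334.FN

/-- escape -/
def EscF {X : Type} (T : X → X) (g : X → ℂ[X]) (x : X) (z : ℂ) : Prop :=
  Tendsto (fun k : ℕ => ‖fib T g k x z‖) atTop atTop

/-- the shifted family -/
noncomputable def sh {X : Type} (g : X → ℂ[X]) (s : X → ℂ) : X → ℂ[X] := fun x => g x + C (s x)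

/-- stability of the escape pattern of the critical points under shifts smaller than `ε` -/
def Stb {X : Type} [TopologicalSpace X] (T : X → X) (g : X → ℂ[X]) (ε : ℝ) : Prop :=
  ∀ s : X → ℂ, Continuous s → (∀ x, ‖s x‖ < ε) → ∀ x z, (derivative (g x)).eval z = 0 →
    (EscF T (sh g s) x z ↔ EscF T g x z)

theorem bd_shift {d : ℕ} {A : ℝ} (hA : 1 ≤ A) {P : ℂ[X]} (hP : Bd d A P) {t : ℂ} (ht : ‖t‖ ≤ 1) :
    Bd d (A + 1) (P + C t) := by
  obtain ⟨h2, hd, hc, hl⟩ := hP
  refine ⟨by rw [natDegree_add_C]; exact h2, by rw [natDegree_add_C]; exact hd, fun j => ?_, ?_⟩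
  · rw [coeff_add, coeff_C]
    refine (norm_add_le _ _).trans (add_le_add (hc j) ?_)
    split_ifs
    · exact ht
    · rw [norm_zero]; norm_num
  · have h1 : (P + C t).leadingCoeff = P.leadingCoeff := by
      rw [leadingCoeff, natDegree_add_C, coeff_add, coeff_C, if_neg (by omega), add_zero]
      rfl
    rw [h1]
    refine le_trans ?_ hl
    apply one_div_le_one_div_of_le (by linarith)
    linarith

theorem esc_iff {d : ℕ} {A : ℝ} (hA : 1 ≤ A) {U : ℕ → ℂ[X]} (hU : ∀ i, Bd d A (U i)) (z : ℂ) :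
    Tendsto (fun k : ℕ => ‖it U k z‖) atTop atTop ↔ ∃ k, BB d A < ‖it U k z‖ := by
  have hB := BB_ge d hA
  constructor
  · intro h
    obtain ⟨k, hk⟩ := (h.eventually (eventually_gt_atTop (BB d A))).exists
    exact ⟨k, hk⟩
  · rintro ⟨k, hk⟩
    rw [← tendsto_add_atTop_iff_nat k]
    refine tendsto_atTop_mono (fun j => ?_) (tendsto_pow_atTop_atTop_of_one_lt
      (one_lt_two : (1 : ℝ) < 2))
    have h1 := it_big hA hU hk.le j
    rw [add_comm] at h1
    have h2 : (0 : ℝ) < 2 ^ j := by positivity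
    nlinarith

section

variable {X : Type} [TopologicalSpace X] [NormalSpace X] [T1Space X] {T : X → X} {g : X → ℂ[X]}

theorem kind_of_stb (hT : ∀ x : X, ∀ k : ℕ, 1 ≤ k → T^[k] x ≠ x) {d : ℕ} {A : ℝ} (hA : 1 ≤ A)
    (hB : ∀ x, Bd d A (g x)) {ε : ℝ} (hε : 0 < ε) (hε1 : ε ≤ 1) (hst : Stb T g ε) {s : X → ℂ}
    (hs : Continuous s) (hsε : ∀ y, ‖s y‖ ≤ ε / 4) {x : X} {z : ℂ}
    (hz : (derivative (g x)).eval z = 0) :
    Kind d (A + 1) (fun i => sh g s (T^[i] x)) z (ε / 2) := by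
  intro K θ hθ
  obtain ⟨θX, h1, h2, h3⟩ := exists_pert hT x K θ one_pos hθ
  have hsh : ∀ t : ℂ, pt (fun i => sh g s (T^[i] x)) (fun i => θX (T^[i] x)) t =
      fun i => sh g (fun y => s y + t * θX y) (T^[i] x) := by
    intro t
    funext i
    simp only [pt, sh, map_add, add_assoc]
  have hn : ∀ t ∈ closedBall (0 : ℂ) (ε / 2), ∀ y, ‖s y + t * θX y‖ ≤ 3 * ε / 4 := by
    intro t ht y
    rw [mem_closedBall_zero_iff] at ht
    refine (norm_add_le _ _).trans ?_
    rw [norm_mul]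
    have h4 : ‖t‖ * ‖θX y‖ ≤ ε / 2 * 1 := mul_le_mul ht (h2 y) (norm_nonneg _) (by linarith)
    have := hsε y
    linarith
  have hBd : ∀ t ∈ closedBall (0 : ℂ) (ε / 2), ∀ i,
      Bd d (A + 1) (pt (fun i => sh g s (T^[i] x)) (fun i => θX (T^[i] x)) t i) := by
    intro t ht i
    rw [hsh]
    exact bd_shift hA (hB _) ((hn t ht _).trans (by linarith))
  have hA1 : 1 ≤ A + 1 := by linarith
  have hesc : ∀ t ∈ closedBall (0 : ℂ) (ε / 2),
      ((∃ k, BB d (A + 1) < ‖it (pt (fun i => sh g s (T^[i] x)) (fun i => θX (T^[i] x)) t) k z‖) ↔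
        EscF T g x z) := by
    intro t ht
    rw [← esc_iff hA1 (hBd t ht), hsh]
    have h4 := hst (fun y => s y + t * θX y) (hs.add (continuous_const.mul h1))
      (fun y => lt_of_le_of_lt (hn t ht y) (by linarith)) x z hz
    rw [← h4]
    unfold EscF
    simp only [it_fib]
  refine ⟨fun i => θX (T^[i] x), h3, hBd, ?_⟩
  by_cases hE : EscF T g x z
  · exact Or.inl fun t ht => (hesc t ht).2 hE
  · refine Or.inr fun t ht k => ?_
    by_contra hcon
    push Not at hcon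
    exact hE ((hesc t ht).1 ⟨k, hcon⟩)

/-- contraction along all orbits close to a post-critical point, as long as they are bounded -/
def GD {X : Type} (T : X → X) (g : X → ℂ[X]) (ρ δ L : ℝ) (x : X) (v : ℂ) : Prop :=
  ∀ w, ‖w - v‖ ≤ δ → ∀ m, (∀ i ≤ m, ‖fib T g i x w‖ ≤ ρ) →
    ∏ i ∈ Finset.range m, ‖(derivative (g (T^[i] x))).eval (fib T g i x w)‖ ≤
      L * (1 - 1 / L) ^ m

theorem gd_of_stb (hT : ∀ x : X, ∀ k : ℕ, 1 ≤ k → T^[k] x ≠ x) {d : ℕ} {A : ℝ} (hA : 1 ≤ A)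
    (hB : ∀ x, Bd d A (g x)) {ε : ℝ} (hε : 0 < ε) (hε1 : ε ≤ 1) (hst : Stb T g ε) {ρ : ℝ}
    (hρ : 1 ≤ ρ) {x : X} {z : ℂ} (hz : (derivative (g x)).eval z = 0) {j : ℕ} (hj : 1 ≤ j) :
    GD T g ρ (ε / 4) (LL d (A + 1) ρ (ε / 2)) (T^[j] x) (fib T g j x z) := by
  classical
  intro w hw m hm
  obtain ⟨n, rfl⟩ : ∃ n, j = n + 1 := ⟨j - 1, by omega⟩
  have hA1 : 1 ≤ A + 1 := by linarith
  obtain ⟨s, h1, h2, h3⟩ := exists_pert hT x (n + 1 + m)
    (fun i => if i = n then w - fib T g (n + 1) x z else 0) (show 0 < ε / 4 by linarith)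
    (fun i _ => by
      show ‖if i = n then w - fib T g (n + 1) x z else 0‖ ≤ ε / 4
      split_ifs
      · exact hw
      · rw [norm_zero]; linarith)
  have hKind := kind_of_stb hT hA hB hε hε1 hst h1 h2 hz
  set U : ℕ → ℂ[X] := fun i => sh g s (T^[i] x) with hU
  have hUi : ∀ i < n + 1 + m, i ≠ n → U i = g (T^[i] x) := by
    intro i hi hin
    show g (T^[i] x) + C (s (T^[i] x)) = g (T^[i] x)
    rw [h3 i hi, if_neg hin, C_0, add_zero]
  have hUn : U n = g (T^[n] x) + C (w - fib T g (n + 1) x z) := by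
    show g (T^[n] x) + C (s (T^[n] x)) = _
    rw [h3 n (by omega), if_pos rfl]
  have e1 : it U n z = fib T g n x z := by
    rw [it_fib]
    exact it_congr (fun i hi => hUi i (by omega) (by omega)) z
  have e2 : it U (n + 1) z = w := by
    rw [it_succ, hUn, eval_add, eval_C, e1, ← fib_succ]
    ring
  have e3 : ∀ i ≤ m, it U (n + 1 + i) z = fib T g i (T^[n + 1] x) w := by
    intro i hi
    rw [add_comm (n + 1) i, it_add, e2, it_fib]
    apply it_congr
    intro a ha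
    show U (a + (n + 1)) = g (T^[a] (T^[n + 1] x))
    rw [hUi _ (by omega) (by omega), Function.iterate_add_apply]
  have hu : ∀ i ≤ m, ‖uu U z (n + 1 + i)‖ ≤ LL d (A + 1) ρ (ε / 2) := by
    intro i hi
    apply uu_le hA1 (half_pos hε) hKind hρ
    rw [e3 i hi]
    exact hm i hi
  have hL : 1 < LL d (A + 1) ρ (ε / 2) := by
    have := LL_gt (d := d) hA1 hρ (half_pos hε) (by linarith)
    linarith
  have h4 := prod_le hL (by omega : 1 ≤ n + 1) m hu
  refine le_trans (le_of_eq ?_) h4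
  apply Finset.prod_congr rfl
  intro i hi
  have hi' := Finset.mem_range.1 hi
  show _ = ‖(derivative (U (n + 1 + i))).eval (it U (n + 1 + i) z)‖
  have e4 : T^[i + (n + 1)] x = T^[i] (T^[n + 1] x) := Function.iterate_add_apply _ _ _ _
  rw [e3 i (by omega), hUi _ (by omega) (by omega), add_comm (n + 1) i, e4]

end

end Pool.Agent.Y334.ST
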