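import Mathlib
import Pool.Agent.Y334.ST.Sta

/-! From the contraction along post-critical orbits to hyperbolicity. -/

set_option autoImplicit false

open Filter Topology Metric Set Polynomial

namespace Pool.Agent.Y334.ST

open Pool.Agent.Y334.FP Pool.Agent.Y334.FN

/-- contraction until escape of one disc -/
def AD {X : Type} (T : X → X) (g : X → ℂ[X]) (r K lam : ℝ) (x : X) (v : ℂ) : Prop :=
  (∀ k, Con T g r K lam x v k) ∨
    ∃ k₀, (∀ k < k₀, Con T g r K lam x v k) ∧
      ∀ k z, ‖z - v‖ < r → 2 ^ k ≤ ‖fib T g (k₀ + k) x z‖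

section

variable {X : Type} {T : X → X} {g : X → ℂ[X]} {d : ℕ} {A : ℝ}

theorem fib_hasDeriv (x : X) (z : ℂ) (m : ℕ) :
    HasDerivAt (fib T g m x) (∏ i ∈ Finset.range m, (derivative (g (T^[i] x))).eval (fib T g i x z))
      z := by
  have h1 : fib T g m x = it (fun i => g (T^[i] x)) m := by
    funext w
    exact it_fib T g m x w
  rw [h1]
  have h2 := it_hasDeriv (fun i => g (T^[i] x)) z m
  have h3 : ∏ i ∈ Finset.range m, mm (fun i => g (T^[i] x)) z i =
      ∏ i ∈ Finset.range m, (derivative (g (T^[i] x))).eval (fib T g i x z) := by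
    apply Finset.prod_congr rfl
    intro i _
    rw [mm, it_fib]
  rw [h3] at h2
  exact h2

theorem esc_big (hA : 1 ≤ A) (hB : ∀ x, Bd d A (g x)) {x : X} {z : ℂ} {N : ℕ}
    (hz : BB d A ≤ ‖fib T g N x z‖) (k : ℕ) : 2 ^ k ≤ ‖fib T g (N + k) x z‖ := by
  have hB4 := BB_ge d hA
  have h1 := it_big hA (U := fun i => g (T^[i] x)) (fun i => hB _) (z := z) (k := N)
    (by rw [← it_fib]; exact hz) k
  rw [← it_fib, ← it_fib] at h1
  have h2 : (0 : ℝ) < 2 ^ k := by positivity
  nlinarith

/-- the disc is contracted as long as the centre is bounded -/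
theorem disc_step (hA : 1 ≤ A) (hB : ∀ x, Bd d A (g x)) {M : ℝ} (hM : 1 ≤ M)
    (hlip : ∀ P : ℂ[X], Bd d A P → ∀ z w : ℂ, ‖z‖ ≤ BB d A + 3 → ‖w‖ ≤ BB d A + 3 →
      ‖P.eval z - P.eval w‖ ≤ M * ‖z - w‖)
    {δ L r : ℝ} (hL : 1 < L) (hr : 0 < r) (hrδ : r ≤ δ) (hr1 : M * L * r ≤ 1 / 2) {x : X} {v : ℂ}
    (hgd : GD T g (BB d A + 3) δ L x v) (m : ℕ) (hm : ∀ i ≤ m, ‖fib T g i x v‖ ≤ BB d A + 2) :
    ∀ i ≤ m, Con T g r L (1 - 1 / L) x v i ∧
      ∀ w, ‖w - v‖ < r → ‖fib T g i x w - fib T g i x v‖ ≤ 1 / 2 := by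
  have hq0 : 0 ≤ 1 - 1 / L := by
    rw [sub_nonneg, div_le_one (by linarith)]
    exact hL.le
  have hq1 : 1 - 1 / L ≤ 1 := by
    have : 0 ≤ 1 / L := by positivity
    linarith
  have hLr : L * r ≤ 1 / 2 := by
    have : 0 ≤ L * r := by positivity
    nlinarith
  have key : ∀ n ≤ m, ∀ i ≤ n, Con T g r L (1 - 1 / L) x v i ∧
      ∀ w, ‖w - v‖ < r → ‖fib T g i x w - fib T g i x v‖ ≤ 1 / 2 := by
    intro n
    induction n with
    | zero =>
      intro _ i hi
      obtain rfl : i = 0 := by omega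
      constructor
      · intro z z' _ _
        show ‖z - z'‖ ≤ L * (1 - 1 / L) ^ 0 * ‖z - z'‖
        rw [pow_zero, mul_one]
        nlinarith [norm_nonneg (z - z')]
      · intro w hw
        show ‖w - v‖ ≤ 1 / 2
        nlinarith
    | succ n ih =>
      intro hn i hi
      have ih' := ih (by omega)
      rcases Nat.lt_or_ge i (n + 1) with h | h
      · exact ih' i (by omega)
      obtain rfl : i = n + 1 := by omega
      have hb : ∀ i ≤ n, ∀ w, ‖w - v‖ < r → ‖fib T g i x w‖ ≤ BB d A + 3 := by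
        intro i hi w hw
        have h1 := (ih' i hi).2 w hw
        have h2 := hm i (by omega)
        have h3 := norm_add_le (fib T g i x w - fib T g i x v) (fib T g i x v)
        rw [sub_add_cancel] at h3
        linarith
      have hclose : ∀ w, ‖w - v‖ < r → ‖fib T g (n + 1) x w - fib T g (n + 1) x v‖ ≤ 1 / 2 := by
        intro w hw
        rw [fib_succ, fib_succ]
        have h1 := hlip _ (hB (T^[n] x)) _ _ (hb n le_rfl w hw)
          (hb n le_rfl v (by rw [sub_self, norm_zero]; exact hr))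
        have h2 := (ih' n le_rfl).1 w v hw (by rw [sub_self, norm_zero]; exact hr)
        have h3 : (1 - 1 / L) ^ n ≤ 1 := pow_le_one₀ hq0 hq1
        have h4 : L * (1 - 1 / L) ^ n * ‖w - v‖ ≤ L * r := by
          calc L * (1 - 1 / L) ^ n * ‖w - v‖ ≤ L * 1 * r := by gcongr
            _ = L * r := by ring
        calc ‖(g (T^[n] x)).eval (fib T g n x w) - (g (T^[n] x)).eval (fib T g n x v)‖
            ≤ M * ‖fib T g n x w - fib T g n x v‖ := h1
          _ ≤ M * (L * r) := by gcongr; exact h2.trans h4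
          _ ≤ 1 / 2 := by linarith
      refine ⟨?_, hclose⟩
      have hb' : ∀ w, ‖w - v‖ < r → ∀ i ≤ n + 1, ‖fib T g i x w‖ ≤ BB d A + 3 := by
        intro w hw i hi
        rcases Nat.lt_or_ge i (n + 1) with h | h
        · exact hb i (by omega) w hw
        · obtain rfl : i = n + 1 := by omega
          have h2 := hm (n + 1) hn
          have h3 := norm_add_le (fib T g (n + 1) x w - fib T g (n + 1) x v) (fib T g (n + 1) x v)
          rw [sub_add_cancel] at h3
          have h4 := hclose w hw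
          linarith
      intro z z' hz hz'
      have h1 := Convex.norm_image_sub_le_of_norm_hasDerivWithin_le (f := fib T g (n + 1) x)
        (f' := fun w => ∏ i ∈ Finset.range (n + 1),
          (derivative (g (T^[i] x))).eval (fib T g i x w)) (s := ball v r)
        (C := L * (1 - 1 / L) ^ (n + 1))
        (fun w _ => (fib_hasDeriv x w (n + 1)).hasDerivWithinAt)
        (fun w hw => by
          rw [mem_ball_iff_norm] at hw
          rw [norm_prod]
          exact hgd w (hw.le.trans hrδ) (n + 1) (hb' w hw))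
        (convex_ball v r) (mem_ball_iff_norm.2 hz') (mem_ball_iff_norm.2 hz)
      exact h1
  exact fun i hi => key m le_rfl i hi

/-- contraction until escape -/
theorem ad_of_gd (hA : 1 ≤ A) (hB : ∀ x, Bd d A (g x)) {M : ℝ} (hM : 1 ≤ M)
    (hlip : ∀ P : ℂ[X], Bd d A P → ∀ z w : ℂ, ‖z‖ ≤ BB d A + 3 → ‖w‖ ≤ BB d A + 3 →
      ‖P.eval z - P.eval w‖ ≤ M * ‖z - w‖)
    {δ L r : ℝ} (hL : 1 < L) (hr : 0 < r) (hrδ : r ≤ δ) (hr1 : M * L * r ≤ 1 / 2) {x : X} {v : ℂ}
    (hgd : GD T g (BB d A + 3) δ L x v) : AD T g r L (1 - 1 / L) x v := by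
  classical
  have hB4 := BB_ge d hA
  have hq0 : 0 ≤ 1 - 1 / L := by
    rw [sub_nonneg, div_le_one (by linarith)]
    exact hL.le
  have hq1 : 1 - 1 / L ≤ 1 := by
    have : 0 ≤ 1 / L := by positivity
    linarith
  have hLr : L * r ≤ 1 / 2 := by
    have : 0 ≤ L * r := by positivity
    nlinarith
  by_cases h : ∃ k, BB d A + 2 < ‖fib T g k x v‖
  · right
    obtain ⟨N, hN, hlt⟩ : ∃ N, BB d A + 2 < ‖fib T g N x v‖ ∧
        ∀ k < N, ‖fib T g k x v‖ ≤ BB d A + 2 :=
      ⟨Nat.find h, Nat.find_spec h, fun k hk => not_lt.1 (Nat.find_min h hk)⟩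
    refine ⟨N, fun k hk => ?_, fun k z hz => ?_⟩
    · exact (disc_step hA hB hM hlip hL hr hrδ hr1 hgd k (fun i hi => hlt i (by omega)) k
        le_rfl).1
    · apply esc_big hA hB
      have hclose : ‖fib T g N x z - fib T g N x v‖ ≤ 1 / 2 := by
        rcases Nat.eq_zero_or_pos N with h0 | h0
        · subst h0
          show ‖z - v‖ ≤ 1 / 2
          nlinarith
        · obtain ⟨n, rfl⟩ : ∃ n, N = n + 1 := ⟨N - 1, by omega⟩
          obtain ⟨h1, h2⟩ := disc_step hA hB hM hlip hL hr hrδ hr1 hgd n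
            (fun i hi => hlt i (by omega)) n le_rfl
          have h3 := h2 z hz
          have h4 := hlt n (by omega)
          have h5 := norm_add_le (fib T g n x z - fib T g n x v) (fib T g n x v)
          rw [sub_add_cancel] at h5
          have h6 := hlip _ (hB (T^[n] x)) (fib T g n x z) (fib T g n x v) (by linarith)
            (by linarith)
          have h7 := h1 z v hz (by rw [sub_self, norm_zero]; exact hr)
          have h8 : (1 - 1 / L) ^ n ≤ 1 := pow_le_one₀ hq0 hq1
          have h9 : L * (1 - 1 / L) ^ n * ‖z - v‖ ≤ L * r := by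
            calc L * (1 - 1 / L) ^ n * ‖z - v‖ ≤ L * 1 * r := by gcongr
              _ = L * r := by ring
          rw [fib_succ, fib_succ]
          calc ‖(g (T^[n] x)).eval (fib T g n x z) - (g (T^[n] x)).eval (fib T g n x v)‖
              ≤ M * ‖fib T g n x z - fib T g n x v‖ := h6
            _ ≤ M * (L * r) := by gcongr; exact h7.trans h9
            _ ≤ 1 / 2 := by linarith
      have h1 := norm_sub_norm_le (fib T g N x v) (fib T g N x z)
      rw [norm_sub_rev] at h1
      linarith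
  · left
    push Not at h
    intro k
    exact (disc_step hA hB hM hlip hL hr hrδ hr1 hgd k (fun i _ => h i) k le_rfl).1

/-- finitely many steps -/
theorem lip_run (hB : ∀ x, Bd d A (g x)) {M : ℝ} (hM : 1 ≤ M)
    (hlip : ∀ P : ℂ[X], Bd d A P → ∀ z w : ℂ, ‖z‖ ≤ BB d A + 3 → ‖w‖ ≤ BB d A + 3 →
      ‖P.eval z - P.eval w‖ ≤ M * ‖z - w‖) {r : ℝ} (hr : 0 < r) {x : X} {v : ℂ} (N : ℕ)
    (hN : ∀ i < N, ‖fib T g i x v‖ ≤ BB d A + 2) (hMr : M ^ N * r ≤ 1 / 2) :
    ∀ i ≤ N, ∀ z z', ‖z - v‖ < r → ‖z' - v‖ < r →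
      ‖fib T g i x z - fib T g i x z'‖ ≤ M ^ i * ‖z - z'‖ := by
  intro i
  induction i with
  | zero =>
    intro _ z z' _ _
    rw [pow_zero, one_mul]
    exact le_rfl
  | succ i ih =>
    intro hi z z' hz hz'
    have ih' := ih (by omega)
    have hb : ∀ z, ‖z - v‖ < r → ‖fib T g i x z‖ ≤ BB d A + 3 := by
      intro z hz
      have h1 := ih' z v hz (by rw [sub_self, norm_zero]; exact hr)
      have h2 := hN i (by omega)
      have h3 := norm_add_le (fib T g i x z - fib T g i x v) (fib T g i x v)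
      rw [sub_add_cancel] at h3
      have h4 : M ^ i ≤ M ^ N := pow_le_pow_right₀ hM (by omega)
      have h5 : M ^ i * ‖z - v‖ ≤ M ^ N * r := by gcongr
      linarith
    rw [fib_succ, fib_succ]
    calc ‖(g (T^[i] x)).eval (fib T g i x z) - (g (T^[i] x)).eval (fib T g i x z')‖
        ≤ M * ‖fib T g i x z - fib T g i x z'‖ := hlip _ (hB _) _ _ (hb z hz) (hb z' hz')
      _ ≤ M * (M ^ i * ‖z - z'‖) := by gcongr; exact ih' z z' hz hz'
      _ = _ := by rw [pow_succ]; ring

end

/-- **Contraction along the post-critical orbits gives hyperbolicity.** -/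
theorem hyp_of_gd {X : Type} [TopologicalSpace X] {T : X → X} {g : X → ℂ[X]} {d : ℕ} {A : ℝ}
    (hT : Continuous T) (hg : ∀ k, Continuous fun x => (g x).coeff k) (hA : 1 ≤ A)
    (hB : ∀ x, Bd d A (g x)) {δ L : ℝ} (hδ : 0 < δ) (hL : 2 ≤ L)
    (hgd : ∀ p ∈ PCp T g, GD T g (BB d A + 3) δ L p.1 p.2) :
    ∃ r K lam : ℝ, 0 < r ∧ 0 < lam ∧ lam < 1 ∧ HypP T g r K lam := by
  classical
  have hB4 := BB_ge d hA
  have hd : ∀ x, (g x).natDegree ≤ d := fun x => (hB x).2.1
  have hfc := fib_cont hT hg hd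
  obtain ⟨M, hM2, hlip'⟩ := lip_bounded d (by linarith : 0 ≤ A) (BB d A + 3)
  have hM : 1 ≤ M := by linarith
  have hlip : ∀ P : ℂ[X], Bd d A P → ∀ z w : ℂ, ‖z‖ ≤ BB d A + 3 → ‖w‖ ≤ BB d A + 3 →
      ‖P.eval z - P.eval w‖ ≤ M * ‖z - w‖ := fun P hP => hlip' P hP.2.1 hP.2.2.1
  set lam : ℝ := 1 - 1 / L with hlam
  have hinvL : 1 / L ≤ 1 / 2 := one_div_le_one_div_of_le (by norm_num) hL
  have hinvL0 : 0 < 1 / L := by positivity
  have hl0 : 0 < lam := by rw [hlam]; linarith
  have hl1 : lam < 1 := by rw [hlam]; linarith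
  -- the radius
  set r : ℝ := min δ (1 / (2 * M * L)) with hr
  have hr0 : 0 < r := lt_min hδ (by positivity)
  have hrδ : r ≤ δ := min_le_left _ _
  have hr1 : M * L * r ≤ 1 / 2 := by
    have h1 : r ≤ 1 / (2 * M * L) := min_le_right _ _
    have h2 : 0 < M * L := by positivity
    calc M * L * r ≤ M * L * (1 / (2 * M * L)) := by gcongr
      _ = 1 / 2 := by field_simp
  have hrh : r ≤ 1 / 2 := by
    have : 1 ≤ M * L := by nlinarith
    nlinarith
  have had : ∀ p ∈ PCp T g, AD T g r L lam p.1 p.2 := fun p hp =>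
    ad_of_gd hA hB hM hlip (by linarith) hr0 hrδ hr1 (hgd p hp)
  -- the number of steps
  obtain ⟨J, hJ⟩ : ∃ J : ℕ, 2 * (L * lam ^ J) * (2 * (BB d A + 3)) < r / 2 := by
    have h1 : Tendsto (fun J : ℕ => 2 * (L * lam ^ J) * (2 * (BB d A + 3))) atTop (𝓝 0) := by
      have h2 := (((tendsto_pow_atTop_nhds_zero_of_lt_one hl0.le hl1).const_mul L).const_mul
        2).mul_const (2 * (BB d A + 3))
      simpa using h2
    exact (h1.eventually (gt_mem_nhds (by linarith))).exists
  have hMJ : 1 ≤ M ^ J := one_le_pow₀ hM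
  have hMJ0 : 0 < M ^ J := by linarith
  set r' : ℝ := r / (2 * M ^ J) with hr'
  have hr'0 : 0 < r' := by rw [hr']; positivity
  have hMr : M ^ J * r' = r / 2 := by
    rw [hr']
    field_simp
  set K : ℝ := L * (M / lam) ^ J with hK
  have hMl : 1 ≤ M / lam := by rw [le_div_iff₀ hl0]; linarith
  have hKk : ∀ k ≤ J, M ^ k ≤ K * lam ^ k := by
    intro k hk
    have h1 : (M / lam) ^ k ≤ (M / lam) ^ J := pow_le_pow_right₀ hMl hk
    have h2 : (1 : ℝ) ≤ (M / lam) ^ J := one_le_pow₀ hMl
    have h3 : (M / lam) ^ k ≤ K := by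
      rw [hK]
      nlinarith
    have h4 : (M / lam) ^ k * lam ^ k = M ^ k := by
      rw [← mul_pow, div_mul_cancel₀ _ hl0.ne']
    rw [← h4]
    gcongr
  have hKJ : K * lam ^ J = L * M ^ J := by
    rw [hK, mul_assoc, ← mul_pow, div_mul_cancel₀ _ hl0.ne']
  set Q : X × ℂ → ℝ := fun p =>
    ∏ i ∈ Finset.range J, ‖(derivative (g (T^[i] p.1))).eval (fib T g i p.1 p.2)‖ with hQ
  have hQc : Continuous Q := by
    rw [hQ]
    apply continuous_finset_prod
    intro i _
    apply Continuous.norm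
    refine eval_cont (g := fun x => derivative (g x)) (d := d) (fun k => ?_) (fun x => ?_)
      ((hT.iterate i).comp continuous_fst) (hfc i)
    · simp only [coeff_derivative]
      exact (hg (k + 1)).mul continuous_const
    · exact (natDegree_derivative_le _).trans (by have := hd x; omega)
  refine ⟨r', K, lam, hr'0, hl0, hl1, ?_⟩
  intro p hp
  by_cases hcase : ∃ i ≤ J, BB d A + 2 ≤ ‖fib T g i p.1 p.2‖
  · -- the orbit leaves soon
    have hex : ∃ i, BB d A + 2 ≤ ‖fib T g i p.1 p.2‖ := by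
      obtain ⟨i, -, hi⟩ := hcase
      exact ⟨i, hi⟩
    obtain ⟨N, hNJ, hN, hlt⟩ : ∃ N ≤ J, BB d A + 2 ≤ ‖fib T g N p.1 p.2‖ ∧
        ∀ k < N, ‖fib T g k p.1 p.2‖ < BB d A + 2 := by
      refine ⟨Nat.find hex, ?_, Nat.find_spec hex, fun k hk => not_le.1 (Nat.find_min hex hk)⟩
      obtain ⟨i, hi, h1⟩ := hcase
      exact (Nat.find_min' hex h1).trans hi
    have hW1 : ∀ᶠ x in 𝓝 p.1, ∀ k ∈ Finset.range N, ‖fib T g k x p.2‖ < BB d A + 2 := by
      refine (Filter.eventually_all_finset _).2 fun k hk => ?_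
      have h1 : Continuous fun x => ‖fib T g k x p.2‖ :=
        ((hfc k).comp (continuous_id.prodMk continuous_const)).norm
      exact h1.continuousAt.eventually_lt continuousAt_const (hlt k (Finset.mem_range.1 hk))
    have hW2 : ∀ᶠ x in 𝓝 p.1, BB d A + 1 < ‖fib T g N x p.2‖ := by
      have h1 : Continuous fun x => ‖fib T g N x p.2‖ :=
        ((hfc N).comp (continuous_id.prodMk continuous_const)).norm
      exact continuousAt_const.eventually_lt h1.continuousAt (by linarith)
    refine ⟨_, hW1.and hW2, ?_⟩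
    rintro x ⟨h1, h2⟩
    have h1' : ∀ i < N, ‖fib T g i x p.2‖ ≤ BB d A + 2 := fun i hi =>
      (h1 i (Finset.mem_range.2 hi)).le
    have hMN : M ^ N * r' ≤ 1 / 2 := by
      have h3 : M ^ N ≤ M ^ J := pow_le_pow_right₀ hM hNJ
      nlinarith
    have hrun := lip_run hB hM hlip hr'0 N h1' hMN
    right
    refine ⟨N, fun k hk z z' hz hz' => ?_, fun k z hz => ?_⟩
    · refine (hrun k (by omega) z z' hz hz').trans ?_
      exact mul_le_mul_of_nonneg_right (hKk k (by omega)) (norm_nonneg _)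
    · apply esc_big hA hB
      have h3 := hrun N le_rfl z p.2 hz (by rw [sub_self, norm_zero]; exact hr'0)
      have h4 : M ^ N * ‖z - p.2‖ ≤ M ^ N * r' := by gcongr
      have h5 := norm_sub_norm_le (fib T g N x p.2) (fib T g N x z)
      rw [norm_sub_rev] at h5
      have h2' : BB d A + 1 < ‖fib T g N x p.2‖ := h2
      linarith
  · push Not at hcase
    have hQp : Q p ≤ L * lam ^ J := by
      by_contra hcon
      push Not at hcon
      have hO : ∀ᶠ q in 𝓝 p, (∀ k ∈ Finset.range (J + 1), ‖fib T g k q.1 q.2‖ < BB d A + 2) ∧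
          L * lam ^ J < Q q := by
        refine Filter.Eventually.and ?_ ?_
        · refine (Filter.eventually_all_finset _).2 fun k hk => ?_
          exact (hfc k).norm.continuousAt.eventually_lt continuousAt_const
            (hcase k (by have := Finset.mem_range.1 hk; omega))
        · exact continuousAt_const.eventually_lt hQc.continuousAt hcon
      obtain ⟨q, ⟨h1, h2⟩, h3⟩ := mem_closure_iff_nhds.1 hp _ hO
      have h4 := hgd q h3 q.2 (by rw [sub_self, norm_zero]; exact hδ.le) J
        (fun i hi => by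
          have := h1 i (Finset.mem_range.2 (by omega))
          linarith)
      have h2' : L * lam ^ J < Q q := h2
      exact absurd h4 (not_le.2 h2')
    have hW1 : ∀ᶠ x in 𝓝 p.1, ∀ k ∈ Finset.range (J + 1), ‖fib T g k x p.2‖ < BB d A + 2 := by
      refine (Filter.eventually_all_finset _).2 fun k hk => ?_
      have h1 : Continuous fun x => ‖fib T g k x p.2‖ :=
        ((hfc k).comp (continuous_id.prodMk continuous_const)).norm
      exact h1.continuousAt.eventually_lt continuousAt_const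
        (hcase k (by have := Finset.mem_range.1 hk; omega))
    have hLJ : 0 < L * lam ^ J := by positivity
    have hW2 : ∀ᶠ x in 𝓝 p.1, Q (x, p.2) < 2 * (L * lam ^ J) := by
      have h1 : Continuous fun x => Q (x, p.2) :=
        hQc.comp (continuous_id.prodMk continuous_const)
      have h2 : Q (p.1, p.2) < 2 * (L * lam ^ J) := by
        have : Q (p.1, p.2) = Q p := rfl
        linarith
      exact h1.continuousAt.eventually_lt continuousAt_const h2
    refine ⟨_, hW1.and hW2, ?_⟩
    rintro x ⟨h1, h2⟩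
    have h1' : ∀ i ≤ J, ‖fib T g i x p.2‖ < BB d A + 2 := fun i hi =>
      h1 i (Finset.mem_range.2 (by omega))
    have h2' : Q (x, p.2) < 2 * (L * lam ^ J) := h2
    have hMJr : M ^ J * r' ≤ 1 / 2 := by linarith
    have hrun := lip_run hB hM hlip hr'0 J (fun i hi => (h1' i (by omega)).le) hMJr
    -- a critical value nearby
    set F : ℂ[X] := cmp (fun i => g (T^[i] x)) J with hF
    have hFe : ∀ z, F.eval z = fib T g J x z := fun z => cmp_fib T g x J z
    have hFd : ‖(derivative F).eval p.2‖ = Q (x, p.2) := by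
      have h3 : HasDerivAt (fun z => F.eval z) ((derivative F).eval p.2) p.2 := F.hasDerivAt _
      have h4 : (fun z => F.eval z) = fib T g J x := by
        funext z
        exact hFe z
      rw [h4] at h3
      rw [h3.unique (fib_hasDeriv x p.2 J), norm_prod]
    obtain ⟨ζ, hζ, hζv⟩ := smale (F := F) (v₀ := p.2) (δ := r / 2) (R := BB d A + 3)
      (by linarith) (fun z hz => by
        rw [hFe, hFe, mem_ball_iff_norm] at hz
        by_contra hcon
        push Not at hcon
        have h3 := it_big hA (U := fun i => g (T^[i] x)) (fun i => hB _) (z := z) (k := 0)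
          (by show BB d A ≤ ‖z‖; linarith) J
        rw [← it_fib, ← it_fib, Nat.zero_add] at h3
        have h3' : 2 ^ J * ‖z‖ ≤ ‖fib T g J x z‖ := h3
        have h4 : (1 : ℝ) ≤ 2 ^ J := one_le_pow₀ (by norm_num)
        have h5 := h1' J le_rfl
        have h6 := norm_sub_norm_le (fib T g J x z) (fib T g J x p.2)
        nlinarith)
      (by
        rw [hFd]
        have h3 : 0 < 2 * (BB d A + 3) := by linarith
        calc Q (x, p.2) * (2 * (BB d A + 3)) ≤ 2 * (L * lam ^ J) * (2 * (BB d A + 3)) := by gcongr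
          _ < r / 2 := hJ)
    rw [hFe, hFe] at hζv
    obtain ⟨j, hj, hjc⟩ := cmp_crit hζ
    rw [cmp_fib] at hjc
    have hPC : (T^[J] x, fib T g J x ζ) ∈ PCp T g := by
      refine ⟨T^[j] x, fib T g j x ζ, J - j, by omega, hjc, ?_⟩
      have e1 : J = (J - j) + j := by omega
      have e2 : T^[J] x = T^[J - j] (T^[j] x) := by
        conv_lhs => rw [e1]
        rw [Function.iterate_add_apply]
      have e3 : fib T g J x ζ = fib T g (J - j) (T^[j] x) (fib T g j x ζ) := by
        conv_lhs => rw [e1]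
        rw [fib_add]
      rw [e2, e3]
    have hAD := had _ hPC
    simp only at hAD
    have hin : ∀ z, ‖z - p.2‖ < r' → ‖fib T g J x z - fib T g J x ζ‖ < r := by
      intro z hz
      have h3 := hrun J le_rfl z p.2 hz (by rw [sub_self, norm_zero]; exact hr'0)
      have h4 : M ^ J * ‖z - p.2‖ ≤ M ^ J * r' := by gcongr
      have h5 : fib T g J x z - fib T g J x ζ = (fib T g J x z - fib T g J x p.2) -
          (fib T g J x ζ - fib T g J x p.2) := by ring
      have h6 := norm_sub_le (fib T g J x z - fib T g J x p.2) (fib T g J x ζ - fib T g J x p.2)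
      rw [h5]
      linarith
    have hcon1 : ∀ k, (∀ m, k = J + m → Con T g r L lam (T^[J] x) (fib T g J x ζ) m) →
        Con T g r' K lam x p.2 k := by
      intro k hk z z' hz hz'
      rcases Nat.lt_or_ge k J with h | h
      · refine (hrun k (by omega) z z' hz hz').trans ?_
        exact mul_le_mul_of_nonneg_right (hKk k (by omega)) (norm_nonneg _)
      · obtain ⟨m, rfl⟩ : ∃ m, k = J + m := ⟨k - J, by omega⟩
        have h3 := hk m rfl _ _ (hin z hz) (hin z' hz')
        rw [← fib_add, ← fib_add, add_comm m J] at h3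
        have h4 := hrun J le_rfl z z' hz hz'
        have h5 : 0 ≤ L * lam ^ m := by positivity
        calc ‖fib T g (J + m) x z - fib T g (J + m) x z'‖
            ≤ L * lam ^ m * ‖fib T g J x z - fib T g J x z'‖ := h3
          _ ≤ L * lam ^ m * (M ^ J * ‖z - z'‖) := by gcongr
          _ = (K * lam ^ J) * lam ^ m * ‖z - z'‖ := by rw [hKJ]; ring
          _ = _ := by rw [pow_add]; ring
    rcases hAD with h3 | ⟨k₀, h3, h4⟩
    · left
      exact fun k => hcon1 k fun m _ => h3 m
    · right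
      refine ⟨J + k₀, fun k hk => hcon1 k fun m hm => h3 m (by omega), fun k z hz => ?_⟩
      have h5 := h4 k (fib T g J x z) (hin z hz)
      rw [← fib_add] at h5
      have e : J + k₀ + k = k₀ + k + J := by ring
      rw [e]
      exact h5

end Pool.Agent.Y334.ST
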