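import Mathlib
import Pool.Agent.Y334.ST.Disc

/-! Hyperbolic fibered polynomials are stable. -/

set_option autoImplicit false

open Filter Topology Metric Set Polynomial

namespace Pool.Agent.Y334.ST

open Pool.Agent.Y334.FP Pool.Agent.Y334.FN

theorem bd_mono {d : ℕ} {A : ℝ} (hA : 1 ≤ A) {P : ℂ[X]} (hP : Bd d A P) : Bd d (A + 1) P := by
  have h := bd_shift hA hP (t := 0) (by rw [norm_zero]; norm_num)
  rwa [C_0, add_zero] at h

section

variable {X : Type} {T : X → X} {g : X → ℂ[X]} {d : ℕ} {A : ℝ}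

/-- contraction as long as the centre is bounded -/
theorem ext_con (hA : 1 ≤ A) (hB : ∀ x, Bd d A (g x)) {M : ℝ} (hM : 1 ≤ M)
    (hlip : ∀ P : ℂ[X], Bd d A P → ∀ z w : ℂ, ‖z‖ ≤ BB d A + 3 → ‖w‖ ≤ BB d A + 3 →
      ‖P.eval z - P.eval w‖ ≤ M * ‖z - w‖)
    {r K lam : ℝ} (hr : 0 < r) (hK : 1 ≤ K) (hl0 : 0 < lam) (hl1 : lam < 1) {m₀ : ℕ}
    (hm₀ : BB d A + 2 < 2 ^ m₀) {r₁ : ℝ} (hr₁ : 0 < r₁) (hr₁r : r₁ ≤ r)
    (hr₁K : M ^ (m₀ + 1) * (K * r₁) ≤ 1 / 4) {x : X} {v : ℂ} (had : AD T g r K lam x v) {m : ℕ}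
    (hm : ∀ i < m, ‖fib T g i x v‖ ≤ BB d A + 2) {z z' : ℂ} (hz : ‖z - v‖ < r₁)
    (hz' : ‖z' - v‖ < r₁) :
    ‖fib T g m x z - fib T g m x z'‖ ≤ K * (M / lam) ^ (m₀ + 1) * lam ^ m * ‖z - z'‖ := by
  have hMl : 1 ≤ M / lam := by rw [le_div_iff₀ hl0]; linarith
  have hMl' : (1 : ℝ) ≤ (M / lam) ^ (m₀ + 1) := one_le_pow₀ hMl
  have hdir : Con T g r K lam x v m →
      ‖fib T g m x z - fib T g m x z'‖ ≤ K * (M / lam) ^ (m₀ + 1) * lam ^ m * ‖z - z'‖ := by
    intro h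
    refine (h z z' (hz.trans_le hr₁r) (hz'.trans_le hr₁r)).trans ?_
    have h1 : K ≤ K * (M / lam) ^ (m₀ + 1) := by nlinarith
    gcongr
  rcases had with h | ⟨k₀, h, hesc⟩
  · exact hdir (h m)
  rcases Nat.lt_or_ge m k₀ with hmk | hmk
  · exact hdir (h m hmk)
  have hmk' : m ≤ k₀ + m₀ := by
    by_contra hcon
    push Not at hcon
    have h1 := hesc m₀ v (by rw [sub_self, norm_zero]; exact hr)
    have h2 := hm (k₀ + m₀) hcon
    linarith
  obtain ⟨a, ham, ham', hca⟩ : ∃ a ≤ m, m ≤ a + (m₀ + 1) ∧ ∀ z z', ‖z - v‖ < r₁ → ‖z' - v‖ < r₁ →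
      ‖fib T g a x z - fib T g a x z'‖ ≤ K * lam ^ a * ‖z - z'‖ := by
    rcases Nat.eq_zero_or_pos k₀ with h0 | h0
    · refine ⟨0, Nat.zero_le _, by omega, fun z z' _ _ => ?_⟩
      show ‖z - z'‖ ≤ K * lam ^ 0 * ‖z - z'‖
      rw [pow_zero, mul_one]
      nlinarith [norm_nonneg (z - z')]
    · refine ⟨k₀ - 1, by omega, by omega, fun z z' hz hz' => ?_⟩
      exact h (k₀ - 1) (by omega) z z' (hz.trans_le hr₁r) (hz'.trans_le hr₁r)
  have hla : lam ^ a ≤ 1 := pow_le_one₀ hl0.le hl1.le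
  have hnear : ∀ z, ‖z - v‖ < r₁ → ‖fib T g a x z - fib T g a x v‖ < 2 * (K * r₁) := by
    intro z hz
    have h1 := hca z v hz (by rw [sub_self, norm_zero]; exact hr₁)
    have h2 : K * lam ^ a * ‖z - v‖ ≤ K * 1 * r₁ := by gcongr
    have h3 : 0 < K * r₁ := by positivity
    linarith
  have hMm : M ^ (m - a) ≤ M ^ (m₀ + 1) := pow_le_pow_right₀ hM (by omega)
  have hrun := lip_run hB hM hlip (r := 2 * (K * r₁)) (by positivity) (x := T^[a] x)
    (v := fib T g a x v) (m - a) (fun i hi => by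
      rw [← fib_add]
      exact hm (i + a) (by omega)) (by
      have h3 : 0 ≤ K * r₁ := by positivity
      calc M ^ (m - a) * (2 * (K * r₁)) ≤ M ^ (m₀ + 1) * (2 * (K * r₁)) := by gcongr
        _ ≤ 1 / 2 := by linarith) (m - a) le_rfl _ _ (hnear z hz) (hnear z' hz')
  rw [← fib_add, ← fib_add, Nat.sub_add_cancel ham] at hrun
  have hpow : lam ^ a * lam ^ (m₀ + 1) ≤ lam ^ m := by
    rw [← pow_add]
    exact pow_le_pow_of_le_one hl0.le hl1.le (by omega)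
  have hla' : lam ^ a ≤ lam ^ m / lam ^ (m₀ + 1) := by
    rw [le_div_iff₀ (by positivity)]
    exact hpow
  calc ‖fib T g m x z - fib T g m x z'‖
      ≤ M ^ (m - a) * ‖fib T g a x z - fib T g a x z'‖ := hrun
    _ ≤ M ^ (m₀ + 1) * (K * lam ^ a * ‖z - z'‖) := by
        gcongr
        exact hca z z' hz hz'
    _ ≤ M ^ (m₀ + 1) * (K * (lam ^ m / lam ^ (m₀ + 1)) * ‖z - z'‖) := by gcongr
    _ = _ := by
        rw [div_pow]
        field_simp

/-- shadowing -/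
theorem shadow (hA : 1 ≤ A) (hB : ∀ x, Bd d A (g x)) {r₁ K₁ lam : ℝ} (hK₁ : 1 ≤ K₁)
    (hl0 : 0 < lam) (hl1 : lam < 1) {x : X} {z₀ : ℂ}
    (hext : ∀ j ≥ 1, ∀ m, (∀ i < m, ‖fib T g (j + i) x z₀‖ ≤ BB d A + 2) → ∀ z z' : ℂ,
      ‖z - fib T g j x z₀‖ < r₁ → ‖z' - fib T g j x z₀‖ < r₁ →
      ‖fib T g m (T^[j] x) z - fib T g m (T^[j] x) z'‖ ≤ K₁ * lam ^ m * ‖z - z'‖)
    {s : X → ℂ} {ε : ℝ} (hs : ∀ x, ‖s x‖ < ε) (hε : K₁ * ε / (1 - lam) + ε < r₁) (k : ℕ)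
    (hk : ∀ i < k, ‖fib T g i x z₀‖ ≤ BB d A + 2) :
    ‖fib T (sh g s) k x z₀ - fib T g k x z₀‖ ≤ K₁ * ε / (1 - lam) := by
  have hε0 : 0 < ε := (norm_nonneg _).trans_lt (hs x)
  have h1l : 0 < 1 - lam := by linarith
  induction k using Nat.strong_induction_on with
  | _ k ih =>
    set w : ℕ → ℂ := fun j => fib T g (k - j) (T^[j] x) (fib T (sh g s) j x z₀) with hw
    have hw0 : w 0 = fib T g k x z₀ := rfl
    have hwk : w k = fib T (sh g s) k x z₀ := by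
      show fib T g (k - k) (T^[k] x) (fib T (sh g s) k x z₀) = _
      rw [Nat.sub_self]
      rfl
    have hterm : ∀ j ∈ Finset.range k, ‖w (j + 1) - w j‖ ≤ K₁ * ε * lam ^ (k - 1 - j) := by
      intro j hj
      have hj' := Finset.mem_range.1 hj
      have e1 : w j = fib T g (k - (j + 1)) (T^[j + 1] x)
          ((g (T^[j] x)).eval (fib T (sh g s) j x z₀)) := by
        show fib T g (k - j) (T^[j] x) (fib T (sh g s) j x z₀) = _
        have e2 : k - j = (k - (j + 1)) + 1 := by omega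
        rw [e2, fib_succ', Function.iterate_succ_apply']
      have e3 : fib T (sh g s) (j + 1) x z₀ - (g (T^[j] x)).eval (fib T (sh g s) j x z₀) =
          s (T^[j] x) := by
        rw [fib_succ]
        simp only [sh, eval_add, eval_C]
        ring
      have e4 : k - 1 - j = k - (j + 1) := by omega
      rw [e1, e4]
      show ‖fib T g (k - (j + 1)) (T^[j + 1] x) (fib T (sh g s) (j + 1) x z₀) - _‖ ≤ _
      rcases Nat.lt_or_ge (j + 1) k with h | h
      · have h1 := ih (j + 1) h fun i hi => hk i (by omega)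
        have h2 : ‖(g (T^[j] x)).eval (fib T (sh g s) j x z₀) - fib T g (j + 1) x z₀‖ < r₁ := by
          have e5 : (g (T^[j] x)).eval (fib T (sh g s) j x z₀) - fib T g (j + 1) x z₀ =
              (fib T (sh g s) (j + 1) x z₀ - fib T g (j + 1) x z₀) - s (T^[j] x) := by
            rw [← e3]; ring
          rw [e5]
          have h3 := norm_sub_le (fib T (sh g s) (j + 1) x z₀ - fib T g (j + 1) x z₀)
            (s (T^[j] x))
          have h4 := hs (T^[j] x)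
          linarith
        have h3 := hext (j + 1) (by omega) (k - (j + 1)) (fun i hi => hk _ (by omega))
          (fib T (sh g s) (j + 1) x z₀) ((g (T^[j] x)).eval (fib T (sh g s) j x z₀))
          (by linarith) h2
        rw [e3] at h3
        have h4 : 0 ≤ K₁ * lam ^ (k - (j + 1)) := by positivity
        calc _ ≤ K₁ * lam ^ (k - (j + 1)) * ‖s (T^[j] x)‖ := h3
          _ ≤ K₁ * lam ^ (k - (j + 1)) * ε := by gcongr; exact (hs _).le
          _ = _ := by ring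
      · have e5 : k - (j + 1) = 0 := by omega
        rw [e5, pow_zero, mul_one]
        show ‖fib T (sh g s) (j + 1) x z₀ - (g (T^[j] x)).eval (fib T (sh g s) j x z₀)‖ ≤ _
        rw [e3]
        have h4 := hs (T^[j] x)
        nlinarith
    have hsum : w k - w 0 = ∑ j ∈ Finset.range k, (w (j + 1) - w j) :=
      (Finset.sum_range_sub w k).symm
    rw [← hwk, ← hw0, hsum]
    refine (norm_sum_le _ _).trans ((Finset.sum_le_sum hterm).trans ?_)
    rw [Finset.sum_range_reflect (fun j => K₁ * ε * lam ^ j) k, ← Finset.mul_sum,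
      le_div_iff₀ h1l, mul_assoc]
    have h5 : (∑ i ∈ Finset.range k, lam ^ i) * (1 - lam) ≤ 1 := by
      rw [geom_sum_mul_neg]
      have : 0 ≤ lam ^ k := by positivity
      linarith
    have h6 : 0 ≤ K₁ * ε := by positivity
    calc K₁ * ε * ((∑ i ∈ Finset.range k, lam ^ i) * (1 - lam)) ≤ K₁ * ε * 1 := by gcongr
      _ = _ := by ring

end

/-- **Hyperbolic fibered polynomials are stable.** -/
theorem stb_of_hyp {X : Type} [TopologicalSpace X] {T : X → X} {g : X → ℂ[X]} {d : ℕ} {A : ℝ}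
    (hA : 1 ≤ A) (hB : ∀ x, Bd d A (g x)) {r K lam : ℝ} (hr : 0 < r) (hl0 : 0 < lam)
    (hl1 : lam < 1) (hyp : HypP T g r K lam) : ∃ ε : ℝ, 0 < ε ∧ Stb T g ε := by
  classical
  have hA1 : 1 ≤ A + 1 := by linarith
  have hB1 : ∀ x, Bd d (A + 1) (g x) := fun x => bd_mono hA (hB x)
  have hB4 := BB_ge d hA1
  obtain ⟨M, hM2, hlip'⟩ := lip_bounded d (by linarith : 0 ≤ A + 1) (BB d (A + 1) + 3)
  have hM : 1 ≤ M := by linarith
  have hlip : ∀ P : ℂ[X], Bd d (A + 1) P → ∀ z w : ℂ, ‖z‖ ≤ BB d (A + 1) + 3 →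
      ‖w‖ ≤ BB d (A + 1) + 3 → ‖P.eval z - P.eval w‖ ≤ M * ‖z - w‖ :=
    fun P hP => hlip' P hP.2.1 hP.2.2.1
  set K' : ℝ := max K 1 with hK'
  have hK'1 : 1 ≤ K' := le_max_right _ _
  have hcon : ∀ x v k, Con T g r K lam x v k → Con T g r K' lam x v k := by
    intro x v k h z z' hz hz'
    refine (h z z' hz hz').trans ?_
    have : K ≤ K' := le_max_left _ _
    gcongr
  have had : ∀ p ∈ PCp T g, AD T g r K' lam p.1 p.2 := by
    intro p hp
    obtain ⟨W, hW, h⟩ := hyp p (subset_closure hp)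
    rcases h p.1 (mem_of_mem_nhds hW) with h1 | ⟨k₀, h1, h2⟩
    · exact Or.inl fun k => hcon _ _ _ (h1 k)
    · exact Or.inr ⟨k₀, fun k hk => hcon _ _ _ (h1 k hk), h2⟩
  obtain ⟨m₀, hm₀⟩ := pow_unbounded_of_one_lt (BB d (A + 1) + 2) (one_lt_two : (1 : ℝ) < 2)
  have hMm0 : 0 < M ^ (m₀ + 1) := by positivity
  set r₁ : ℝ := min r (1 / (4 * M ^ (m₀ + 1) * K')) with hr₁
  have hr₁0 : 0 < r₁ := lt_min hr (by positivity)
  have hr₁K : M ^ (m₀ + 1) * (K' * r₁) ≤ 1 / 4 := by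
    have h1 : r₁ ≤ 1 / (4 * M ^ (m₀ + 1) * K') := min_le_right _ _
    calc M ^ (m₀ + 1) * (K' * r₁) ≤ M ^ (m₀ + 1) * (K' * (1 / (4 * M ^ (m₀ + 1) * K'))) := by
          gcongr
      _ = 1 / 4 := by field_simp
  set K₁ : ℝ := K' * (M / lam) ^ (m₀ + 1) with hK₁
  have hMl : 1 ≤ M / lam := by rw [le_div_iff₀ hl0]; linarith
  have hMl' : (1 : ℝ) ≤ (M / lam) ^ (m₀ + 1) := one_le_pow₀ hMl
  have hK₁1 : 1 ≤ K₁ := by rw [hK₁]; nlinarith
  have h1l : 0 < 1 - lam := by linarith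
  set q : ℝ := K₁ / (1 - lam) + 1 with hq
  have hq1 : 1 ≤ q := by
    have : 0 ≤ K₁ / (1 - lam) := by positivity
    linarith
  set ε : ℝ := min 1 r₁ / (4 * q) with hε
  have hm1 : 0 < min 1 r₁ := lt_min one_pos hr₁0
  have hε0 : 0 < ε := by rw [hε]; positivity
  have hεq : ε * q = min 1 r₁ / 4 := by
    rw [hε]
    field_simp
  have hεq' : K₁ * ε / (1 - lam) + ε = ε * q := by
    rw [hq]
    field_simp
  have hsm : K₁ * ε / (1 - lam) + ε < r₁ := by
    rw [hεq', hεq]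
    have : min 1 r₁ ≤ r₁ := min_le_right _ _
    linarith
  have hsm1 : K₁ * ε / (1 - lam) ≤ 1 / 4 := by
    have : min 1 r₁ ≤ 1 := min_le_left _ _
    linarith
  have hε1 : ε ≤ 1 := by
    have h1 : min 1 r₁ ≤ 1 := min_le_left _ _
    have h2 : 0 ≤ K₁ * ε / (1 - lam) := by positivity
    linarith
  refine ⟨ε, hε0, fun s hs hsε x z hz => ?_⟩
  have hPC : ∀ j ≥ 1, (T^[j] x, fib T g j x z) ∈ PCp T g := fun j hj => ⟨x, z, j, hj, hz, rfl⟩
  have hext : ∀ j ≥ 1, ∀ m, (∀ i < m, ‖fib T g (j + i) x z‖ ≤ BB d (A + 1) + 2) → ∀ w w' : ℂ,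
      ‖w - fib T g j x z‖ < r₁ → ‖w' - fib T g j x z‖ < r₁ →
      ‖fib T g m (T^[j] x) w - fib T g m (T^[j] x) w'‖ ≤ K₁ * lam ^ m * ‖w - w'‖ := by
    intro j hj m hm w w' hw hw'
    refine ext_con hA1 hB1 hM hlip hr hK'1 hl0 hl1 hm₀ hr₁0 (min_le_left _ _) hr₁K
      (had _ (hPC j hj)) (fun i hi => ?_) hw hw'
    show ‖fib T g i (T^[j] x) (fib T g j x z)‖ ≤ _
    rw [← fib_add, add_comm]
    exact hm i hi
  have hshadow := shadow hA1 hB1 hK₁1 hl0 hl1 hext hsε hsm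
  -- escape
  have hBs : ∀ y, Bd d (A + 1) (sh g s y) := fun y => bd_shift hA (hB y) ((hsε y).le.trans hε1)
  have hE1 : EscF T g x z ↔ ∃ k, BB d (A + 1) < ‖fib T g k x z‖ := by
    have h1 := esc_iff hA1 (U := fun i => g (T^[i] x)) (fun i => hB1 _) z
    unfold EscF
    simp only [it_fib]
    exact h1
  have hE2 : EscF T (sh g s) x z ↔ ∃ k, BB d (A + 1) < ‖fib T (sh g s) k x z‖ := by
    have h1 := esc_iff hA1 (U := fun i => sh g s (T^[i] x)) (fun i => hBs _) z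
    unfold EscF
    simp only [it_fib]
    exact h1
  have hgrow1 : ∀ k, BB d (A + 1) < ‖fib T g k x z‖ → 2 * ‖fib T g k x z‖ ≤
      ‖fib T g (k + 1) x z‖ := fun k hk => by
    rw [fib_succ]
    exact esc2 hA1 (hB1 _) hk.le
  have hgrow2 : ∀ k, BB d (A + 1) < ‖fib T (sh g s) k x z‖ → 2 * ‖fib T (sh g s) k x z‖ ≤
      ‖fib T (sh g s) (k + 1) x z‖ := fun k hk => by
    rw [fib_succ]
    exact esc2 hA1 (hBs _) hk.le
  constructor
  · intro h
    by_contra hcon'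
    rw [hE2] at h
    rw [hE1] at hcon'
    push Not at hcon'
    obtain ⟨k, hk⟩ := h
    have h1 := hgrow2 k hk
    have h2 := hshadow (k + 1) fun i _ => (hcon' i).trans (by linarith)
    have h3 := hcon' (k + 1)
    have h4 := norm_sub_norm_le (fib T (sh g s) (k + 1) x z) (fib T g (k + 1) x z)
    linarith
  · intro h
    rw [hE1] at h
    rw [hE2]
    obtain ⟨k, hk⟩ := h
    have hex : ∃ k, BB d (A + 1) + 2 < ‖fib T g k x z‖ := by
      refine ⟨k + 1, ?_⟩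
      have := hgrow1 k hk
      linarith
    have h1 := Nat.find_spec hex
    have h2 : ∀ i < Nat.find hex, ‖fib T g i x z‖ ≤ BB d (A + 1) + 2 :=
      fun i hi => not_lt.1 (Nat.find_min hex hi)
    refine ⟨Nat.find hex, ?_⟩
    have h3 := hshadow (Nat.find hex) h2
    have h4 := norm_sub_norm_le (fib T g (Nat.find hex) x z) (fib T (sh g s) (Nat.find hex) x z)
    rw [norm_sub_rev] at h4
    linarith

/-- **Stability is hyperbolicity** over systems without periodic points. -/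
theorem stb_iff {X : Type} [TopologicalSpace X] [NormalSpace X] [T1Space X] {T : X → X}
    (hTc : Continuous T) (hT : ∀ x : X, ∀ k : ℕ, 1 ≤ k → T^[k] x ≠ x) {g : X → ℂ[X]}
    (hg : ∀ k, Continuous fun x => (g x).coeff k) {d : ℕ} {A : ℝ} (hA : 1 ≤ A)
    (hB : ∀ x, Bd d A (g x)) :
    (∃ ε : ℝ, 0 < ε ∧ Stb T g ε) ↔
      ∃ r K lam : ℝ, 0 < r ∧ 0 < lam ∧ lam < 1 ∧ HypP T g r K lam := by
  constructor
  · rintro ⟨ε, hε, h⟩
    have h' : Stb T g (min ε 1) := fun s hs hsε => h s hs fun x => (hsε x).trans_le (min_le_left _ _)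
    have hε' : 0 < min ε 1 := lt_min hε one_pos
    have hε1 : min ε 1 ≤ 1 := min_le_right _ _
    have hB4 := BB_ge d hA
    have hρ : 1 ≤ BB d A + 3 := by linarith
    refine hyp_of_gd hTc hg hA hB (δ := min ε 1 / 4)
      (L := LL d (A + 1) (BB d A + 3) (min ε 1 / 2)) (by linarith)
      (LL_gt (by linarith) hρ (by linarith) (by linarith)) ?_
    rintro p ⟨y, c, k, hk, hc, rfl⟩
    exact gd_of_stb hT hA hB hε' hε1 h' hρ hc hk
  · rintro ⟨r, K, lam, hr, hl0, hl1, h⟩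
    exact stb_of_hyp hA hB hr hl0 hl1 h

end Pool.Agent.Y334.ST
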