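import Mathlib
import Pool.Agent.Y334.ST.Conv
import Pool.Agent.Y334.FN.Pt

/-! Stability and hyperbolicity of fibered polynomials: compact bases, minimal bases, one point. -/

set_option autoImplicit false

open Filter Topology Metric Set Polynomial

namespace Pool.Agent.Y334.ST

open Pool.Agent.Y334.FP Pool.Agent.Y334.FN

/-- stability for some size of the shifts -/
def StbE {X : Type} [TopologicalSpace X] (T : X → X) (g : X → ℂ[X]) : Prop :=
  ∃ ε : ℝ, 0 < ε ∧ Stb T g ε

/-- hyperbolicity with some constants -/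
def HypE {X : Type} [TopologicalSpace X] (T : X → X) (g : X → ℂ[X]) : Prop :=
  ∃ r K lam : ℝ, 0 < r ∧ 0 < lam ∧ lam < 1 ∧ HypP T g r K lam

theorem sh_sh {X : Type} (g : X → ℂ[X]) (s t : X → ℂ) : sh (sh g s) t = sh g fun x => s x + t x := by
  funext x
  simp only [sh, map_add, add_assoc]

/-- Over one point every polynomial is stable after an arbitrarily small shift. -/
theorem stable_dense_pt {P : ℂ[X]} (hP : 2 ≤ P.natDegree) {ε : ℝ} (hε : 0 < ε) :
    ∃ s : ℂ, ‖s‖ < ε ∧ StbE (id : Unit → Unit) (fun _ => P + C s) := by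
  classical
  -- the closed sets of the shifts with a bounded critical orbit
  obtain ⟨A, hA, hBd⟩ : ∃ A : ℝ, 1 ≤ A ∧ Bd P.natDegree A P := by
    obtain ⟨d, A, hA, h⟩ := exists_bd (X := Unit) (P := fun _ => P) (fun k => continuous_const)
      ((IsLocallyConstant.iff_eventually_eq _).2 fun x => Eventually.of_forall fun y => rfl)
      (fun _ => hP)
    exact ⟨A, hA, (h ()).1, le_rfl, (h ()).2.2.1, (h ()).2.2.2⟩
  set e : ℝ := min ε 1 with he
  have he0 : 0 < e := lt_min hε one_pos
  have he1 : e ≤ 1 := min_le_right _ _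
  have heε : e ≤ ε := min_le_left _ _
  set B : ℝ := BB P.natDegree (A + 1) with hB
  have hA1 : 1 ≤ A + 1 := by linarith
  have hB4 := BB_ge P.natDegree hA1
  set f : ℂ → ℂ → ℕ → ℂ := fun t c k => it (pt (fun _ => P) (fun _ => 1) t) k c with hf
  have hfc : ∀ c k, Continuous fun t => f t c k := fun c k => (pt_diff _ _ c k).continuous
  have hbd : ∀ t : ℂ, ‖t‖ ≤ 1 → ∀ i, Bd P.natDegree (A + 1) (pt (fun _ => P) (fun _ => 1) t i) := by
    intro t ht i
    show Bd P.natDegree (A + 1) (P + C (t * 1))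
    rw [mul_one]
    exact bd_shift hA hBd ht
  let M : ℂ → Set ℂ := fun c => {t : ℂ | ∀ k, ‖f t c k‖ ≤ B}
  have hMcl : ∀ c, IsClosed (M c) := by
    intro c
    have : M c = ⋂ k : ℕ, {t : ℂ | ‖f t c k‖ ≤ B} := by
      ext t; simp [M]
    rw [this]
    exact isClosed_iInter fun k => isClosed_le (hfc c k).norm continuous_const
  -- the critical points
  set S : Finset ℂ := (derivative P).roots.toFinset with hS
  have hD0 : derivative P ≠ 0 := by
    intro h
    have := derivative_eq_zero.1 h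
    omega
  have hmem : ∀ c, (derivative P).eval c = 0 → c ∈ S := by
    intro c hc
    rw [hS, Multiset.mem_toFinset, mem_roots hD0]
    exact hc
  have hdense : Dense (⋂ c ∈ S, (frontier (M c))ᶜ) := by
    apply dense_biInter_of_isOpen (S := (S : Set ℂ))
    · intro c _
      exact isClosed_frontier.isOpen_compl
    · exact S.countable_toSet
    · intro c _
      rw [← interior_eq_empty_iff_dense_compl]
      exact interior_frontier (hMcl c)
  have hopen : IsOpen (⋂ c ∈ S, (frontier (M c))ᶜ) := by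
    apply isOpen_biInter_finset
    intro c _
    exact isClosed_frontier.isOpen_compl
  obtain ⟨s, hs1, hs2⟩ := hdense.inter_open_nonempty (ball 0 e) isOpen_ball
    ⟨0, mem_ball_self he0⟩
  rw [mem_ball_zero_iff] at hs1
  refine ⟨s, hs1.trans_le heε, ?_⟩
  -- locally constant pattern
  have hloc : ∀ c ∈ S, ∃ δ > 0, ∀ t, ‖t - s‖ < δ → (t ∈ M c ↔ s ∈ M c) := by
    intro c hc
    have h1 : s ∉ frontier (M c) := mem_iInter₂.1 hs2 c hc
    by_cases h2 : s ∈ M c
    · have h3 : s ∈ interior (M c) := by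
        by_contra hcon
        exact h1 ⟨subset_closure h2, hcon⟩
      obtain ⟨δ, hδ, h4⟩ := Metric.isOpen_iff.1 isOpen_interior s h3
      exact ⟨δ, hδ, fun t ht => ⟨fun _ => h2, fun _ => interior_subset
        (h4 (mem_ball_iff_norm.2 ht))⟩⟩
    · obtain ⟨δ, hδ, h4⟩ := Metric.isOpen_iff.1 (hMcl c).isOpen_compl s h2
      exact ⟨δ, hδ, fun t ht => ⟨fun h5 => absurd h5 (h4 (mem_ball_iff_norm.2 ht)),
        fun h5 => absurd h5 h2⟩⟩
  choose! δ hδ0 hδ using hloc
  obtain ⟨η, hη0, hη⟩ : ∃ η > 0, ∀ c ∈ S, η ≤ δ c := by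
    rcases S.eq_empty_or_nonempty with h | h
    · exact ⟨1, one_pos, fun c hc => by rw [h] at hc; simp at hc⟩
    · exact ⟨S.inf' h δ, (Finset.lt_inf'_iff h).2 hδ0, fun c hc => Finset.inf'_le _ hc⟩
  have hesc : ∀ t : ℂ, ‖t‖ ≤ 1 → ∀ c, EscF (id : Unit → Unit) (fun _ => P + C t) () c ↔ t ∉ M c := by
    intro t ht c
    have h1 := esc_iff hA1 (hbd t ht) c
    have h2 : ∀ k, fib (id : Unit → Unit) (fun _ => P + C t) k () c =
        it (pt (fun _ => P) (fun _ => 1) t) k c := by
      intro k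
      rw [it_fib]
      congr 1
      funext i
      simp [pt]
    unfold EscF
    simp only [h2]
    rw [h1]
    simp only [M, hf, mem_setOf_eq, not_forall, not_le]
    rfl
  refine ⟨min η (1 - ‖s‖), lt_min hη0 (by linarith), fun σ _ hσ x z hz => ?_⟩
  have hz' : (derivative P).eval z = 0 := by simpa using hz
  have e1 : sh (fun _ : Unit => P + C s) σ = fun _ => P + C (s + σ ()) := by
    funext x
    simp only [sh, map_add, add_assoc]
  have h1 := hσ ()
  have h2 : ‖s + σ ()‖ ≤ 1 := by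
    have := norm_add_le s (σ ())
    have := h1.trans_le (min_le_right _ _)
    linarith
  rw [e1, hesc _ h2, hesc _ (by linarith)]
  have h3 := hδ z (hmem z hz') (s + σ ()) (by
    rw [add_sub_cancel_left]
    exact (h1.trans_le (min_le_left _ _)).trans_le (hη z (hmem z hz')))
  rw [h3]

/-- minimal bases -/
theorem minimal_stable {X : Type} [TopologicalSpace X] [CompactSpace X] [T2Space X] [Infinite X]
    (T : X ≃ₜ X) (hmin : ∀ x : X, Dense (range fun k : ℕ => (⇑T)^[k] x)) {d : ℕ} (hd : 2 ≤ d) :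
    (∀ g : X → ℂ[X], (∀ k, Continuous fun x => (g x).coeff k) → (∀ x, (g x).natDegree = d) →
      ∀ ε : ℝ, 0 < ε → ∃ g' : X → ℂ[X], (∀ k, Continuous fun x => (g' x).coeff k) ∧
        (∀ x, (g' x).natDegree = d) ∧ (∀ x j, ‖(g' x).coeff j - (g x).coeff j‖ < ε) ∧
        StbE (⇑T) g') ↔ TotallyDisconnectedSpace X := by
  rw [← minimal_iff T hmin hd]
  have hap := fun x k hk => aper_of_minimal hmin x k hk
  have key : ∀ g' : X → ℂ[X], (∀ k, Continuous fun x => (g' x).coeff k) →
      (∀ x, (g' x).natDegree = d) → (StbE (⇑T) g' ↔ ∃ r C lam : ℝ, 0 < r ∧ 0 < lam ∧ lam < 1 ∧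
        HypP (⇑T) g' r C lam) := by
    intro g' h1 h2
    obtain ⟨D, A, hA, h3⟩ := exists_bd h1 ((IsLocallyConstant.iff_eventually_eq _).2 fun x =>
      Eventually.of_forall fun y => by rw [h2, h2]) (fun x => by rw [h2]; exact hd)
    exact stb_iff T.continuous hap h1 hA h3
  constructor
  · intro h g h1 h2 ε hε
    obtain ⟨g', h3, h4, h5, h6⟩ := h g h1 h2 ε hε
    exact ⟨g', h3, h4, h5, (key g' h3 h4).1 h6⟩
  · intro h g h1 h2 ε hε
    obtain ⟨g', h3, h4, h5, h6⟩ := h g h1 h2 ε hε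
    exact ⟨g', h3, h4, h5, (key g' h3 h4).2 h6⟩

end Pool.Agent.Y334.ST
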