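import Mathlib
import Pool.Agent.Y334.ST.Conv

/-! The quantitative version: systems without short periods. -/

set_option autoImplicit false

open Filter Topology Metric Set Polynomial

namespace Pool.Agent.Y334.ST

open Pool.Agent.Y334.FP Pool.Agent.Y334.FN

theorem exists_pertN {X : Type} [TopologicalSpace X] [NormalSpace X] [T1Space X] {T : X → X} {N : ℕ}
    (hT : ∀ x : X, ∀ k : ℕ, 1 ≤ k → k < N → T^[k] x ≠ x) (x : X) (n : ℕ) (hn : n ≤ N) (a : ℕ → ℂ)
    {ρ : ℝ} (hρ : 0 < ρ) (ha : ∀ j < n, ‖a j‖ ≤ ρ) :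
    ∃ s : X → ℂ, Continuous s ∧ (∀ y, ‖s y‖ ≤ ρ) ∧ ∀ j < n, s (T^[j] x) = a j := by
  classical
  have hinj : ∀ i j : ℕ, i < n → j < n → T^[i] x = T^[j] x → i = j := by
    have key : ∀ i j : ℕ, i < j → j < n → T^[i] x ≠ T^[j] x := by
      intro i j hij hj h
      obtain ⟨k, rfl⟩ : ∃ k, j = k + i := ⟨j - i, by omega⟩
      rw [Function.iterate_add_apply] at h
      exact hT _ k (by omega) (by omega) h.symm
    intro i j hi hj h
    rcases lt_trichotomy i j with h1 | h1 | h1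
    · exact absurd h (key i j h1 hj)
    · exact h1
    · exact absurd h.symm (key j i h1 hi)
  set S : Set X := (fun j : ℕ => T^[j] x) '' (Set.Iio n) with hS
  have hfin : S.Finite := (Set.finite_Iio n).image _
  have hcl : IsClosed S := hfin.isClosed
  have : Finite S := hfin
  have hdisc : DiscreteTopology S := Finite.instDiscreteTopology
  set f₀ : X → ℂ := fun y => if h : ∃ j < n, T^[j] x = y then a h.choose else 0 with hf₀
  have hval : ∀ j < n, f₀ (T^[j] x) = a j := by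
    intro j hj
    have h : ∃ i < n, T^[i] x = T^[j] x := ⟨j, hj, rfl⟩
    rw [hf₀]
    simp only
    rw [dif_pos h]
    congr 1
    exact hinj _ _ h.choose_spec.1 hj h.choose_spec.2
  obtain ⟨g, hg⟩ := ContinuousMap.exists_restrict_eq hcl
    (⟨fun y : S => f₀ y, continuous_of_discreteTopology⟩ : C(S, ℂ))
  refine ⟨fun y => trunc ρ (g y), (trunc_cont hρ).comp g.continuous, fun y => trunc_le hρ _,
    fun j hj => ?_⟩
  have h1 : g (T^[j] x) = a j := by
    have hm : T^[j] x ∈ S := ⟨j, hj, rfl⟩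
    have h2 := DFunLike.congr_fun hg ⟨T^[j] x, hm⟩
    have h3 : g (T^[j] x) = f₀ (T^[j] x) := h2
    rw [h3, hval j hj]
  show trunc ρ (g (T^[j] x)) = a j
  rw [h1, trunc_eq hρ (ha j hj)]

/-- all perturbations of the first `N` steps of the orbit are of one kind -/
def KindN (N d : ℕ) (A : ℝ) (U : ℕ → ℂ[X]) (z : ℂ) (η : ℝ) : Prop :=
  ∀ K : ℕ, K ≤ N → ∀ θ : ℕ → ℂ, (∀ i < K, ‖θ i‖ ≤ 1) → ∃ θ' : ℕ → ℂ, (∀ i < K, θ' i = θ i) ∧
    (∀ t ∈ closedBall (0 : ℂ) η, ∀ i, Bd d A (pt U θ' t i)) ∧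
    ((∀ t ∈ closedBall (0 : ℂ) η, ∃ k, BB d A < ‖it (pt U θ' t) k z‖) ∨
      ∀ t ∈ closedBall (0 : ℂ) η, ∀ k, ‖it (pt U θ' t) k z‖ ≤ BB d A)

theorem uu_leN {N d : ℕ} {A : ℝ} (hA : 1 ≤ A) {U : ℕ → ℂ[X]} {z : ℂ} {η : ℝ} (hη : 0 < η)
    (hK : KindN N d A U z η) {ρ : ℝ} (hρ : 1 ≤ ρ) {k : ℕ} (hkN : k ≤ N) (hk : ‖it U k z‖ ≤ ρ) :
    ‖uu U z k‖ ≤ LL d A ρ η := by
  obtain ⟨θ, h1, h2, h3⟩ := hK k hkN (fun i => ph (mm U z i * uu U z i)) fun i _ => (norm_ph _).le
  have h4 := hasDeriv_uu U z k h1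
  rw [← h4.deriv]
  apply Complex.norm_deriv_le_of_forall_mem_sphere_norm_le (half_pos hη)
    (pt_diff U θ z k).diffContOnCl
  intro t ht
  rw [mem_sphere_zero_iff_norm] at ht
  exact fam_bound hA hη h2 h3 hρ hk ht.le

/-- contraction in a window along all orbits close to a post-critical point -/
def GDW {X : Type} (T : X → X) (g : X → ℂ[X]) (ρ δ L : ℝ) (W : ℕ) (x : X) (v : ℂ) : Prop :=
  ∀ w, ‖w - v‖ ≤ δ → ∀ m ≤ W, (∀ i ≤ m, ‖fib T g i x w‖ ≤ ρ) →
    ∏ i ∈ Finset.range m, ‖(derivative (g (T^[i] x))).eval (fib T g i x w)‖ ≤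
      L * (1 - 1 / L) ^ m

section

variable {X : Type} [TopologicalSpace X] [NormalSpace X] [T1Space X] {T : X → X} {g : X → ℂ[X]}

theorem kind_of_stbN {N : ℕ} (hT : ∀ x : X, ∀ k : ℕ, 1 ≤ k → k < N → T^[k] x ≠ x) {d : ℕ} {A : ℝ}
    (hA : 1 ≤ A) (hB : ∀ x, Bd d A (g x)) {ε : ℝ} (hε : 0 < ε) (hε1 : ε ≤ 1) (hst : Stb T g ε)
    {s : X → ℂ} (hs : Continuous s) (hsε : ∀ y, ‖s y‖ ≤ ε / 4) {x : X} {z : ℂ}
    (hz : (derivative (g x)).eval z = 0) :
    KindN N d (A + 1) (fun i => sh g s (T^[i] x)) z (ε / 2) := by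
  intro K hKN θ hθ
  obtain ⟨θX, h1, h2, h3⟩ := exists_pertN hT x K hKN θ one_pos hθ
  have hsh : ∀ t : ℂ, pt (fun i => sh g s (T^[i] x)) (fun i => θX (T^[i] x)) t =
      fun i => sh g (fun y => s y + t * θX y) (T^[i] x) := by
    intro t
    funext i
    simp only [pt, sh, map_add, add_assoc]
  have hn : ∀ t ∈ closedBall (0 : ℂ) (ε / 2), ∀ y, ‖s y + t * θX y‖ ≤ 3 * ε / 4 := by
    intro t ht y
    rw [mem_closedBall_zero_iff] at ht
    refine (norm_add_le _ _).trans ?_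
    rw [norm_mul]
    have h4 : ‖t‖ * ‖θX y‖ ≤ ε / 2 * 1 := mul_le_mul ht (h2 y) (norm_nonneg _) (by linarith)
    have := hsε y
    linarith
  have hBd : ∀ t ∈ closedBall (0 : ℂ) (ε / 2), ∀ i,
      Bd d (A + 1) (pt (fun i => sh g s (T^[i] x)) (fun i => θX (T^[i] x)) t i) := by
    intro t ht i
    rw [hsh]
    exact bd_shift hA (hB _) ((hn t ht _).trans (by linarith))
  have hA1 : 1 ≤ A + 1 := by linarith
  have hesc : ∀ t ∈ closedBall (0 : ℂ) (ε / 2),
      ((∃ k, BB d (A + 1) < ‖it (pt (fun i => sh g s (T^[i] x)) (fun i => θX (T^[i] x)) t) k z‖) ↔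
        EscF T g x z) := by
    intro t ht
    rw [← esc_iff hA1 (hBd t ht), hsh]
    have h4 := hst (fun y => s y + t * θX y) (hs.add (continuous_const.mul h1))
      (fun y => lt_of_le_of_lt (hn t ht y) (by linarith)) x z hz
    rw [← h4]
    unfold EscF
    simp only [it_fib]
  refine ⟨fun i => θX (T^[i] x), h3, hBd, ?_⟩
  by_cases hE : EscF T g x z
  · exact Or.inl fun t ht => (hesc t ht).2 hE
  · refine Or.inr fun t ht k => ?_
    by_contra hcon
    push Not at hcon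
    exact hE ((hesc t ht).1 ⟨k, hcon⟩)

/-- young post-critical points -/
theorem gdw_young {N : ℕ} (hT : ∀ x : X, ∀ k : ℕ, 1 ≤ k → k < N → T^[k] x ≠ x) {d : ℕ} {A : ℝ}
    (hA : 1 ≤ A) (hB : ∀ x, Bd d A (g x)) {ε : ℝ} (hε : 0 < ε) (hε1 : ε ≤ 1) (hst : Stb T g ε)
    {ρ : ℝ} (hρ : 1 ≤ ρ) {x : X} {z : ℂ} (hz : (derivative (g x)).eval z = 0) {j W : ℕ} (hj : 1 ≤ j)
    (hjW : j + W ≤ N) :
    GDW T g ρ (ε / 4) (LL d (A + 1) ρ (ε / 2)) W (T^[j] x) (fib T g j x z) := by
  classical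
  intro w hw m hmW hm
  obtain ⟨n, rfl⟩ : ∃ n, j = n + 1 := ⟨j - 1, by omega⟩
  have hA1 : 1 ≤ A + 1 := by linarith
  obtain ⟨s, h1, h2, h3⟩ := exists_pertN hT x (n + 1 + m) (by omega)
    (fun i => if i = n then w - fib T g (n + 1) x z else 0) (show 0 < ε / 4 by linarith)
    (fun i _ => by
      show ‖if i = n then w - fib T g (n + 1) x z else 0‖ ≤ ε / 4
      split_ifs
      · exact hw
      · rw [norm_zero]; linarith)
  have hKind := kind_of_stbN hT hA hB hε hε1 hst h1 h2 hz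
  set U : ℕ → ℂ[X] := fun i => sh g s (T^[i] x) with hU
  have hUi : ∀ i < n + 1 + m, i ≠ n → U i = g (T^[i] x) := by
    intro i hi hin
    show g (T^[i] x) + C (s (T^[i] x)) = g (T^[i] x)
    rw [h3 i hi, if_neg hin, C_0, add_zero]
  have hUn : U n = g (T^[n] x) + C (w - fib T g (n + 1) x z) := by
    show g (T^[n] x) + C (s (T^[n] x)) = _
    rw [h3 n (by omega), if_pos rfl]
  have e1 : it U n z = fib T g n x z := by
    rw [it_fib]
    exact it_congr (fun i hi => hUi i (by omega) (by omega)) z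
  have e2 : it U (n + 1) z = w := by
    rw [it_succ, hUn, eval_add, eval_C, e1, ← fib_succ]
    ring
  have e3 : ∀ i ≤ m, it U (n + 1 + i) z = fib T g i (T^[n + 1] x) w := by
    intro i hi
    rw [add_comm (n + 1) i, it_add, e2, it_fib]
    apply it_congr
    intro a ha
    show U (a + (n + 1)) = g (T^[a] (T^[n + 1] x))
    rw [hUi _ (by omega) (by omega), Function.iterate_add_apply]
  have hu : ∀ i ≤ m, ‖uu U z (n + 1 + i)‖ ≤ LL d (A + 1) ρ (ε / 2) := by
    intro i hi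
    apply uu_leN hA1 (half_pos hε) hKind hρ (by omega)
    rw [e3 i hi]
    exact hm i hi
  have hL : 1 < LL d (A + 1) ρ (ε / 2) := by
    have := LL_gt (d := d) hA1 hρ (half_pos hε) (by linarith)
    linarith
  have h4 := prod_le hL (by omega : 1 ≤ n + 1) m hu
  refine le_trans (le_of_eq ?_) h4
  apply Finset.prod_congr rfl
  intro i hi
  have hi' := Finset.mem_range.1 hi
  show _ = ‖(derivative (U (n + 1 + i))).eval (it U (n + 1 + i) z)‖
  have e4 : T^[i + (n + 1)] x = T^[i] (T^[n + 1] x) := Function.iterate_add_apply _ _ _ _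
  rw [e3 i (by omega), hUi _ (by omega) (by omega), add_comm (n + 1) i, e4]

end

section

variable {X : Type} {T : X → X} {g : X → ℂ[X]} {d : ℕ} {A : ℝ}

theorem fib_back (hA : 1 ≤ A) (hB : ∀ x, Bd d A (g x)) {R : ℝ} (hR : BB d A ≤ R) {x : X} {z : ℂ}
    {k m : ℕ} (h : ‖fib T g (k + m) x z‖ ≤ R) : ‖fib T g k x z‖ ≤ R := by
  have hB4 := BB_ge d hA
  by_contra hcon
  push Not at hcon
  have h1 := it_big hA (U := fun i => g (T^[i] x)) (fun i => hB _) (z := z) (k := k)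
    (by rw [← it_fib]; linarith) m
  rw [← it_fib, ← it_fib] at h1
  have h2 : (1 : ℝ) ≤ 2 ^ m := one_le_pow₀ (by norm_num)
  nlinarith

/-- a small derivative forces a post-critical point of age at most `W` nearby -/
theorem young_near (hA : 1 ≤ A) (hB : ∀ x, Bd d A (g x)) {x : X} {v : ℂ} {W : ℕ} {δ κ : ℝ}
    (hδ : 0 < δ) (hδ1 : δ ≤ 1) (hv : ‖fib T g W x v‖ ≤ BB d A + 2)
    (hκ : ∏ i ∈ Finset.range W, ‖(derivative (g (T^[i] x))).eval (fib T g i x v)‖ ≤ κ)
    (hκδ : κ * (2 * (BB d A + 3)) < δ) :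
    ∃ y c a, 1 ≤ a ∧ a ≤ W ∧ (derivative (g y)).eval c = 0 ∧ T^[a] y = T^[W] x ∧
      ‖fib T g a y c - fib T g W x v‖ < δ := by
  have hB4 := BB_ge d hA
  set F : ℂ[X] := cmp (fun i => g (T^[i] x)) W with hF
  have hFe : ∀ z, F.eval z = fib T g W x z := fun z => cmp_fib T g x W z
  have hFd : ‖(derivative F).eval v‖ =
      ∏ i ∈ Finset.range W, ‖(derivative (g (T^[i] x))).eval (fib T g i x v)‖ := by
    have h3 : HasDerivAt (fun z => F.eval z) ((derivative F).eval v) v := F.hasDerivAt _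
    have h4 : (fun z => F.eval z) = fib T g W x := by
      funext z
      exact hFe z
    rw [h4] at h3
    rw [h3.unique (fib_hasDeriv x v W), norm_prod]
  obtain ⟨ζ, hζ, hζv⟩ := smale (F := F) (v₀ := v) (δ := δ) (R := BB d A + 3) hδ
    (fun z hz => by
      rw [hFe, hFe, mem_ball_iff_norm] at hz
      have h6 := norm_sub_norm_le (fib T g W x z) (fib T g W x v)
      have h7 : ‖fib T g (0 + W) x z‖ ≤ BB d A + 3 := by
        rw [Nat.zero_add]
        linarith
      exact fib_back hA hB (by linarith) h7)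
    (by
      rw [hFd]
      refine lt_of_le_of_lt ?_ hκδ
      gcongr)
  rw [hFe, hFe] at hζv
  obtain ⟨j, hj, hjc⟩ := cmp_crit hζ
  rw [cmp_fib] at hjc
  have e1 : W = (W - j) + j := by omega
  refine ⟨T^[j] x, fib T g j x ζ, W - j, by omega, by omega, hjc, ?_, ?_⟩
  · rw [← Function.iterate_add_apply, ← e1]
  · rw [← fib_add, ← e1]
    exact hζv

end

/-- all post-critical points -/
theorem gdw_all {X : Type} [TopologicalSpace X] [NormalSpace X] [T1Space X] {T : X → X}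
    {g : X → ℂ[X]} {W : ℕ} (hW : 1 ≤ W) (hT : ∀ x : X, ∀ k : ℕ, 1 ≤ k → k < 2 * W → T^[k] x ≠ x)
    {d : ℕ} {A : ℝ} (hA : 1 ≤ A) (hB : ∀ x, Bd d A (g x)) {ε : ℝ} (hε : 0 < ε) (hε1 : ε ≤ 1)
    (hst : Stb T g ε) {L : ℝ} (hL : L = LL d (A + 1) (BB d A + 3) (ε / 2))
    (hWL : L * (1 - 1 / L) ^ W * (2 * (BB d A + 3)) < ε / 8) {x : X} {z : ℂ}
    (hz : (derivative (g x)).eval z = 0) (j : ℕ) (hj : 1 ≤ j)
    (hv : ‖fib T g j x z‖ ≤ BB d A + 2) :
    GDW T g (BB d A + 3) (ε / 8) L W (T^[j] x) (fib T g j x z) := by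
  have hB4 := BB_ge d hA
  have hρ : 1 ≤ BB d A + 3 := by linarith
  induction j using Nat.strong_induction_on with
  | _ j ih =>
    rcases Nat.lt_or_ge W j with hjW | hjW
    · obtain ⟨n, rfl⟩ : ∃ n, j = n + W := ⟨j - W, by omega⟩
      have hvn : ‖fib T g n x z‖ ≤ BB d A + 2 := fib_back hA hB (by linarith) hv
      have h1 := ih n (by omega) (by omega) hvn
      have h2 := h1 (fib T g n x z) (by rw [sub_self, norm_zero]; linarith) W le_rfl
        (fun i hi => by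
          rw [← fib_add]
          have e : n + W = (i + n) + (W - i) := by omega
          rw [e] at hv
          exact (fib_back hA hB (by linarith) hv).trans (by linarith))
      obtain ⟨y, c, a, ha1, haW, hc, hy, hyv⟩ := young_near hA hB (x := T^[n] x)
        (v := fib T g n x z) (W := W) (δ := ε / 8) (κ := L * (1 - 1 / L) ^ W) (by linarith)
        (by linarith) (by
          rw [← fib_add, add_comm W n]
          exact hv) h2 hWL
      have h3 := gdw_young hT hA hB hε hε1 hst hρ hc ha1 (by omega : a + W ≤ 2 * W)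
      rw [hy, ← hL] at h3
      rw [← fib_add] at hyv
      rw [← Function.iterate_add_apply, add_comm W n] at h3
      rw [add_comm W n] at hyv
      intro w hw m hm hmb
      refine h3 w ?_ m hm hmb
      have h4 : w - fib T g a y c = (w - fib T g (n + W) x z) -
          (fib T g a y c - fib T g (n + W) x z) := by ring
      rw [h4]
      have h5 := norm_sub_le (w - fib T g (n + W) x z) (fib T g a y c - fib T g (n + W) x z)
      linarith
    · have h3 := gdw_young hT hA hB hε hε1 hst hρ hz hj (by omega : j + W ≤ 2 * W)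
      rw [← hL] at h3
      intro w hw m hm hmb
      exact h3 w (hw.trans (by linarith)) m hm hmb

section

variable {X : Type} {T : X → X} {g : X → ℂ[X]} {d : ℕ} {A : ℝ}

/-- the disc is contracted in a window as long as the centre is bounded -/
theorem disc_stepW (hB : ∀ x, Bd d A (g x)) {M : ℝ} (hM : 1 ≤ M)
    (hlip : ∀ P : ℂ[X], Bd d A P → ∀ z w : ℂ, ‖z‖ ≤ BB d A + 3 → ‖w‖ ≤ BB d A + 3 →
      ‖P.eval z - P.eval w‖ ≤ M * ‖z - w‖)
    {δ L r : ℝ} (hL : 1 < L) (hr : 0 < r) (hrδ : r ≤ δ) (hr1 : M * L * r ≤ 1 / 2) {W : ℕ} {x : X}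
    {v : ℂ} (hgd : GDW T g (BB d A + 3) δ L W x v) (m : ℕ) (hmW : m ≤ W)
    (hm : ∀ i ≤ m, ‖fib T g i x v‖ ≤ BB d A + 2) :
    ∀ i ≤ m, Con T g r L (1 - 1 / L) x v i ∧
      ∀ w, ‖w - v‖ < r → ‖fib T g i x w - fib T g i x v‖ ≤ 1 / 2 := by
  have hq0 : 0 ≤ 1 - 1 / L := by
    rw [sub_nonneg, div_le_one (by linarith)]
    exact hL.le
  have hq1 : 1 - 1 / L ≤ 1 := by
    have : 0 ≤ 1 / L := by positivity
    linarith
  have hLr : L * r ≤ 1 / 2 := by
    have : 0 ≤ L * r := by positivity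
    nlinarith
  have key : ∀ n ≤ m, ∀ i ≤ n, Con T g r L (1 - 1 / L) x v i ∧
      ∀ w, ‖w - v‖ < r → ‖fib T g i x w - fib T g i x v‖ ≤ 1 / 2 := by
    intro n
    induction n with
    | zero =>
      intro _ i hi
      obtain rfl : i = 0 := by omega
      constructor
      · intro z z' _ _
        show ‖z - z'‖ ≤ L * (1 - 1 / L) ^ 0 * ‖z - z'‖
        rw [pow_zero, mul_one]
        nlinarith [norm_nonneg (z - z')]
      · intro w hw
        show ‖w - v‖ ≤ 1 / 2
        nlinarith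
    | succ n ih =>
      intro hn i hi
      have ih' := ih (by omega)
      rcases Nat.lt_or_ge i (n + 1) with h | h
      · exact ih' i (by omega)
      obtain rfl : i = n + 1 := by omega
      have hb : ∀ i ≤ n, ∀ w, ‖w - v‖ < r → ‖fib T g i x w‖ ≤ BB d A + 3 := by
        intro i hi w hw
        have h1 := (ih' i hi).2 w hw
        have h2 := hm i (by omega)
        have h3 := norm_add_le (fib T g i x w - fib T g i x v) (fib T g i x v)
        rw [sub_add_cancel] at h3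
        linarith
      have hclose : ∀ w, ‖w - v‖ < r → ‖fib T g (n + 1) x w - fib T g (n + 1) x v‖ ≤ 1 / 2 := by
        intro w hw
        rw [fib_succ, fib_succ]
        have h1 := hlip _ (hB (T^[n] x)) _ _ (hb n le_rfl w hw)
          (hb n le_rfl v (by rw [sub_self, norm_zero]; exact hr))
        have h2 := (ih' n le_rfl).1 w v hw (by rw [sub_self, norm_zero]; exact hr)
        have h3 : (1 - 1 / L) ^ n ≤ 1 := pow_le_one₀ hq0 hq1
        have h4 : L * (1 - 1 / L) ^ n * ‖w - v‖ ≤ L * r := by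
          calc L * (1 - 1 / L) ^ n * ‖w - v‖ ≤ L * 1 * r := by gcongr
            _ = L * r := by ring
        calc ‖(g (T^[n] x)).eval (fib T g n x w) - (g (T^[n] x)).eval (fib T g n x v)‖
            ≤ M * ‖fib T g n x w - fib T g n x v‖ := h1
          _ ≤ M * (L * r) := by gcongr; exact h2.trans h4
          _ ≤ 1 / 2 := by linarith
      refine ⟨?_, hclose⟩
      have hb' : ∀ w, ‖w - v‖ < r → ∀ i ≤ n + 1, ‖fib T g i x w‖ ≤ BB d A + 3 := by
        intro w hw i hi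
        rcases Nat.lt_or_ge i (n + 1) with h | h
        · exact hb i (by omega) w hw
        · obtain rfl : i = n + 1 := by omega
          have h2 := hm (n + 1) hn
          have h3 := norm_add_le (fib T g (n + 1) x w - fib T g (n + 1) x v) (fib T g (n + 1) x v)
          rw [sub_add_cancel] at h3
          have h4 := hclose w hw
          linarith
      intro z z' hz hz'
      have h1 := Convex.norm_image_sub_le_of_norm_hasDerivWithin_le (f := fib T g (n + 1) x)
        (f' := fun w => ∏ i ∈ Finset.range (n + 1),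
          (derivative (g (T^[i] x))).eval (fib T g i x w)) (s := ball v r)
        (C := L * (1 - 1 / L) ^ (n + 1))
        (fun w _ => (fib_hasDeriv x w (n + 1)).hasDerivWithinAt)
        (fun w hw => by
          rw [mem_ball_iff_norm] at hw
          rw [norm_prod]
          exact hgd w (hw.le.trans hrδ) (n + 1) (by omega) (hb' w hw))
        (convex_ball v r) (mem_ball_iff_norm.2 hz') (mem_ball_iff_norm.2 hz)
      exact h1
  exact fun i hi => key m le_rfl i hi

theorem pc_iter {p : X × ℂ} (hp : p ∈ PCp T g) (n : ℕ) : (T^[n] p.1, fib T g n p.1 p.2) ∈ PCp T g := by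
  obtain ⟨y, c, k, hk, hc, rfl⟩ := hp
  refine ⟨y, c, n + k, by omega, hc, ?_⟩
  rw [Function.iterate_add_apply, fib_add]

/-- windows are chained -/
theorem chain (hB : ∀ x, Bd d A (g x)) {M : ℝ} (hM : 1 ≤ M)
    (hlip : ∀ P : ℂ[X], Bd d A P → ∀ z w : ℂ, ‖z‖ ≤ BB d A + 3 → ‖w‖ ≤ BB d A + 3 →
      ‖P.eval z - P.eval w‖ ≤ M * ‖z - w‖)
    {δ L r lam : ℝ} (hL : 1 < L) (hr : 0 < r) (hrδ : r ≤ δ) (hr1 : M * L * r ≤ 1 / 2) {W : ℕ}
    (hW : 1 ≤ W) (hlam : 1 - 1 / L ≤ lam) (hlam1 : lam < 1) (hWl : L * (1 - 1 / L) ^ W ≤ lam ^ W)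
    (hgd : ∀ p ∈ PCp T g, ‖p.2‖ ≤ BB d A + 2 → GDW T g (BB d A + 3) δ L W p.1 p.2) (k : ℕ) :
    ∀ p ∈ PCp T g, (∀ i ≤ k, ‖fib T g i p.1 p.2‖ ≤ BB d A + 2) → Con T g r L lam p.1 p.2 k := by
  have hq0 : 0 ≤ 1 - 1 / L := by
    rw [sub_nonneg, div_le_one (by linarith)]
    exact hL.le
  have hlam0 : 0 ≤ lam := hq0.trans hlam
  induction k using Nat.strong_induction_on with
  | _ k ih =>
    intro p hp hk z z' hz hz'
    have hgp := hgd p hp (hk 0 (Nat.zero_le _))
    rcases Nat.lt_or_ge W k with h | h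
    · obtain ⟨n, rfl⟩ : ∃ n, k = n + W := ⟨k - W, by omega⟩
      have hst := disc_stepW hB hM hlip hL hr hrδ hr1 hgp W le_rfl (fun i hi => hk i (by omega))
        W le_rfl
      have hv : ‖p.2 - p.2‖ < r := by rw [sub_self, norm_zero]; exact hr
      have hin : ∀ w, ‖w - p.2‖ < r → ‖fib T g W p.1 w - fib T g W p.1 p.2‖ < r := by
        intro w hw
        have h1 := hst.1 w p.2 hw hv
        have h2 : lam ^ W ≤ 1 := pow_le_one₀ hlam0 hlam1.le
        have h3 : L * (1 - 1 / L) ^ W * ‖w - p.2‖ ≤ 1 * ‖w - p.2‖ := by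
          gcongr
          linarith
        linarith
      have h1 := ih n (by omega) _ (pc_iter hp W) (fun i hi => by
        show ‖fib T g i (T^[W] p.1) (fib T g W p.1 p.2)‖ ≤ _
        rw [← fib_add]
        exact hk (i + W) (by omega)) _ _ (hin z hz) (hin z' hz')
      simp only at h1
      rw [← fib_add, ← fib_add] at h1
      have h2 := hst.1 z z' hz hz'
      have h3 : 0 ≤ L * lam ^ n := by positivity
      calc ‖fib T g (n + W) p.1 z - fib T g (n + W) p.1 z'‖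
          ≤ L * lam ^ n * ‖fib T g W p.1 z - fib T g W p.1 z'‖ := h1
        _ ≤ L * lam ^ n * (L * (1 - 1 / L) ^ W * ‖z - z'‖) := by gcongr
        _ ≤ L * lam ^ n * (lam ^ W * ‖z - z'‖) := by gcongr
        _ = _ := by rw [pow_add]; ring
    · have h1 := (disc_stepW hB hM hlip hL hr hrδ hr1 hgp k h hk k le_rfl).1 z z' hz hz'
      refine h1.trans ?_
      gcongr

/-- contraction until escape -/
theorem ad_of_gdw (hA : 1 ≤ A) (hB : ∀ x, Bd d A (g x)) {M : ℝ} (hM : 1 ≤ M)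
    (hlip : ∀ P : ℂ[X], Bd d A P → ∀ z w : ℂ, ‖z‖ ≤ BB d A + 3 → ‖w‖ ≤ BB d A + 3 →
      ‖P.eval z - P.eval w‖ ≤ M * ‖z - w‖)
    {δ L r lam : ℝ} (hL : 1 < L) (hr : 0 < r) (hrδ : r ≤ δ) (hr1 : M * L * r ≤ 1 / 2) {W : ℕ}
    (hW : 1 ≤ W) (hlam : 1 - 1 / L ≤ lam) (hlam1 : lam < 1) (hWl : L * (1 - 1 / L) ^ W ≤ lam ^ W)
    (hgd : ∀ p ∈ PCp T g, ‖p.2‖ ≤ BB d A + 2 → GDW T g (BB d A + 3) δ L W p.1 p.2) {p : X × ℂ}
    (hp : p ∈ PCp T g) : AD T g r L lam p.1 p.2 := by
  classical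
  have hB4 := BB_ge d hA
  have hq0 : 0 ≤ 1 - 1 / L := by
    rw [sub_nonneg, div_le_one (by linarith)]
    exact hL.le
  have hlam0 : 0 ≤ lam := hq0.trans hlam
  have hLr : L * r ≤ 1 / 2 := by
    have : 0 ≤ L * r := by positivity
    nlinarith
  have hch := chain hB hM hlip hL hr hrδ hr1 hW hlam hlam1 hWl hgd
  by_cases h : ∃ k, BB d A + 2 < ‖fib T g k p.1 p.2‖
  · right
    obtain ⟨N, hN, hlt⟩ : ∃ N, BB d A + 2 < ‖fib T g N p.1 p.2‖ ∧
        ∀ k < N, ‖fib T g k p.1 p.2‖ ≤ BB d A + 2 :=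
      ⟨Nat.find h, Nat.find_spec h, fun k hk => not_lt.1 (Nat.find_min h hk)⟩
    refine ⟨N, fun k hk => hch k p hp fun i hi => hlt i (by omega), fun k z hz => ?_⟩
    apply esc_big hA hB
    have hclose : ‖fib T g N p.1 z - fib T g N p.1 p.2‖ ≤ 1 / 2 := by
      rcases Nat.eq_zero_or_pos N with h0 | h0
      · subst h0
        show ‖z - p.2‖ ≤ 1 / 2
        nlinarith
      · obtain ⟨n, rfl⟩ : ∃ n, N = n + 1 := ⟨N - 1, by omega⟩
        have h1 := hch n p hp (fun i hi => hlt i (by omega))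
        have h7 := h1 z p.2 hz (by rw [sub_self, norm_zero]; exact hr)
        have h8 : lam ^ n ≤ 1 := pow_le_one₀ hlam0 hlam1.le
        have h9 : L * lam ^ n * ‖z - p.2‖ ≤ L * r := by
          calc L * lam ^ n * ‖z - p.2‖ ≤ L * 1 * r := by gcongr
            _ = L * r := by ring
        have h4 := hlt n (by omega)
        have h5 := norm_add_le (fib T g n p.1 z - fib T g n p.1 p.2) (fib T g n p.1 p.2)
        rw [sub_add_cancel] at h5
        have h6 := hlip _ (hB (T^[n] p.1)) (fib T g n p.1 z) (fib T g n p.1 p.2) (by linarith)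
          (by linarith)
        rw [fib_succ, fib_succ]
        calc ‖(g (T^[n] p.1)).eval (fib T g n p.1 z) - (g (T^[n] p.1)).eval (fib T g n p.1 p.2)‖
            ≤ M * ‖fib T g n p.1 z - fib T g n p.1 p.2‖ := h6
          _ ≤ M * (L * r) := by gcongr; exact h7.trans h9
          _ ≤ 1 / 2 := by linarith
    have h1 := norm_sub_norm_le (fib T g N p.1 p.2) (fib T g N p.1 z)
    rw [norm_sub_rev] at h1
    linarith
  · left
    push Not at h
    exact fun k => hch k p hp fun i _ => h i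

end

end Pool.Agent.Y334.ST
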