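import Mathlib
import Pool.Agent.Y334.ST.Win

/-! The quantitative version. -/

set_option autoImplicit false

open Filter Topology Metric Set Polynomial

namespace Pool.Agent.Y334.ST

open Pool.Agent.Y334.FP Pool.Agent.Y334.FN

/-- contraction along the post-critical orbits extends to the closure -/
theorem hyp_of_core {X : Type} [TopologicalSpace X] {T : X → X} {g : X → ℂ[X]} {d : ℕ} {A : ℝ}
    (hT : Continuous T) (hg : ∀ k, Continuous fun x => (g x).coeff k) (hA : 1 ≤ A)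
    (hB : ∀ x, Bd d A (g x)) {M : ℝ} (hM : 1 ≤ M)
    (hlip : ∀ P : ℂ[X], Bd d A P → ∀ z w : ℂ, ‖z‖ ≤ BB d A + 3 → ‖w‖ ≤ BB d A + 3 →
      ‖P.eval z - P.eval w‖ ≤ M * ‖z - w‖)
    {L r lam κ : ℝ} (hL : 1 ≤ L) (hr0 : 0 < r) (hrh : r ≤ 1 / 2) (hl0 : 0 < lam) (hl1 : lam < 1)
    (had : ∀ p ∈ PCp T g, AD T g r L lam p.1 p.2) {J : ℕ} (hκ : 0 < κ)
    (hJ : 2 * κ * (2 * (BB d A + 3)) < r / 2)
    (hQu : ∀ q ∈ PCp T g, (∀ i ≤ J, ‖fib T g i q.1 q.2‖ ≤ BB d A + 2) →
      ∏ i ∈ Finset.range J, ‖(derivative (g (T^[i] q.1))).eval (fib T g i q.1 q.2)‖ ≤ κ) :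
    HypP T g (r / (2 * M ^ J)) (L * (M / lam) ^ J) lam := by
  classical
  have hB4 := BB_ge d hA
  have hd : ∀ x, (g x).natDegree ≤ d := fun x => (hB x).2.1
  have hfc := fib_cont hT hg hd
  have hMJ : 1 ≤ M ^ J := one_le_pow₀ hM
  have hMJ0 : 0 < M ^ J := by linarith
  set r' : ℝ := r / (2 * M ^ J) with hr'
  have hr'0 : 0 < r' := by rw [hr']; positivity
  have hMr : M ^ J * r' = r / 2 := by
    rw [hr']
    field_simp
  set K : ℝ := L * (M / lam) ^ J with hK
  have hMl : 1 ≤ M / lam := by rw [le_div_iff₀ hl0]; linarith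
  have hKk : ∀ k ≤ J, M ^ k ≤ K * lam ^ k := by
    intro k hk
    have h1 : (M / lam) ^ k ≤ (M / lam) ^ J := pow_le_pow_right₀ hMl hk
    have h2 : (1 : ℝ) ≤ (M / lam) ^ J := one_le_pow₀ hMl
    have h3 : (M / lam) ^ k ≤ K := by
      rw [hK]
      nlinarith
    have h4 : (M / lam) ^ k * lam ^ k = M ^ k := by
      rw [← mul_pow, div_mul_cancel₀ _ hl0.ne']
    rw [← h4]
    gcongr
  have hKJ : K * lam ^ J = L * M ^ J := by
    rw [hK, mul_assoc, ← mul_pow, div_mul_cancel₀ _ hl0.ne']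
  set Q : X × ℂ → ℝ := fun p =>
    ∏ i ∈ Finset.range J, ‖(derivative (g (T^[i] p.1))).eval (fib T g i p.1 p.2)‖ with hQ
  have hQc : Continuous Q := by
    rw [hQ]
    apply continuous_finsetProd
    intro i _
    apply Continuous.norm
    refine eval_cont (g := fun x => derivative (g x)) (d := d) (fun k => ?_) (fun x => ?_)
      ((hT.iterate i).comp continuous_fst) (hfc i)
    · simp only [coeff_derivative]
      exact (hg (k + 1)).mul continuous_const
    · exact (natDegree_derivative_le _).trans (by have := hd x; omega)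
  intro p hp
  by_cases hcase : ∃ i ≤ J, BB d A + 2 ≤ ‖fib T g i p.1 p.2‖
  · -- the orbit leaves soon
    have hex : ∃ i, BB d A + 2 ≤ ‖fib T g i p.1 p.2‖ := by
      obtain ⟨i, -, hi⟩ := hcase
      exact ⟨i, hi⟩
    obtain ⟨N, hNJ, hN, hlt⟩ : ∃ N ≤ J, BB d A + 2 ≤ ‖fib T g N p.1 p.2‖ ∧
        ∀ k < N, ‖fib T g k p.1 p.2‖ < BB d A + 2 := by
      refine ⟨Nat.find hex, ?_, Nat.find_spec hex, fun k hk => not_le.1 (Nat.find_min hex hk)⟩
      obtain ⟨i, hi, h1⟩ := hcase
      exact (Nat.find_min' hex h1).trans hi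
    have hW1 : ∀ᶠ x in 𝓝 p.1, ∀ k ∈ Finset.range N, ‖fib T g k x p.2‖ < BB d A + 2 := by
      refine (Filter.eventually_all_finset _).2 fun k hk => ?_
      have h1 : Continuous fun x => ‖fib T g k x p.2‖ :=
        ((hfc k).comp (continuous_id.prodMk continuous_const)).norm
      exact h1.continuousAt.eventually_lt continuousAt_const (hlt k (Finset.mem_range.1 hk))
    have hW2 : ∀ᶠ x in 𝓝 p.1, BB d A + 1 < ‖fib T g N x p.2‖ := by
      have h1 : Continuous fun x => ‖fib T g N x p.2‖ :=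
        ((hfc N).comp (continuous_id.prodMk continuous_const)).norm
      exact continuousAt_const.eventually_lt h1.continuousAt (by linarith)
    refine ⟨_, hW1.and hW2, ?_⟩
    rintro x ⟨h1, h2⟩
    have h1' : ∀ i < N, ‖fib T g i x p.2‖ ≤ BB d A + 2 := fun i hi =>
      (h1 i (Finset.mem_range.2 hi)).le
    have hMN : M ^ N * r' ≤ 1 / 2 := by
      have h3 : M ^ N ≤ M ^ J := pow_le_pow_right₀ hM hNJ
      nlinarith
    have hrun := lip_run hB hM hlip hr'0 N h1' hMN
    right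
    refine ⟨N, fun k hk z z' hz hz' => ?_, fun k z hz => ?_⟩
    · refine (hrun k (by omega) z z' hz hz').trans ?_
      exact mul_le_mul_of_nonneg_right (hKk k (by omega)) (norm_nonneg _)
    · apply esc_big hA hB
      have h3 := hrun N le_rfl z p.2 hz (by rw [sub_self, norm_zero]; exact hr'0)
      have h4 : M ^ N * ‖z - p.2‖ ≤ M ^ N * r' := by gcongr
      have h5 := norm_sub_norm_le (fib T g N x p.2) (fib T g N x z)
      rw [norm_sub_rev] at h5
      have h2' : BB d A + 1 < ‖fib T g N x p.2‖ := h2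
      linarith
  · push Not at hcase
    have hQp : Q p ≤ κ := by
      by_contra hcon
      push Not at hcon
      have hO : ∀ᶠ q in 𝓝 p, (∀ k ∈ Finset.range (J + 1), ‖fib T g k q.1 q.2‖ < BB d A + 2) ∧
          κ < Q q := by
        refine Filter.Eventually.and ?_ ?_
        · refine (Filter.eventually_all_finset _).2 fun k hk => ?_
          exact (hfc k).norm.continuousAt.eventually_lt continuousAt_const
            (hcase k (by have := Finset.mem_range.1 hk; omega))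
        · exact continuousAt_const.eventually_lt hQc.continuousAt hcon
      obtain ⟨q, ⟨h1, h2⟩, h3⟩ := mem_closure_iff_nhds.1 hp _ hO
      have h4 := hQu q h3 (fun i hi => (h1 i (Finset.mem_range.2 (by omega))).le)
      have h2' : κ < Q q := h2
      exact absurd h4 (not_le.2 h2')
    have hW1 : ∀ᶠ x in 𝓝 p.1, ∀ k ∈ Finset.range (J + 1), ‖fib T g k x p.2‖ < BB d A + 2 := by
      refine (Filter.eventually_all_finset _).2 fun k hk => ?_
      have h1 : Continuous fun x => ‖fib T g k x p.2‖ :=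
        ((hfc k).comp (continuous_id.prodMk continuous_const)).norm
      exact h1.continuousAt.eventually_lt continuousAt_const
        (hcase k (by have := Finset.mem_range.1 hk; omega))
    have hW2 : ∀ᶠ x in 𝓝 p.1, Q (x, p.2) < 2 * κ := by
      have h1 : Continuous fun x => Q (x, p.2) :=
        hQc.comp (continuous_id.prodMk continuous_const)
      have h2 : Q (p.1, p.2) < 2 * κ := by
        have : Q (p.1, p.2) = Q p := rfl
        linarith
      exact h1.continuousAt.eventually_lt continuousAt_const h2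
    refine ⟨_, hW1.and hW2, ?_⟩
    rintro x ⟨h1, h2⟩
    have h1' : ∀ i ≤ J, ‖fib T g i x p.2‖ < BB d A + 2 := fun i hi =>
      h1 i (Finset.mem_range.2 (by omega))
    have h2' : Q (x, p.2) < 2 * κ := h2
    have hMJr : M ^ J * r' ≤ 1 / 2 := by linarith
    have hrun := lip_run hB hM hlip hr'0 J (fun i hi => (h1' i (by omega)).le) hMJr
    -- a critical value nearby
    set F : ℂ[X] := cmp (fun i => g (T^[i] x)) J with hF
    have hFe : ∀ z, F.eval z = fib T g J x z := fun z => cmp_fib T g x J z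
    have hFd : ‖(derivative F).eval p.2‖ = Q (x, p.2) := by
      have h3 : HasDerivAt (fun z => F.eval z) ((derivative F).eval p.2) p.2 := F.hasDerivAt _
      have h4 : (fun z => F.eval z) = fib T g J x := by
        funext z
        exact hFe z
      rw [h4] at h3
      rw [h3.unique (fib_hasDeriv x p.2 J), norm_prod]
    obtain ⟨ζ, hζ, hζv⟩ := smale (F := F) (v₀ := p.2) (δ := r / 2) (R := BB d A + 3)
      (by linarith) (fun z hz => by
        rw [hFe, hFe, mem_ball_iff_norm] at hz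
        by_contra hcon
        push Not at hcon
        have h3 := it_big hA (U := fun i => g (T^[i] x)) (fun i => hB _) (z := z) (k := 0)
          (by show BB d A ≤ ‖z‖; linarith) J
        rw [← it_fib, ← it_fib, Nat.zero_add] at h3
        have h3' : 2 ^ J * ‖z‖ ≤ ‖fib T g J x z‖ := h3
        have h4 : (1 : ℝ) ≤ 2 ^ J := one_le_pow₀ (by norm_num)
        have h5 := h1' J le_rfl
        have h6 := norm_sub_norm_le (fib T g J x z) (fib T g J x p.2)
        nlinarith)
      (by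
        rw [hFd]
        have h3 : 0 < 2 * (BB d A + 3) := by linarith
        calc Q (x, p.2) * (2 * (BB d A + 3)) ≤ 2 * κ * (2 * (BB d A + 3)) := by gcongr
          _ < r / 2 := hJ)
    rw [hFe, hFe] at hζv
    obtain ⟨j, hj, hjc⟩ := cmp_crit hζ
    rw [cmp_fib] at hjc
    have hPC : (T^[J] x, fib T g J x ζ) ∈ PCp T g := by
      refine ⟨T^[j] x, fib T g j x ζ, J - j, by omega, hjc, ?_⟩
      have e1 : J = (J - j) + j := by omega
      have e2 : T^[J] x = T^[J - j] (T^[j] x) := by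
        conv_lhs => rw [e1]
        rw [Function.iterate_add_apply]
      have e3 : fib T g J x ζ = fib T g (J - j) (T^[j] x) (fib T g j x ζ) := by
        conv_lhs => rw [e1]
        rw [fib_add]
      rw [e2, e3]
    have hAD := had _ hPC
    simp only at hAD
    have hin : ∀ z, ‖z - p.2‖ < r' → ‖fib T g J x z - fib T g J x ζ‖ < r := by
      intro z hz
      have h3 := hrun J le_rfl z p.2 hz (by rw [sub_self, norm_zero]; exact hr'0)
      have h4 : M ^ J * ‖z - p.2‖ ≤ M ^ J * r' := by gcongr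
      have h5 : fib T g J x z - fib T g J x ζ = (fib T g J x z - fib T g J x p.2) -
          (fib T g J x ζ - fib T g J x p.2) := by ring
      have h6 := norm_sub_le (fib T g J x z - fib T g J x p.2) (fib T g J x ζ - fib T g J x p.2)
      rw [h5]
      linarith
    have hcon1 : ∀ k, (∀ m, k = J + m → Con T g r L lam (T^[J] x) (fib T g J x ζ) m) →
        Con T g r' K lam x p.2 k := by
      intro k hk z z' hz hz'
      rcases Nat.lt_or_ge k J with h | h
      · refine (hrun k (by omega) z z' hz hz').trans ?_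
        exact mul_le_mul_of_nonneg_right (hKk k (by omega)) (norm_nonneg _)
      · obtain ⟨m, rfl⟩ : ∃ m, k = J + m := ⟨k - J, by omega⟩
        have h3 := hk m rfl _ _ (hin z hz) (hin z' hz')
        rw [← fib_add, ← fib_add, add_comm m J] at h3
        have h4 := hrun J le_rfl z z' hz hz'
        have h5 : 0 ≤ L * lam ^ m := by positivity
        calc ‖fib T g (J + m) x z - fib T g (J + m) x z'‖
            ≤ L * lam ^ m * ‖fib T g J x z - fib T g J x z'‖ := h3
          _ ≤ L * lam ^ m * (M ^ J * ‖z - z'‖) := by gcongr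
          _ = (K * lam ^ J) * lam ^ m * ‖z - z'‖ := by rw [hKJ]; ring
          _ = _ := by rw [pow_add]; ring
    rcases hAD with h3 | ⟨k₀, h3, h4⟩
    · left
      exact fun k => hcon1 k fun m _ => h3 m
    · right
      refine ⟨J + k₀, fun k hk => hcon1 k fun m hm => h3 m (by omega), fun k z hz => ?_⟩
      have h5 := h4 k (fib T g J x z) (hin z hz)
      rw [← fib_add] at h5
      have e : J + k₀ + k = k₀ + k + J := by ring
      rw [e]
      exact h5

/-- **Hyperbolic fibered polynomials are stable**, uniformly. -/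
theorem stb_unif (d : ℕ) {A : ℝ} (hA : 1 ≤ A) {r K lam : ℝ} (hr : 0 < r) (hl0 : 0 < lam)
    (hl1 : lam < 1) : ∃ ε : ℝ, 0 < ε ∧ ∀ (X : Type) [TopologicalSpace X] (T : X → X)
      (g : X → ℂ[X]), (∀ x, Bd d A (g x)) → HypP T g r K lam → Stb T g ε := by
  classical
  have hA1 : 1 ≤ A + 1 := by linarith
  have hB4 := BB_ge d hA1
  obtain ⟨M, hM2, hlip'⟩ := lip_bounded d (by linarith : 0 ≤ A + 1) (BB d (A + 1) + 3)
  have hM : 1 ≤ M := by linarith
  have hlip : ∀ P : ℂ[X], Bd d (A + 1) P → ∀ z w : ℂ, ‖z‖ ≤ BB d (A + 1) + 3 →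
      ‖w‖ ≤ BB d (A + 1) + 3 → ‖P.eval z - P.eval w‖ ≤ M * ‖z - w‖ :=
    fun P hP => hlip' P hP.2.1 hP.2.2.1
  set K' : ℝ := max K 1 with hK'
  have hK'1 : 1 ≤ K' := le_max_right _ _
  obtain ⟨m₀, hm₀⟩ := pow_unbounded_of_one_lt (BB d (A + 1) + 2) (one_lt_two : (1 : ℝ) < 2)
  have hMm0 : 0 < M ^ (m₀ + 1) := by positivity
  set r₁ : ℝ := min r (1 / (4 * M ^ (m₀ + 1) * K')) with hr₁
  have hr₁0 : 0 < r₁ := lt_min hr (by positivity)
  have hr₁K : M ^ (m₀ + 1) * (K' * r₁) ≤ 1 / 4 := by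
    have h1 : r₁ ≤ 1 / (4 * M ^ (m₀ + 1) * K') := min_le_right _ _
    calc M ^ (m₀ + 1) * (K' * r₁) ≤ M ^ (m₀ + 1) * (K' * (1 / (4 * M ^ (m₀ + 1) * K'))) := by
          gcongr
      _ = 1 / 4 := by field_simp
  set K₁ : ℝ := K' * (M / lam) ^ (m₀ + 1) with hK₁
  have hMl : 1 ≤ M / lam := by rw [le_div_iff₀ hl0]; linarith
  have hMl' : (1 : ℝ) ≤ (M / lam) ^ (m₀ + 1) := one_le_pow₀ hMl
  have hK₁1 : 1 ≤ K₁ := by rw [hK₁]; nlinarith
  have h1l : 0 < 1 - lam := by linarith
  set q : ℝ := K₁ / (1 - lam) + 1 with hq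
  have hq1 : 1 ≤ q := by
    have : 0 ≤ K₁ / (1 - lam) := by positivity
    linarith
  set ε : ℝ := min 1 r₁ / (4 * q) with hε
  have hm1 : 0 < min 1 r₁ := lt_min one_pos hr₁0
  have hε0 : 0 < ε := by rw [hε]; positivity
  have hεq : ε * q = min 1 r₁ / 4 := by
    rw [hε]
    field_simp
  have hεq' : K₁ * ε / (1 - lam) + ε = ε * q := by
    rw [hq]
    field_simp
  have hsm : K₁ * ε / (1 - lam) + ε < r₁ := by
    rw [hεq', hεq]
    have : min 1 r₁ ≤ r₁ := min_le_right _ _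
    linarith
  have hsm1 : K₁ * ε / (1 - lam) ≤ 1 / 4 := by
    have : min 1 r₁ ≤ 1 := min_le_left _ _
    linarith
  have hε1 : ε ≤ 1 := by
    have h1 : min 1 r₁ ≤ 1 := min_le_left _ _
    have h2 : 0 ≤ K₁ * ε / (1 - lam) := by positivity
    linarith
  refine ⟨ε, hε0, fun X _ T g hB hyp s hs hsε x z hz => ?_⟩
  have hB1 : ∀ x, Bd d (A + 1) (g x) := fun x => bd_mono hA (hB x)
  have hcon : ∀ x v k, Con T g r K lam x v k → Con T g r K' lam x v k := by
    intro x v k h z z' hz hz'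
    refine (h z z' hz hz').trans ?_
    have : K ≤ K' := le_max_left _ _
    gcongr
  have had : ∀ p ∈ PCp T g, AD T g r K' lam p.1 p.2 := by
    intro p hp
    obtain ⟨W, hW, h⟩ := hyp p (subset_closure hp)
    rcases h p.1 (mem_of_mem_nhds hW) with h1 | ⟨k₀, h1, h2⟩
    · exact Or.inl fun k => hcon _ _ _ (h1 k)
    · exact Or.inr ⟨k₀, fun k hk => hcon _ _ _ (h1 k hk), h2⟩
  have hPC : ∀ j ≥ 1, (T^[j] x, fib T g j x z) ∈ PCp T g := fun j hj => ⟨x, z, j, hj, hz, rfl⟩
  have hext : ∀ j ≥ 1, ∀ m, (∀ i < m, ‖fib T g (j + i) x z‖ ≤ BB d (A + 1) + 2) → ∀ w w' : ℂ,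
      ‖w - fib T g j x z‖ < r₁ → ‖w' - fib T g j x z‖ < r₁ →
      ‖fib T g m (T^[j] x) w - fib T g m (T^[j] x) w'‖ ≤ K₁ * lam ^ m * ‖w - w'‖ := by
    intro j hj m hm w w' hw hw'
    refine ext_con hA1 hB1 hM hlip hr hK'1 hl0 hl1 hm₀ hr₁0 (min_le_left _ _) hr₁K
      (had _ (hPC j hj)) (fun i hi => ?_) hw hw'
    show ‖fib T g i (T^[j] x) (fib T g j x z)‖ ≤ _
    rw [← fib_add, add_comm]
    exact hm i hi
  have hshadow := shadow hA1 hB1 hK₁1 hl0 hl1 hext hsε hsm
  -- escape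
  have hBs : ∀ y, Bd d (A + 1) (sh g s y) := fun y => bd_shift hA (hB y) ((hsε y).le.trans hε1)
  have hE1 : EscF T g x z ↔ ∃ k, BB d (A + 1) < ‖fib T g k x z‖ := by
    have h1 := esc_iff hA1 (U := fun i => g (T^[i] x)) (fun i => hB1 _) z
    unfold EscF
    simp only [it_fib]
    exact h1
  have hE2 : EscF T (sh g s) x z ↔ ∃ k, BB d (A + 1) < ‖fib T (sh g s) k x z‖ := by
    have h1 := esc_iff hA1 (U := fun i => sh g s (T^[i] x)) (fun i => hBs _) z
    unfold EscF
    simp only [it_fib]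
    exact h1
  have hgrow1 : ∀ k, BB d (A + 1) < ‖fib T g k x z‖ → 2 * ‖fib T g k x z‖ ≤
      ‖fib T g (k + 1) x z‖ := fun k hk => by
    rw [fib_succ]
    exact esc2 hA1 (hB1 _) hk.le
  have hgrow2 : ∀ k, BB d (A + 1) < ‖fib T (sh g s) k x z‖ → 2 * ‖fib T (sh g s) k x z‖ ≤
      ‖fib T (sh g s) (k + 1) x z‖ := fun k hk => by
    rw [fib_succ]
    exact esc2 hA1 (hBs _) hk.le
  constructor
  · intro h
    by_contra hcon'
    rw [hE2] at h
    rw [hE1] at hcon'
    push Not at hcon'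
    obtain ⟨k, hk⟩ := h
    have h1 := hgrow2 k hk
    have h2 := hshadow (k + 1) fun i _ => (hcon' i).trans (by linarith)
    have h3 := hcon' (k + 1)
    have h4 := norm_sub_norm_le (fib T (sh g s) (k + 1) x z) (fib T g (k + 1) x z)
    linarith
  · intro h
    rw [hE1] at h
    rw [hE2]
    obtain ⟨k, hk⟩ := h
    have hex : ∃ k, BB d (A + 1) + 2 < ‖fib T g k x z‖ := by
      refine ⟨k + 1, ?_⟩
      have := hgrow1 k hk
      linarith
    have h1 := Nat.find_spec hex
    have h2 : ∀ i < Nat.find hex, ‖fib T g i x z‖ ≤ BB d (A + 1) + 2 :=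
      fun i hi => not_lt.1 (Nat.find_min hex hi)
    refine ⟨Nat.find hex, ?_⟩
    have h3 := hshadow (Nat.find hex) h2
    have h4 := norm_sub_norm_le (fib T g (Nat.find hex) x z) (fib T (sh g s) (Nat.find hex) x z)
    rw [norm_sub_rev] at h4
    linarith

/-- **Stability over systems without short periods gives hyperbolicity, with uniform constants.** -/
theorem quant (d : ℕ) {A : ℝ} (hA : 1 ≤ A) {ε : ℝ} (hε : 0 < ε) :
    ∃ (n₀ : ℕ) (r K lam : ℝ), 1 ≤ n₀ ∧ 0 < r ∧ 0 < lam ∧ lam < 1 ∧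
      ∀ (X : Type) [TopologicalSpace X] [NormalSpace X] [T1Space X] (T : X → X), Continuous T →
        (∀ x : X, ∀ k : ℕ, 1 ≤ k → k < n₀ → T^[k] x ≠ x) →
        ∀ g : X → ℂ[X], (∀ k, Continuous fun x => (g x).coeff k) → (∀ x, Bd d A (g x)) →
        Stb T g ε → HypP T g r K lam := by
  have hB4 := BB_ge d hA
  set ε' : ℝ := min ε 1 with hε'
  have hε'0 : 0 < ε' := lt_min hε one_pos
  have hε'1 : ε' ≤ 1 := min_le_right _ _
  obtain ⟨M, hM2, hlip'⟩ := lip_bounded d (by linarith : 0 ≤ A) (BB d A + 3)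
  have hM : 1 ≤ M := by linarith
  have hlip : ∀ P : ℂ[X], Bd d A P → ∀ z w : ℂ, ‖z‖ ≤ BB d A + 3 → ‖w‖ ≤ BB d A + 3 →
      ‖P.eval z - P.eval w‖ ≤ M * ‖z - w‖ := fun P hP => hlip' P hP.2.1 hP.2.2.1
  obtain ⟨L, hLe⟩ : ∃ L, L = LL d (A + 1) (BB d A + 3) (ε' / 2) := ⟨_, rfl⟩
  have hL : 2 ≤ L := by
    rw [hLe]
    exact LL_gt (by linarith) (by linarith) (by linarith) (by linarith)
  set l₀ : ℝ := 1 - 1 / L with hl₀
  have hinvL : 1 / L ≤ 1 / 2 := one_div_le_one_div_of_le (by norm_num) hL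
  have hinvL0 : 0 < 1 / L := by positivity
  have hl00 : 0 < l₀ := by rw [hl₀]; linarith
  have hl01 : l₀ < 1 := by rw [hl₀]; linarith
  set lam : ℝ := (1 + l₀) / 2 with hlam
  have hlam0 : 0 < lam := by rw [hlam]; linarith
  have hlam1 : lam < 1 := by rw [hlam]; linarith
  have hlam2 : l₀ < lam := by rw [hlam]; linarith
  set r : ℝ := min (ε' / 8) (1 / (2 * M * L)) with hr
  have hr0 : 0 < r := lt_min (by linarith) (by positivity)
  have hrδ : r ≤ ε' / 8 := min_le_left _ _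
  have hr1 : M * L * r ≤ 1 / 2 := by
    have h1 : r ≤ 1 / (2 * M * L) := min_le_right _ _
    have h2 : 0 < M * L := by positivity
    calc M * L * r ≤ M * L * (1 / (2 * M * L)) := by gcongr
      _ = 1 / 2 := by field_simp
  have hrh : r ≤ 1 / 2 := by
    have : 1 ≤ M * L := by nlinarith
    nlinarith
  have hκt : Tendsto (fun W : ℕ => L * l₀ ^ W) atTop (𝓝 0) := by
    have h2 := (tendsto_pow_atTop_nhds_zero_of_lt_one hl00.le hl01).const_mul L
    simpa using h2
  obtain ⟨W, hW1, hWa, hWb, hWc⟩ : ∃ W : ℕ, 1 ≤ W ∧ L * l₀ ^ W * (2 * (BB d A + 3)) < ε' / 8 ∧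
      L * l₀ ^ W ≤ lam ^ W ∧ 2 * (L * l₀ ^ W) * (2 * (BB d A + 3)) < r / 2 := by
    have h1 : ∀ᶠ W : ℕ in atTop, L * l₀ ^ W * (2 * (BB d A + 3)) < ε' / 8 := by
      have h2 := hκt.mul_const (2 * (BB d A + 3))
      rw [zero_mul] at h2
      exact h2.eventually (gt_mem_nhds (by linarith))
    have h3 : ∀ᶠ W : ℕ in atTop, 2 * (L * l₀ ^ W) * (2 * (BB d A + 3)) < r / 2 := by
      have h2 := (hκt.const_mul 2).mul_const (2 * (BB d A + 3))
      rw [mul_zero, zero_mul] at h2
      exact h2.eventually (gt_mem_nhds (by linarith))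
    have h4 : ∀ᶠ W : ℕ in atTop, L * l₀ ^ W ≤ lam ^ W := by
      have h5 : Tendsto (fun W : ℕ => L * (l₀ / lam) ^ W) atTop (𝓝 0) := by
        have h6 := (tendsto_pow_atTop_nhds_zero_of_lt_one (r := l₀ / lam) (by positivity)
          (by rw [div_lt_one hlam0]; exact hlam2)).const_mul L
        simpa using h6
      filter_upwards [h5.eventually (gt_mem_nhds (one_pos : (0 : ℝ) < 1))] with W hW
      have h7 : L * l₀ ^ W = L * (l₀ / lam) ^ W * lam ^ W := by
        rw [mul_assoc, ← mul_pow, div_mul_cancel₀ _ hlam0.ne']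
      rw [h7]
      have h8 : 0 < lam ^ W := by positivity
      have h9 : L * (l₀ / lam) ^ W * lam ^ W ≤ 1 * lam ^ W := by gcongr
      linarith
    obtain ⟨W, ⟨⟨hW1, hW2⟩, hW3⟩, hW4⟩ := (((eventually_ge_atTop 1).and h1).and h4).and h3 |>.exists
    exact ⟨W, hW1, hW2, hW3, hW4⟩
  refine ⟨2 * W, r / (2 * M ^ W), L * (M / lam) ^ W, lam, by omega, by positivity, hlam0, hlam1, ?_⟩
  intro X _ _ _ T hTc hT g hg hB hst
  have hst' : Stb T g ε' := fun s hs hsε => hst s hs fun x => (hsε x).trans_le (min_le_left _ _)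
  have hgd : ∀ p ∈ PCp T g, ‖p.2‖ ≤ BB d A + 2 → GDW T g (BB d A + 3) (ε' / 8) L W p.1 p.2 := by
    rintro p ⟨y, c, k, hk, hc, rfl⟩ hp
    exact gdw_all hW1 hT hA hB hε'0 hε'1 hst' hLe hWa hc k hk hp
  have hκ0 : 0 < L * l₀ ^ W := by positivity
  refine hyp_of_core hTc hg hA hB hM hlip (by linarith) hr0 hrh hlam0 hlam1
    (fun p hp => ad_of_gdw hA hB hM hlip (by linarith) hr0 hrδ hr1 hW1 hlam2.le hlam1 hWb hgd hp)
    hκ0 hWc ?_
  intro q hq hqb
  exact hgd q hq (hqb 0 (Nat.zero_le _)) q.2 (by rw [sub_self, norm_zero]; linarith) W le_rfl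
    fun i hi => (hqb i hi).trans (by linarith)

/-- The cyclic base. -/
theorem quant_cyc (d : ℕ) {A : ℝ} (hA : 1 ≤ A) {ε : ℝ} (hε : 0 < ε) :
    ∃ (n₀ : ℕ) (r K lam : ℝ), 1 ≤ n₀ ∧ 0 < r ∧ 0 < lam ∧ lam < 1 ∧
      (∀ (X : Type) [TopologicalSpace X] [NormalSpace X] [T1Space X] (T : X → X), Continuous T →
        (∀ x : X, ∀ k : ℕ, 1 ≤ k → k < n₀ → T^[k] x ≠ x) →
        ∀ g : X → ℂ[X], (∀ k, Continuous fun x => (g x).coeff k) → (∀ x, Bd d A (g x)) →
        Stb T g ε → HypP T g r K lam) ∧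
      ∀ n : ℕ, n₀ ≤ n → ∀ P : ZMod n → ℂ[X], (∀ i, Bd d A (P i)) →
        Stb (fun i : ZMod n => i + 1) P ε →
        ∀ c : ℂ, (derivative (cmp (fun i => P (i : ZMod n)) n)).eval c = 0 →
          NH.Esc (cmp (fun i => P (i : ZMod n)) n) c ∨
            NH.Att (cmp (fun i => P (i : ZMod n)) n) c := by
  obtain ⟨n₀, r, K, lam, hn₀, hr, hl0, hl1, h⟩ := quant d hA hε
  refine ⟨n₀, r, K, lam, hn₀, hr, hl0, hl1, h, ?_⟩
  intro n hn P hB hst
  have hT : ∀ (k : ℕ) (x : ZMod n), (fun i : ZMod n => i + 1)^[k] x = x + k := by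
    intro k x
    induction k with
    | zero => simp
    | succ k ih =>
      rw [Function.iterate_succ_apply', ih]
      show x + k + 1 = _
      push_cast
      ring
  have h1 := h (ZMod n) (fun i => i + 1) continuous_of_discreteTopology (fun x k hk1 hk2 hk => by
    rw [hT] at hk
    have h1 : (k : ZMod n) = 0 := by simpa using hk
    rw [ZMod.natCast_eq_zero_iff] at h1
    exact absurd (Nat.le_of_dvd (by omega) h1) (by omega)) P
    (fun k => continuous_of_discreteTopology) hB hst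
  have h2 := hyp_of_per hr hl0 hl1 h1 (fun x => (hB x).1) (by omega : 1 ≤ n) (x₀ := 0)
    (by rw [hT]; simp)
  have h3 : (fun i : ℕ => P ((fun i : ZMod n => i + 1)^[i] 0)) = fun i : ℕ => P (i : ZMod n) := by
    funext i
    rw [hT, zero_add]
  rw [h3] at h2
  exact h2

end Pool.Agent.Y334.ST
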