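import Mathlib
import Pool.Agent.Y334.ST.Quant

/-! The rate `log n / n`. -/

set_option autoImplicit false

open Filter Topology Metric Set Polynomial

namespace Pool.Agent.Y334.ST

open Pool.Agent.Y334.FP Pool.Agent.Y334.FN

/-- the statement for one window length -/
theorem quantW {d : ℕ} {A : ℝ} (hA : 1 ≤ A) {M : ℝ} (hM : 1 ≤ M)
    (hlip : ∀ P : ℂ[X], Bd d A P → ∀ z w : ℂ, ‖z‖ ≤ BB d A + 3 → ‖w‖ ≤ BB d A + 3 →
      ‖P.eval z - P.eval w‖ ≤ M * ‖z - w‖)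
    {ε : ℝ} (hε : 0 < ε) (hε1 : ε ≤ 1) {L : ℝ} (hLe : L = LL d (A + 1) (BB d A + 3) (ε / 2))
    {r : ℝ} (hr0 : 0 < r) (hrδ : r ≤ ε / 8) (hr1 : M * L * r ≤ 1 / 2) {lam : ℝ}
    (hlam : 1 - 1 / L ≤ lam) (hlam0 : 0 < lam) (hlam1 : lam < 1) {W : ℕ} (hW1 : 1 ≤ W)
    (hWa : L * (1 - 1 / L) ^ W * (2 * (BB d A + 3)) < ε / 8)
    (hWb : L * (1 - 1 / L) ^ W ≤ lam ^ W)
    (hWc : 2 * (L * (1 - 1 / L) ^ W) * (2 * (BB d A + 3)) < r / 2)
    {X : Type} [TopologicalSpace X] [NormalSpace X] [T1Space X] {T : X → X} (hTc : Continuous T)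
    (hT : ∀ x : X, ∀ k : ℕ, 1 ≤ k → k < 2 * W → T^[k] x ≠ x) {g : X → ℂ[X]}
    (hg : ∀ k, Continuous fun x => (g x).coeff k) (hB : ∀ x, Bd d A (g x)) (hst : Stb T g ε) :
    HypP T g (r / (2 * M ^ W)) (L * (M / lam) ^ W) lam := by
  have hB4 := BB_ge d hA
  have hL : 2 ≤ L := by
    rw [hLe]
    exact LL_gt (by linarith) (by linarith) (by linarith) (by linarith)
  have hinvL : 1 / L ≤ 1 / 2 := one_div_le_one_div_of_le (by norm_num) hL
  have hgd : ∀ p ∈ PCp T g, ‖p.2‖ ≤ BB d A + 2 → GDW T g (BB d A + 3) (ε / 8) L W p.1 p.2 := by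
    rintro p ⟨y, c, k, hk, hc, rfl⟩ hp
    exact gdw_all hW1 hT hA hB hε hε1 hst hLe hWa hc k hk hp
  have hl00 : 0 < 1 - 1 / L := by linarith
  have hκ0 : 0 < L * (1 - 1 / L) ^ W := by positivity
  have hrh : r ≤ 1 / 2 := by linarith
  refine hyp_of_core hTc hg hA hB hM hlip (by linarith) hr0 hrh hlam0 hlam1
    (fun p hp => ad_of_gdw hA hB hM hlip (by linarith) hr0 hrδ hr1 hW1 hlam hlam1 hWb hgd hp)
    hκ0 hWc ?_
  intro q hq hqb
  exact hgd q hq (hqb 0 (Nat.zero_le _)) q.2 (by rw [sub_self, norm_zero]; linarith) W le_rfl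
    fun i hi => (hqb i hi).trans (by linarith)

/-- **The rate.** -/
theorem rate (d : ℕ) {A : ℝ} (hA : 1 ≤ A) :
    ∃ C : ℝ, 0 < C ∧ ∀ n : ℕ, 2 ≤ n → C * Real.log n / n ≤ 1 →
      ∀ (X : Type) [TopologicalSpace X] [NormalSpace X] [T1Space X] (T : X → X), Continuous T →
        (∀ x : X, ∀ k : ℕ, 1 ≤ k → k < n → T^[k] x ≠ x) →
        ∀ g : X → ℂ[X], (∀ k, Continuous fun x => (g x).coeff k) → (∀ x, Bd d A (g x)) →
        Stb T g (C * Real.log n / n) →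
        ∃ r K lam : ℝ, 0 < r ∧ 0 < lam ∧ lam < 1 ∧ HypP T g r K lam := by
  have hB4 := BB_ge d hA
  obtain ⟨M, hM2, hlip'⟩ := lip_bounded d (by linarith : 0 ≤ A) (BB d A + 3)
  have hM : 1 ≤ M := by linarith
  have hlip : ∀ P : ℂ[X], Bd d A P → ∀ z w : ℂ, ‖z‖ ≤ BB d A + 3 → ‖w‖ ≤ BB d A + 3 →
      ‖P.eval z - P.eval w‖ ≤ M * ‖z - w‖ := fun P hP => hlip' P hP.2.1 hP.2.2.1
  obtain ⟨C₁, hC₁, hLL⟩ : ∃ C₁ : ℝ, 2 ≤ C₁ ∧ ∀ ε : ℝ, 0 < ε →
      LL d (A + 1) (BB d A + 3) (ε / 2) = C₁ / ε := by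
    refine ⟨LL d (A + 1) (BB d A + 3) (1 / 2),
      LL_gt (by linarith) (by linarith) (by norm_num) (by norm_num), fun ε hε => ?_⟩
    unfold LL
    field_simp
  set c₂ : ℝ := 2 * (BB d A + 3) with hc₂
  have hc₂0 : 1 ≤ c₂ := by rw [hc₂]; linarith
  set Q : ℝ := 32 * c₂ * C₁ + 8 * c₂ * M * C₁ ^ 2 + C₁ + 1 with hQ
  have hQ1 : 32 * c₂ * C₁ ≤ Q := by
    rw [hQ]
    have : 0 ≤ 8 * c₂ * M * C₁ ^ 2 := by positivity
    linarith
  have hQ2 : 8 * c₂ * M * C₁ ^ 2 ≤ Q := by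
    rw [hQ]
    have : 0 ≤ 32 * c₂ * C₁ := by positivity
    linarith
  have hQ3 : C₁ ≤ Q := by
    rw [hQ]
    have : 0 ≤ 32 * c₂ * C₁ := by positivity
    have : 0 ≤ 8 * c₂ * M * C₁ ^ 2 := by positivity
    linarith
  have hQ0 : 1 ≤ Q := by linarith
  obtain ⟨m₀, hm₀⟩ := pow_unbounded_of_one_lt Q (one_lt_two : (1 : ℝ) < 2)
  set m : ℕ := m₀ + 1 with hm
  have hm1 : (1 : ℝ) ≤ m := by
    rw [hm]
    push_cast
    linarith [(Nat.cast_nonneg m₀ : (0 : ℝ) ≤ m₀)]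
  set C : ℝ := 8 * C₁ * m with hC
  have hC0 : 0 < C := by rw [hC]; positivity
  have hC16 : 16 ≤ C := by rw [hC]; nlinarith
  refine ⟨C, hC0, ?_⟩
  intro n hn hε1 X _ _ _ T hTc hT g hg hB hst
  have hn2 : (2 : ℝ) ≤ n := by exact_mod_cast hn
  have hn0 : (0 : ℝ) < n := by linarith
  set ℓ : ℝ := Real.log n with hℓ
  have hℓ2 : 1 / 2 ≤ ℓ := by
    have h1 : Real.log 2 ≤ Real.log n := Real.log_le_log (by norm_num) hn2
    have h2 := Real.log_two_gt_d9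
    linarith
  set ε : ℝ := C * ℓ / n with hε
  have hε0 : 0 < ε := by rw [hε]; positivity
  have hεn : 1 / (n : ℝ) ≤ ε := by
    rw [hε]
    gcongr
    nlinarith
  obtain ⟨L, hLdef⟩ : ∃ L, L = C₁ / ε := ⟨_, rfl⟩
  have hLe : L = LL d (A + 1) (BB d A + 3) (ε / 2) := by rw [hLdef, hLL ε hε0]
  have hL : 2 ≤ L := by
    rw [hLe]
    exact LL_gt (by linarith) (by linarith) (by linarith) (by linarith)
  have hL0 : 0 < L := by linarith
  have hLε : L * ε = C₁ := by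
    rw [hLdef]
    field_simp
  have hinvL : 1 / L ≤ 1 / 2 := one_div_le_one_div_of_le (by norm_num) hL
  have hinvL0 : 0 < 1 / L := by positivity
  set l₀ : ℝ := 1 - 1 / L with hl₀
  have hl00 : 0 < l₀ := by rw [hl₀]; linarith
  set lam : ℝ := 1 - 1 / (2 * L) with hlam
  have h2L : 1 / (2 * L) = (1 / L) / 2 := by field_simp
  have hlam0 : 0 < lam := by rw [hlam, h2L]; linarith
  have hlam1 : lam < 1 := by rw [hlam, h2L]; linarith
  have hlam2 : l₀ ≤ lam := by rw [hlam, hl₀, h2L]; linarith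
  set r : ℝ := min (ε / 8) (1 / (2 * M * L)) with hr
  have hr0 : 0 < r := lt_min (by linarith) (by positivity)
  have hrδ : r ≤ ε / 8 := min_le_left _ _
  have hr1 : M * L * r ≤ 1 / 2 := by
    have h1 : r ≤ 1 / (2 * M * L) := min_le_right _ _
    have h2 : 0 < M * L := by positivity
    calc M * L * r ≤ M * L * (1 / (2 * M * L)) := by gcongr
      _ = 1 / 2 := by field_simp
  -- the window
  set W : ℕ := n / 2 with hW
  have hW1 : 1 ≤ W := by rw [hW]; omega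
  have hW2 : 2 * W ≤ n := by rw [hW]; omega
  have hW4 : (n : ℝ) ≤ 4 * W := by
    have h1 : n ≤ 4 * W := by rw [hW]; omega
    exact_mod_cast h1
  set t : ℝ := ((n : ℝ)⁻¹) ^ m with ht
  have ht0 : 0 < t := by rw [ht]; positivity
  have hexp : Real.exp (-(W / (2 * L))) ≤ t := by
    have h1 : t = Real.exp (-(m * ℓ)) := by
      rw [ht, Real.exp_neg, Real.exp_nat_mul, hℓ, Real.exp_log hn0, inv_pow]
    rw [h1]
    apply Real.exp_le_exp.2
    apply neg_le_neg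
    rw [le_div_iff₀ (by positivity)]
    have h2 : ε * n = C * ℓ := by rw [hε]; field_simp
    have h3 : L * (C * ℓ) ≤ C₁ * (4 * W) := by
      rw [← h2, ← mul_assoc, hLε]
      gcongr
    have h4 : C₁ * (8 * (m * ℓ * L)) ≤ C₁ * (4 * W) := by
      calc C₁ * (8 * (m * ℓ * L)) = L * (C * ℓ) := by rw [hC]; ring
        _ ≤ _ := h3
    have h5 := le_of_mul_le_mul_left h4 (by linarith)
    linarith
  have hlamW : (l₀ / lam) ^ W ≤ t := by
    have h1 : l₀ / lam ≤ Real.exp (-(1 / (2 * L))) := by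
      have h2 : l₀ / lam ≤ lam := by
        rw [div_le_iff₀ hlam0, hlam, hl₀, h2L]
        nlinarith
      refine h2.trans ?_
      have h3 := Real.add_one_le_exp (-(1 / (2 * L)))
      rw [hlam]
      linarith
    have h0 : 0 ≤ l₀ / lam := by positivity
    calc (l₀ / lam) ^ W ≤ Real.exp (-(1 / (2 * L))) ^ W := by gcongr
      _ = Real.exp (-(W / (2 * L))) := by
          rw [← Real.exp_nat_mul]
          congr 1
          ring
      _ ≤ t := hexp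
  have hl₀W : l₀ ^ W ≤ t ^ 2 := by
    have h1 : l₀ ≤ Real.exp (-(1 / L)) := by
      have h3 := Real.add_one_le_exp (-(1 / L))
      rw [hl₀]
      linarith
    calc l₀ ^ W ≤ Real.exp (-(1 / L)) ^ W := by gcongr
      _ = Real.exp (-(W / (2 * L))) ^ 2 := by
          rw [← Real.exp_nat_mul, ← Real.exp_nat_mul]
          congr 1
          push_cast
          field_simp
      _ ≤ t ^ 2 := by
          have := Real.exp_pos (-(W / (2 * L)))
          gcongr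
  have hninv : (n : ℝ)⁻¹ ≤ 1 / 2 := by
    rw [inv_eq_one_div]
    exact one_div_le_one_div_of_le (by norm_num) hn2
  have htn : t ≤ (n : ℝ)⁻¹ := by
    rw [ht, hm, pow_succ]
    have h1 : ((n : ℝ)⁻¹) ^ m₀ ≤ 1 := pow_le_one₀ (by positivity) (by linarith)
    have h2 : 0 < (n : ℝ)⁻¹ := by positivity
    nlinarith
  have hQt : Q * t < (n : ℝ)⁻¹ := by
    rw [ht, hm, pow_succ, ← mul_assoc]
    have h2 : 0 < (n : ℝ)⁻¹ := by positivity
    have h3 : Q * ((n : ℝ)⁻¹) ^ m₀ < 1 := by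
      have h4 : ((n : ℝ)⁻¹) ^ m₀ ≤ (1 / 2) ^ m₀ := by gcongr
      have h5 : (1 / 2 : ℝ) ^ m₀ * 2 ^ m₀ = 1 := by rw [← mul_pow]; norm_num
      have h6 : 0 < (1 / 2 : ℝ) ^ m₀ := by positivity
      calc Q * ((n : ℝ)⁻¹) ^ m₀ ≤ Q * (1 / 2) ^ m₀ := by gcongr
        _ < 2 ^ m₀ * (1 / 2) ^ m₀ := by gcongr
        _ = 1 := by rw [mul_comm]; exact h5
    nlinarith
  have hεn' : (n : ℝ)⁻¹ ≤ ε := by rw [inv_eq_one_div]; exact hεn
  have hQt1 : Q * t < ε := by linarith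
  have hQt2 : Q * t ^ 2 < ε ^ 2 := by
    calc Q * t ^ 2 = (Q * t) * t := by ring
      _ < ε * t := by gcongr
      _ ≤ ε * ε := by gcongr; linarith
      _ = ε ^ 2 := by ring
  have hx0 : 0 < l₀ ^ W := by positivity
  have key : Q * l₀ ^ W < ε ^ 2 := lt_of_le_of_lt (by gcongr) hQt2
  have hWa : L * l₀ ^ W * c₂ < ε / 8 := by
    have h1 : 32 * c₂ * C₁ * l₀ ^ W < ε ^ 2 := lt_of_le_of_lt (by gcongr) key
    have h2 : L * l₀ ^ W * c₂ * ε = c₂ * C₁ * l₀ ^ W := by rw [← hLε]; ring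
    have h3 : 0 < c₂ * C₁ * l₀ ^ W := by positivity
    have h4 : L * l₀ ^ W * c₂ * ε < ε / 8 * ε := by rw [h2]; nlinarith
    exact lt_of_mul_lt_mul_right h4 hε0.le
  have hWb : L * l₀ ^ W ≤ lam ^ W := by
    have h1 : L * (l₀ / lam) ^ W ≤ 1 := by
      have h2 : L * t * ε ≤ 1 * ε := by
        have h3 : L * t * ε = C₁ * t := by rw [← hLε]; ring
        rw [h3, one_mul]
        have h4 : C₁ * t ≤ Q * t := by gcongr
        linarith
      have h3 := le_of_mul_le_mul_right h2 hε0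
      have h4 : L * (l₀ / lam) ^ W ≤ L * t := by gcongr
      linarith
    have h2 : L * l₀ ^ W = L * (l₀ / lam) ^ W * lam ^ W := by
      rw [mul_assoc, ← mul_pow, div_mul_cancel₀ _ hlam0.ne']
    rw [h2]
    have h3 : 0 < lam ^ W := by positivity
    have h4 : L * (l₀ / lam) ^ W * lam ^ W ≤ 1 * lam ^ W := by gcongr
    linarith
  have hWc : 2 * (L * l₀ ^ W) * c₂ < r / 2 := by
    have h5 : 2 * (L * l₀ ^ W) * c₂ < ε / 8 / 2 := by
      have h1 : 32 * c₂ * C₁ * l₀ ^ W < ε ^ 2 := lt_of_le_of_lt (by gcongr) key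
      have h2 : 2 * (L * l₀ ^ W) * c₂ * ε = 2 * (c₂ * C₁ * l₀ ^ W) := by rw [← hLε]; ring
      have h4 : 2 * (L * l₀ ^ W) * c₂ * ε < ε / 8 / 2 * ε := by rw [h2]; nlinarith
      exact lt_of_mul_lt_mul_right h4 hε0.le
    have h6 : 2 * (L * l₀ ^ W) * c₂ < 1 / (2 * M * L) / 2 := by
      have h1 : 8 * c₂ * M * C₁ ^ 2 * l₀ ^ W < ε ^ 2 := lt_of_le_of_lt (by gcongr) key
      have h2 : 2 * (L * l₀ ^ W) * c₂ * (4 * M * L) * ε ^ 2 = 8 * c₂ * M * C₁ ^ 2 * l₀ ^ W := by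
        rw [← hLε]; ring
      have h3 : 2 * (L * l₀ ^ W) * c₂ * (4 * M * L) * ε ^ 2 < 1 * ε ^ 2 := by rw [h2]; linarith
      have h4 := lt_of_mul_lt_mul_right h3 (by positivity)
      have h7 : 1 / (2 * M * L) / 2 = 1 / (4 * M * L) := by
        field_simp
        norm_num
      rw [h7, lt_div_iff₀ (by positivity)]
      exact h4
    rw [hr]
    rcases min_choice (ε / 8) (1 / (2 * M * L)) with h | h
    · rw [h]; exact h5
    · rw [h]; exact h6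
  exact ⟨_, _, lam, by positivity, hlam0, hlam1, quantW hA hM hlip hε0 hε1 hLe hr0 hrδ hr1
    hlam2 hlam0 hlam1 hW1 hWa hWb hWc hTc (fun x k h1 h2 => hT x k h1 (by omega)) hg hB hst⟩

end Pool.Agent.Y334.ST
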