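import Mathlib
import Pool.Agent.Y334.ST.Main
import Pool.Agent.Y334.ST.Quant
import Pool.Agent.Y334.ST.Rate

/-! Periodic perturbations of fibered polynomials over arbitrary bases. -/

set_option autoImplicit false

open Polynomial Filter Topology Set
open Pool.Agent.Y334.FN
open Pool.Agent.Y334.FP

namespace Pool.Agent.Y334.ST

theorem semi_iter {X Y : Type} {T : X → X} {S : Y → Y} {π : Y → X} (h : ∀ y, π (S y) = T (π y))
    (k : ℕ) (y : Y) : π (S^[k] y) = T^[k] (π y) := by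
  induction k with
  | zero => rfl
  | succ k ih => rw [Function.iterate_succ_apply', h, ih, Function.iterate_succ_apply']

theorem fib_ext {X Y : Type} {T : X → X} {S : Y → Y} {π : Y → X} (h : ∀ y, π (S y) = T (π y))
    (g : X → ℂ[X]) (k : ℕ) (y : Y) (z : ℂ) :
    fib S (fun y => g (π y)) k y z = fib T g k (π y) z := by
  induction k with
  | zero => rfl
  | succ k ih =>
    show (g (π (S^[k] y))).eval (fib S (fun y => g (π y)) k y z) =
      (g (T^[k] (π y))).eval (fib T g k (π y) z)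
    rw [ih, semi_iter h]

theorem hyp_ext {X Y : Type} [TopologicalSpace X] [TopologicalSpace Y] {T : X → X} {S : Y → Y}
    {π : Y → X} (hc : Continuous π) (h : ∀ y, π (S y) = T (π y)) {g : X → ℂ[X]} {r K lam : ℝ}
    (hyp : HypP T g r K lam) : HypP S (fun y => g (π y)) r K lam := by
  intro p hp
  have hcont : Continuous fun q : Y × ℂ => (π q.1, q.2) :=
    (hc.comp continuous_fst).prodMk continuous_snd
  have h1 : (π p.1, p.2) ∈ closure (PCp T g) := by
    have h3 := image_closure_subset_closure_image hcont (Set.mem_image_of_mem _ hp)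
    refine closure_mono ?_ h3
    rintro _ ⟨q, ⟨y, c, k, hk, hc, rfl⟩, rfl⟩
    refine ⟨π y, c, k, hk, hc, ?_⟩
    show (π (S^[k] y), fib S (fun y => g (π y)) k y c) = _
    rw [fib_ext h, semi_iter h]
  obtain ⟨W, hW, h2⟩ := hyp _ h1
  refine ⟨π ⁻¹' W, hc.continuousAt hW, fun x hx => ?_⟩
  rcases h2 (π x) hx with h3 | ⟨k₀, h3, h4⟩
  · left
    intro k z z' hz hz'
    rw [fib_ext h, fib_ext h]
    exact h3 k z z' hz hz'
  · right
    refine ⟨k₀, fun k hk z z' hz hz' => ?_, fun k z hz => ?_⟩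
    · rw [fib_ext h, fib_ext h]
      exact h3 k hk z z' hz hz'
    · rw [fib_ext h]
      exact h4 k z hz

/-- the extension by a cyclic group -/
def cyc {X : Type} (T : X → X) (n : ℕ) : X × ZMod n → X × ZMod n := fun p => (T p.1, p.2 + 1)

theorem cyc_iter {X : Type} (T : X → X) (n : ℕ) (k : ℕ) (p : X × ZMod n) :
    (cyc T n)^[k] p = (T^[k] p.1, p.2 + k) := by
  induction k with
  | zero => simp
  | succ k ih =>
    rw [Function.iterate_succ_apply', ih, Function.iterate_succ_apply']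
    show (T (T^[k] p.1), p.2 + k + 1) = _
    push_cast
    rw [add_assoc]

theorem cyc_aper {X : Type} (T : X → X) {n : ℕ} (p : X × ZMod n) (k : ℕ) (hk1 : 1 ≤ k)
    (hkn : k < n) : (cyc T n)^[k] p ≠ p := by
  rw [cyc_iter]
  intro h
  have h1 := congrArg Prod.snd h
  simp only at h1
  have h2 : (k : ZMod n) = 0 := by
    have h3 : p.2 + (k : ZMod n) = p.2 + 0 := by rw [h1, add_zero]
    exact add_left_cancel h3
  rw [ZMod.natCast_eq_zero_iff] at h2
  have := Nat.le_of_dvd (by omega) h2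
  omega

theorem cyc_cont {X : Type} [TopologicalSpace X] {T : X → X} (hT : Continuous T) (n : ℕ) :
    Continuous (cyc T n) := by
  have h : Continuous fun i : ZMod n => i + 1 := continuous_of_discreteTopology
  exact (hT.comp continuous_fst).prodMk (h.comp continuous_snd)

/-- products with discrete spaces are normal -/
theorem normal_prod {X D : Type} [TopologicalSpace X] [NormalSpace X] [TopologicalSpace D]
    [DiscreteTopology D] : NormalSpace (X × D) := by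
  refine ⟨fun s t hs ht hst => ?_⟩
  have hc : ∀ d : D, Continuous fun x : X => (x, d) := fun d =>
    continuous_id.prodMk continuous_const
  have h1 : ∀ d : D, SeparatedNhds ((fun x : X => (x, d)) ⁻¹' s) ((fun x : X => (x, d)) ⁻¹' t) :=
    fun d => NormalSpace.normal _ _ (hs.preimage (hc d)) (ht.preimage (hc d))
      (hst.preimage _)
  choose U V hU hV hsU htV hUV using h1
  refine ⟨⋃ d, U d ×ˢ {d}, ⋃ d, V d ×ˢ {d}, isOpen_iUnion fun d => (hU d).prod (isOpen_discrete _),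
    isOpen_iUnion fun d => (hV d).prod (isOpen_discrete _), ?_, ?_, ?_⟩
  · rintro ⟨x, d⟩ h
    exact mem_iUnion.2 ⟨d, hsU d h, rfl⟩
  · rintro ⟨x, d⟩ h
    exact mem_iUnion.2 ⟨d, htV d h, rfl⟩
  · rw [Set.disjoint_left]
    rintro ⟨x, d⟩ h1 h2
    obtain ⟨d1, h3, h4⟩ := mem_iUnion.1 h1
    obtain ⟨d2, h5, h6⟩ := mem_iUnion.1 h2
    rw [mem_singleton_iff] at h4 h6
    simp only at h3 h4 h5 h6
    subst h4
    subst h6
    exact (Set.disjoint_left.1 (hUV _)) h3 h5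

/-- hyperbolicity descends along surjective semiconjugacies with enough past: here the cyclic
extensions -/
theorem hyp_desc {X : Type} [TopologicalSpace X] {T : X → X} {n : ℕ} {g : X → ℂ[X]}
    {r K lam : ℝ} (hyp : HypP (cyc T n) (fun p => g p.1) r K lam) : HypP T g r K lam := by
  have hfb : ∀ (k : ℕ) (p : X × ZMod n) (z : ℂ),
      fib (cyc T n) (fun p => g p.1) k p z = fib T g k p.1 z :=
    fun k p z => fib_ext (T := T) (π := Prod.fst) (fun _ => rfl) g k p z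
  intro p hp
  have hcont : Continuous fun q : X × ℂ => ((q.1, (0 : ZMod n)), q.2) :=
    (continuous_fst.prodMk continuous_const).prodMk continuous_snd
  have h1 : ((p.1, (0 : ZMod n)), p.2) ∈ closure (PCp (cyc T n) (fun p => g p.1)) := by
    have h3 := image_closure_subset_closure_image hcont (Set.mem_image_of_mem _ hp)
    refine closure_mono ?_ h3
    rintro _ ⟨q, ⟨y, c, k, hk, hc, rfl⟩, rfl⟩
    refine ⟨(y, -(k : ZMod n)), c, k, hk, hc, ?_⟩
    rw [hfb, cyc_iter, neg_add_cancel]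
  obtain ⟨W, hW, h2⟩ := hyp _ h1
  have hc2 : Continuous fun x : X => (x, (0 : ZMod n)) := continuous_id.prodMk continuous_const
  refine ⟨_, hc2.continuousAt hW, fun x hx => ?_⟩
  rcases h2 (x, 0) hx with h3 | ⟨k₀, h3, h4⟩
  · left
    intro k z z' hz hz'
    have h5 := h3 k z z' hz hz'
    rwa [hfb, hfb] at h5
  · right
    refine ⟨k₀, fun k hk z z' hz hz' => ?_, fun k z hz => ?_⟩
    · have h5 := h3 k hk z z' hz hz'
      rwa [hfb, hfb] at h5
    · have h5 := h4 k z hz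
      rwa [hfb] at h5

/-- **Stability under periodic perturbations, arbitrary bases.** -/
theorem stb_cyc {X : Type} [TopologicalSpace X] [NormalSpace X] [T1Space X] {T : X → X}
    (hTc : Continuous T) {g : X → ℂ[X]} (hg : ∀ k, Continuous fun x => (g x).coeff k)
    {d : ℕ} {A : ℝ} (hA : 1 ≤ A) (hB : ∀ x, Bd d A (g x)) :
    (HypE T g ↔ ∃ ε : ℝ, 0 < ε ∧ ∀ n, Stb (cyc T n) (fun p => g p.1) ε) ∧
    (HypE T g ↔ ∃ ε : ℝ, 0 < ε ∧ ∀ n₁ : ℕ, ∃ n, n₁ ≤ n ∧ Stb (cyc T n) (fun p => g p.1) ε) := by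
  have h1 : HypE T g → ∃ ε : ℝ, 0 < ε ∧ ∀ n, Stb (cyc T n) (fun p => g p.1) ε := by
    rintro ⟨r, K, lam, hr, hl0, hl1, hyp⟩
    obtain ⟨ε, hε, h⟩ := stb_unif d (K := K) hA hr hl0 hl1
    refine ⟨ε, hε, fun n => h (X × ZMod n) _ _ (fun p => hB p.1) ?_⟩
    exact hyp_ext (π := Prod.fst) continuous_fst (fun _ => rfl) hyp
  have h2 : (∃ ε : ℝ, 0 < ε ∧ ∀ n, Stb (cyc T n) (fun p => g p.1) ε) →
      ∃ ε : ℝ, 0 < ε ∧ ∀ n₁ : ℕ, ∃ n, n₁ ≤ n ∧ Stb (cyc T n) (fun p => g p.1) ε := by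
    rintro ⟨ε, hε, h⟩
    exact ⟨ε, hε, fun n₁ => ⟨n₁, le_rfl, h n₁⟩⟩
  have h3 : (∃ ε : ℝ, 0 < ε ∧ ∀ n₁ : ℕ, ∃ n, n₁ ≤ n ∧ Stb (cyc T n) (fun p => g p.1) ε) →
      HypE T g := by
    rintro ⟨ε, hε, h⟩
    obtain ⟨n₀, r, K, lam, -, hr, hl0, hl1, h4⟩ := quant d hA hε
    obtain ⟨n, hn, hst⟩ := h n₀
    have : NormalSpace (X × ZMod n) := normal_prod
    refine ⟨r, K, lam, hr, hl0, hl1, hyp_desc (n := n) ?_⟩
    exact h4 (X × ZMod n) (cyc T n) (cyc_cont hTc n)
      (fun p k hk1 hkn => cyc_aper T p k hk1 (hkn.trans_le hn)) _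
      (fun k => (hg k).comp continuous_fst) (fun p => hB p.1) hst
  exact ⟨⟨h1, fun h => h3 (h2 h)⟩, ⟨fun h => h2 (h1 h), h3⟩⟩

theorem rot_it {n : ℕ} (k : ℕ) (x : ZMod n) : (fun i : ZMod n => i + 1)^[k] x = x + k := by
  induction k with
  | zero => simp
  | succ k ih =>
    rw [Function.iterate_succ_apply', ih]
    show x + k + 1 = _
    push_cast
    ring

theorem rot_aper {n : ℕ} (x : ZMod n) (k : ℕ) (hk1 : 1 ≤ k) (hkn : k < n) :
    (fun i : ZMod n => i + 1)^[k] x ≠ x := by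
  rw [rot_it]
  intro h
  have h1 : (k : ZMod n) = 0 := by
    have h2 : x + (k : ZMod n) = x + 0 := by rw [h, add_zero]
    exact add_left_cancel h2
  rw [ZMod.natCast_eq_zero_iff] at h1
  have := Nat.le_of_dvd (by omega) h1
  omega

set_option maxHeartbeats 400000 in
theorem hyp_one {n : ℕ} {P : ℂ[X]} {r K lam : ℝ}
    (hyp : HypP (fun i : ZMod n => i + 1) (fun _ => P) r K lam) :
    HypP (id : Unit → Unit) (fun _ => P) r K lam := by
  have h0 : ∀ y : Unit × ZMod n, Prod.snd (cyc (id : Unit → Unit) n y) =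
      (fun i : ZMod n => i + 1) (Prod.snd y) := fun _ => rfl
  have h1 : HypP (cyc (id : Unit → Unit) n) (fun y => (fun _ : ZMod n => P) (Prod.snd y))
      r K lam :=
    hyp_ext (X := ZMod n) (Y := Unit × ZMod n) (T := fun i : ZMod n => i + 1)
      (S := cyc (id : Unit → Unit) n) (π := Prod.snd) (g := fun _ : ZMod n => P)
      continuous_snd h0 hyp
  have h2 : HypP (cyc (id : Unit → Unit) n) (fun p => (fun _ : Unit => P) p.1) r K lam := h1
  exact hyp_desc (X := Unit) (T := id) (n := n) (g := fun _ : Unit => P) h2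

set_option maxHeartbeats 400000 in
/-- one polynomial -/
theorem stb_one {P : ℂ[X]} {d : ℕ} {A : ℝ} (hA : 1 ≤ A) (hB : Bd d A P) :
    (HypE (id : Unit → Unit) (fun _ => P) ↔
      ∃ ε : ℝ, 0 < ε ∧ ∀ n, Stb (fun i : ZMod n => i + 1) (fun _ => P) ε) ∧
    (HypE (id : Unit → Unit) (fun _ => P) ↔ ∃ ε : ℝ, 0 < ε ∧ ∀ n₁ : ℕ, ∃ n, n₁ ≤ n ∧
      Stb (fun i : ZMod n => i + 1) (fun _ => P) ε) := by
  have h1 : HypE (id : Unit → Unit) (fun _ => P) →
      ∃ ε : ℝ, 0 < ε ∧ ∀ n, Stb (fun i : ZMod n => i + 1) (fun _ => P) ε := by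
    rintro ⟨r, K, lam, hr, hl0, hl1, hyp⟩
    obtain ⟨ε, hε, h⟩ := stb_unif d (K := K) hA hr hl0 hl1
    refine ⟨ε, hε, fun n => h (ZMod n) (fun i : ZMod n => i + 1) (fun _ => P) (fun _ => hB) ?_⟩
    have h0 : ∀ y : ZMod n, (fun _ : ZMod n => ()) ((fun i : ZMod n => i + 1) y) =
      id ((fun _ : ZMod n => ()) y) := fun _ => rfl
    exact hyp_ext (X := Unit) (Y := ZMod n) (T := id) (S := fun i : ZMod n => i + 1)
      (π := fun _ : ZMod n => ()) (g := fun _ : Unit => P) continuous_const h0 hyp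
  have h2 : (∃ ε : ℝ, 0 < ε ∧ ∀ n, Stb (fun i : ZMod n => i + 1) (fun _ => P) ε) →
      ∃ ε : ℝ, 0 < ε ∧ ∀ n₁ : ℕ, ∃ n, n₁ ≤ n ∧ Stb (fun i : ZMod n => i + 1) (fun _ => P) ε := by
    rintro ⟨ε, hε, h⟩
    exact ⟨ε, hε, fun n₁ => ⟨n₁, le_rfl, h n₁⟩⟩
  have h3 : (∃ ε : ℝ, 0 < ε ∧ ∀ n₁ : ℕ, ∃ n, n₁ ≤ n ∧
      Stb (fun i : ZMod n => i + 1) (fun _ => P) ε) → HypE (id : Unit → Unit) (fun _ => P) := by
    rintro ⟨ε, hε, h⟩
    obtain ⟨n₀, r, K, lam, -, hr, hl0, hl1, h4⟩ := quant d hA hε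
    obtain ⟨n, hn, hst⟩ := h n₀
    refine ⟨r, K, lam, hr, hl0, hl1, hyp_one (n := n) ?_⟩
    exact h4 (ZMod n) _ continuous_of_discreteTopology
      (fun x k hk1 hkn => rot_aper x k hk1 (hkn.trans_le hn)) _
      (fun k => continuous_const) (fun _ => hB) hst
  exact ⟨⟨h1, fun h => h3 (h2 h)⟩, ⟨fun h => h2 (h1 h), h3⟩⟩

/-- **The rate, arbitrary bases.** -/
theorem rate_cyc (d : ℕ) {A : ℝ} (hA : 1 ≤ A) :
    ∃ C : ℝ, 0 < C ∧ ∀ n : ℕ, 2 ≤ n → C * Real.log n / n ≤ 1 →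
      (∀ (X : Type) [TopologicalSpace X] [NormalSpace X] [T1Space X] (T : X → X), Continuous T →
        ∀ g : X → ℂ[X], (∀ k, Continuous fun x => (g x).coeff k) → (∀ x, Bd d A (g x)) →
        (((∀ x : X, ∀ k : ℕ, 1 ≤ k → k < n → T^[k] x ≠ x) → Stb T g (C * Real.log n / n) →
          HypE T g) ∧
        (Stb (cyc T n) (fun p => g p.1) (C * Real.log n / n) → HypE T g))) ∧
      (∀ P : ℂ[X], Bd d A P → Stb (fun i : ZMod n => i + 1) (fun _ => P) (C * Real.log n / n) →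
        HypE (id : Unit → Unit) (fun _ => P)) := by
  obtain ⟨C, hC, h⟩ := rate d hA
  refine ⟨C, hC, fun n hn hC1 => ⟨fun X _ _ _ T hT g hg hB => ⟨fun hper hst => ?_, fun hst => ?_⟩,
    fun P hB hst => ?_⟩⟩
  rotate_left 2
  · obtain ⟨r, K, lam, hr, hl0, hl1, h1⟩ := h n hn hC1 (ZMod n) _ continuous_of_discreteTopology
      (fun x k hk1 hkn => rot_aper x k hk1 hkn) (fun _ => P)
      (fun k => continuous_const) (fun _ => hB) hst
    exact ⟨r, K, lam, hr, hl0, hl1, hyp_one h1⟩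
  · exact h n hn hC1 X T hT hper g hg hB hst
  · have : NormalSpace (X × ZMod n) := normal_prod
    obtain ⟨r, K, lam, hr, hl0, hl1, h1⟩ := h n hn hC1 (X × ZMod n) (cyc T n) (cyc_cont hT n)
      (fun p k hk1 hkn => cyc_aper T p k hk1 hkn) (fun p => g p.1)
      (fun k => (hg k).comp continuous_fst) (fun p => hB p.1) hst
    exact ⟨r, K, lam, hr, hl0, hl1, hyp_desc h1⟩

end Pool.Agent.Y334.ST
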