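import Mathlib
import Pool.Agent.Y334.FU.Link
import Pool.Agent.Helper114.MontelSol

/-! Q1 for `z ^ d + c` is the hyperbolicity of the interior points of the Multibrot set. -/

set_option autoImplicit false

open Filter Topology Metric Set

namespace Pool.Agent.Y334.FU

theorem fm_cont2 (d i : ℕ) : Continuous fun p : ℂ × ℂ => (fm d p.1)^[i] p.2 := by
  induction i with
  | zero => exact continuous_snd
  | succ i ih =>
    have h1 : (fun p : ℂ × ℂ => (fm d p.1)^[i + 1] p.2) =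
        fun p => ((fm d p.1)^[i] p.2) ^ d + p.1 := by
      funext p
      rw [Function.iterate_succ_apply']
      rfl
    rw [h1]
    exact (ih.pow d).add continuous_fst

theorem deriv_fm (d : ℕ) (c w : ℂ) : deriv (fm d c) w = d * w ^ (d - 1) := by
  have h1 : HasDerivAt (fm d c) (d * w ^ (d - 1)) w := (hasDerivAt_pow d w).add_const c
  exact h1.deriv

theorem deriv_cont2 (d N : ℕ) : Continuous fun p : ℂ × ℂ => deriv ((fm d p.1)^[N]) p.2 := by
  simp only [deriv_iterU, deriv_fm]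
  apply continuous_finsetProd
  intro i _
  exact continuous_const.mul ((fm_cont2 d i).pow _)

/-- persistence of an attracting cycle -/
theorem att_near {d : ℕ} {c₁ z₁ : ℂ} {N : ℕ} (h : AttU d c₁ z₁ N) :
    ∃ ε ρ q : ℝ, 0 < ε ∧ 0 < ρ ∧ 0 ≤ q ∧ q < 1 ∧ ∀ c ∈ ball c₁ ρ, ∀ z ∈ closedBall z₁ ε,
      (fm d c)^[N] z ∈ closedBall z₁ ε ∧ ∀ z' ∈ closedBall z₁ ε,
        ‖(fm d c)^[N] z - (fm d c)^[N] z'‖ ≤ q * ‖z - z'‖ := by
  obtain ⟨hN, hfix, hlt⟩ := h
  obtain ⟨q, hq1, hq2⟩ := exists_between hlt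
  have hq0 : 0 ≤ q := (norm_nonneg _).trans hq1.le
  have h1 : ∀ᶠ p : ℂ × ℂ in 𝓝 (c₁, z₁), ‖deriv ((fm d p.1)^[N]) p.2‖ < q :=
    (deriv_cont2 d N).norm.continuousAt.eventually_lt continuousAt_const hq1
  rw [nhds_prod_eq, Filter.eventually_prod_iff] at h1
  obtain ⟨pa, hpa, pb, hpb, hab⟩ := h1
  obtain ⟨ρ₁, hρ₁, hpa'⟩ := Metric.eventually_nhds_iff_ball.1 hpa
  obtain ⟨ε₁, hε₁, hpb'⟩ := Metric.eventually_nhds_iff_ball.1 hpb
  set ε : ℝ := ε₁ / 2 with hε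
  have hε0 : 0 < ε := by rw [hε]; linarith
  have h2 : ∀ᶠ c : ℂ in 𝓝 c₁, ‖(fm d c)^[N] z₁ - z₁‖ < (1 - q) * ε := by
    have h3 : Continuous fun c : ℂ => ‖(fm d c)^[N] z₁ - z₁‖ :=
      (((fm_cont2 d N).comp (continuous_id.prodMk continuous_const)).sub continuous_const).norm
    refine h3.continuousAt.eventually_lt continuousAt_const ?_
    simp only [hfix, sub_self, norm_zero]
    have : 0 < 1 - q := by linarith
    positivity
  obtain ⟨ρ₂, hρ₂, h2'⟩ := Metric.eventually_nhds_iff_ball.1 h2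
  refine ⟨ε, min ρ₁ ρ₂, q, hε0, lt_min hρ₁ hρ₂, hq0, hq2, fun c hc z hz => ?_⟩
  have hc1 : c ∈ ball c₁ ρ₁ := ball_subset_ball (min_le_left _ _) hc
  have hc2 : c ∈ ball c₁ ρ₂ := ball_subset_ball (min_le_right _ _) hc
  have hlip : ∀ z ∈ closedBall z₁ ε, ∀ z' ∈ closedBall z₁ ε,
      ‖(fm d c)^[N] z - (fm d c)^[N] z'‖ ≤ q * ‖z - z'‖ := by
    intro z hz z' hz'
    refine Convex.norm_image_sub_le_of_norm_deriv_le (f := (fm d c)^[N])
      (s := closedBall z₁ ε) (C := q) (fun w _ => (fm_diff d c).iterate N w) (fun w hw => ?_)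
      (convex_closedBall z₁ ε) hz' hz
    refine (hab (hpa' c hc1) (hpb' w ?_)).le
    exact closedBall_subset_ball (by rw [hε]; linarith) hw
  refine ⟨?_, fun z' hz' => hlip z hz z' hz'⟩
  have h3 := hlip z hz z₁ (mem_closedBall_self hε0.le)
  have h4 := h2' c hc2
  rw [mem_closedBall_iff_norm] at hz ⊢
  have h5 := norm_add_le ((fm d c)^[N] z - (fm d c)^[N] z₁) ((fm d c)^[N] z₁ - z₁)
  rw [sub_add_sub_cancel] at h5
  have h6 : q * ‖z - z₁‖ ≤ q * ε := by gcongr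
  linarith

/-- no parameter relation holds on an open set -/
theorem rel_dense {d : ℕ} (hd : 2 ≤ d) {a N : ℕ} (hN : 0 < N) :
    Dense {c : ℂ | (fm d c)^[a + N] 0 ≠ (fm d c)^[a] 0} := by
  have hset : {c : ℂ | (fm d c)^[a + N] 0 ≠ (fm d c)^[a] 0} =
      {c : ℂ | (fm d c)^[a + N] 0 = (fm d c)^[a] 0}ᶜ := rfl
  rw [hset, ← interior_eq_empty_iff_dense_compl]
  by_contra hne
  obtain ⟨c₀, hc₀⟩ := nonempty_iff_ne_empty.2 hne
  have h1 : (fun c : ℂ => (fm d c)^[a + N] 0) =ᶠ[𝓝 c₀] fun c => (fm d c)^[a] 0 := by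
    have h2 := mem_interior_iff_mem_nhds.1 hc₀
    filter_upwards [h2] with c hc using hc
  have h2 : (fun c : ℂ => (fm d c)^[a + N] 0) = fun c => (fm d c)^[a] 0 :=
    AnalyticOnNhd.eq_of_eventuallyEq
      ((P_diff d (a + N)).differentiableOn.analyticOnNhd isOpen_univ)
      ((P_diff d a).differentiableOn.analyticOnNhd isOpen_univ) h1
  have h3 := congrFun h2 10
  have hesc : EscU d 10 := by
    by_contra h
    have h4 := bdd_of_not_esc hd h 2
    have h5 : (fm d 10)^[2] 0 = (10 : ℂ) ^ d + 10 := by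
      show ((0 : ℂ) ^ d + 10) ^ d + 10 = _
      rw [zero_pow (by omega), zero_add]
    rw [h5] at h4
    have h6 : (10 : ℂ) ^ d + 10 = (((10 : ℝ) ^ d + 10 : ℝ) : ℂ) := by push_cast; rfl
    rw [h6, Complex.norm_real, Real.norm_of_nonneg (by positivity)] at h4
    have h7 : (10 : ℝ) ^ 2 ≤ 10 ^ d := pow_le_pow_right₀ (by norm_num) hd
    have h8 : ‖(10 : ℂ)‖ = 10 := by simp
    rw [h8] at h4
    linarith
  set w : ℂ := (fm d 10)^[a] 0 with hw
  have h4 : ∀ m : ℕ, (fm d 10)^[a + N * m] 0 = w := by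
    intro m
    induction m with
    | zero => rfl
    | succ m ih =>
      have e : a + N * (m + 1) = N + (a + N * m) := by ring
      rw [e, Function.iterate_add_apply, ih, hw, ← Function.iterate_add_apply, add_comm N a]
      exact h3
  have h5 : Tendsto (fun m : ℕ => ‖(fm d 10)^[a + N * m] 0‖) atTop atTop := by
    refine hesc.comp ?_
    refine tendsto_atTop_mono (fun m => ?_) tendsto_id
    have : m ≤ N * m := Nat.le_mul_of_pos_left _ hN
    show m ≤ a + N * m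
    omega
  simp only [h4] at h5
  exact not_tendsto_const_atTop _ _ h5

/-- a repelling fixed point is reached by an orbit converging to it -/
theorem reach {G : ℂ → ℂ} {p : ℂ} {u : ℕ → ℂ} (hG : DifferentiableAt ℂ G p) (hp : G p = p)
    (hd : 1 < ‖deriv G p‖) (hu : ∀ k, u (k + 1) = G (u k)) (hlim : Tendsto u atTop (𝓝 p)) :
    ∃ k, u k = p := by
  obtain ⟨L, hL⟩ : ∃ L, L = ‖deriv G p‖ := ⟨_, rfl⟩
  rw [← hL] at hd
  obtain ⟨ε, hε, hexp⟩ : ∃ ε > 0, ∀ w ∈ ball p ε, (L + 1) / 2 * ‖w - p‖ ≤ ‖G w - p‖ := by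
    have h1 := hG.hasDerivAt
    rw [hasDerivAt_iff_isLittleO] at h1
    have h2 := h1.def (show 0 < (L - 1) / 2 by linarith)
    obtain ⟨ε, hε, h3⟩ := Metric.eventually_nhds_iff_ball.1 h2
    refine ⟨ε, hε, fun w hw => ?_⟩
    have h4 := h3 w hw
    rw [hp] at h4
    have h5 := norm_sub_le (G w - p) (G w - p - (w - p) • deriv G p)
    rw [sub_sub_cancel, norm_smul, ← hL] at h5
    nlinarith [norm_nonneg (w - p)]
  obtain ⟨k₀, hk₀⟩ := (hlim.eventually (ball_mem_nhds p hε)).exists_forall_of_atTop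
  refine ⟨k₀, ?_⟩
  by_contra hne
  have hpos : 0 < ‖u k₀ - p‖ := norm_pos_iff.2 (sub_ne_zero.2 hne)
  have h1 : ∀ m : ℕ, ((L + 1) / 2) ^ m * ‖u k₀ - p‖ ≤ ‖u (k₀ + m) - p‖ := by
    intro m
    induction m with
    | zero => simp
    | succ m ih =>
      have h2 := hexp _ (hk₀ (k₀ + m) (by omega))
      rw [← hu] at h2
      have h3 : (0 : ℝ) ≤ (L + 1) / 2 := by linarith
      have h4 : (L + 1) / 2 * (((L + 1) / 2) ^ m * ‖u k₀ - p‖) ≤
          (L + 1) / 2 * ‖u (k₀ + m) - p‖ := mul_le_mul_of_nonneg_left ih h3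
      rw [pow_succ]
      have e : k₀ + (m + 1) = k₀ + m + 1 := by ring
      rw [e]
      linarith
  obtain ⟨m, hm⟩ := pow_unbounded_of_one_lt (ε / ‖u k₀ - p‖) (show 1 < (L + 1) / 2 by linarith)
  rw [div_lt_iff₀ hpos] at hm
  have h2 := hk₀ (k₀ + m) (by omega)
  rw [dist_eq_norm] at h2
  have h3 := h1 m
  linarith

/-- **A disc in the Multibrot set which contains one hyperbolic parameter is hyperbolic.** -/
theorem disc_hyp {d : ℕ} (hd : 2 ≤ d) {c₀ : ℂ} {s : ℝ} (hs : 0 < s)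
    (hM : ∀ c ∈ ball c₀ s, ¬ EscU d c) {c₁ z₁ : ℂ} (hc₁ : c₁ ∈ ball c₀ s) {N : ℕ}
    (h₁ : AttU d c₁ z₁ N) : ∃ z k, AttU d c₀ z k := by
  have hN := h₁.1
  obtain ⟨ε, ρ, q, hε, hρ, hq0, hq1, hcon⟩ := att_near h₁
  obtain ⟨j₀, hj₀⟩ := fatouU hd h₁
  obtain ⟨k₀, hk₀⟩ := (hj₀.eventually (ball_mem_nhds z₁ hε)).exists
  set j : ℕ := j₀ + N * k₀ with hj
  set F : ℕ → ℂ → ℂ := fun k c => (fm d c)^[j + N * k] 0 with hF
  have hFd : ∀ k, Differentiable ℂ (F k) := fun k => P_diff d _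
  have hFs : ∀ k c, F (k + 1) c = (fm d c)^[N] (F k c) := by
    intro k c
    show (fm d c)^[j + N * (k + 1)] 0 = (fm d c)^[N] ((fm d c)^[j + N * k] 0)
    rw [← Function.iterate_add_apply]
    congr 1
    ring
  have hF0 : ∀ᶠ c in 𝓝 c₁, F 0 c ∈ closedBall z₁ ε := by
    have h1 : F 0 c₁ ∈ ball z₁ ε := hk₀
    have h2 := (hFd 0).continuous.continuousAt.eventually_mem (isOpen_ball.mem_nhds h1)
    filter_upwards [h2] with c hc using ball_subset_closedBall hc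
  -- convergence near `c₁`
  have hV : ∀ᶠ c in 𝓝 c₁, ∃ v, Tendsto (fun k => F k c) atTop (𝓝 v) := by
    filter_upwards [hF0, ball_mem_nhds c₁ hρ] with c hc0 hcρ
    have hin : ∀ k, F k c ∈ closedBall z₁ ε := by
      intro k
      induction k with
      | zero => exact hc0
      | succ k ih =>
        rw [hFs]
        exact (hcon c hcρ _ ih).1
    have hgeo : ∀ k, dist (F k c) (F (k + 1) c) ≤ ‖F 0 c - F 1 c‖ * q ^ k := by
      intro k
      induction k with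
      | zero => rw [pow_zero, mul_one, dist_eq_norm]
      | succ k ih =>
        have h1 := (hcon c hcρ _ (hin k)).2 _ (hin (k + 1))
        rw [← hFs, ← hFs, ← dist_eq_norm, ← dist_eq_norm] at h1
        refine h1.trans ?_
        rw [pow_succ]
        nlinarith
    exact cauchySeq_tendsto_of_complete (cauchySeq_of_le_geometric q _ hq1 hgeo)
  -- convergence in the disc
  set Mb : ℝ := ‖c₀‖ + s + 3 with hMb
  have hbd : ∀ k, ∀ c ∈ ball c₀ s, ‖F k c‖ ≤ Mb := by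
    intro k c hc
    have h1 := bdd_of_not_esc hd (hM c hc) (j + N * k)
    rw [mem_ball_iff_norm] at hc
    have h2 := norm_add_le (c - c₀) c₀
    rw [sub_add_cancel] at h2
    rw [hMb]
    have h3 : ‖F k c‖ < ‖c‖ + 3 := h1
    linarith
  have hmont := fun 𝒰 : Ultrafilter ℕ => Pool.Agent.Helper114.Montel.montel
    (W := ball c₀ s) isOpen_ball F (fun k => (hFd k).differentiableOn) Mb hbd 𝒰
  have hconn : IsPreconnected (ball c₀ s) := (convex_ball c₀ s).isPreconnected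
  obtain ⟨Φ, hΦd, hΦ⟩ := hmont (Ultrafilter.of atTop)
  have hptw : ∀ (𝒰 : Ultrafilter ℕ) (Ψ : ℂ → ℂ),
      TendstoLocallyUniformlyOn F Ψ (𝒰 : Filter ℕ) (ball c₀ s) → ∀ c ∈ ball c₀ s,
      Tendsto (fun k => F k c) 𝒰 (𝓝 (Ψ c)) := fun 𝒰 Ψ h c hc => h.tendsto_at hc
  have hlim : ∀ c ∈ ball c₀ s, Tendsto (fun k => F k c) atTop (𝓝 (Φ c)) := by
    intro c hc
    rw [tendsto_iff_ultrafilter]
    intro 𝒰 h𝒰
    obtain ⟨Ψ, hΨd, hΨ⟩ := hmont 𝒰
    have hev : Ψ =ᶠ[𝓝 c₁] Φ := by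
      filter_upwards [hV, isOpen_ball.mem_nhds hc₁] with x hx hxb
      obtain ⟨v, hv⟩ := hx
      have h1 := tendsto_nhds_unique (hptw 𝒰 Ψ hΨ x hxb) (hv.mono_left h𝒰)
      have h2 := tendsto_nhds_unique (hptw _ Φ hΦ x hxb) (hv.mono_left (Ultrafilter.of_le _))
      rw [h1, h2]
    have heq := (hΨd.analyticOnNhd isOpen_ball).eqOn_of_preconnected_of_eventuallyEq
      (hΦd.analyticOnNhd isOpen_ball) hconn hc₁ hev
    rw [← heq hc]
    exact hptw 𝒰 Ψ hΨ c hc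
  have hfix : ∀ c ∈ ball c₀ s, (fm d c)^[N] (Φ c) = Φ c := by
    intro c hc
    have h1 := ((fm_diff d c).iterate N).continuous.continuousAt.tendsto.comp (hlim c hc)
    have h2 := (hlim c hc).comp (tendsto_add_atTop_nat 1)
    refine tendsto_nhds_unique h1 (h2.congr fun k => ?_)
    exact hFs k c
  have hz₁ : Φ c₁ = z₁ := by
    refine tendsto_nhds_unique (hlim c₁ hc₁) ?_
    have h1 := (tendsto_add_atTop_iff_nat k₀).2 hj₀
    refine h1.congr fun k => ?_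
    show (fm d c₁)^[j₀ + N * (k + k₀)] 0 = (fm d c₁)^[j + N * k] 0
    congr 1
    rw [hj]
    ring
  -- the multiplier
  set lam : ℂ → ℂ := fun c => deriv ((fm d c)^[N]) (Φ c) with hlam
  have hiter : ∀ i, DifferentiableOn ℂ (fun c => (fm d c)^[i] (Φ c)) (ball c₀ s) := by
    intro i
    induction i with
    | zero => exact hΦd
    | succ i ih =>
      have h1 : (fun c => (fm d c)^[i + 1] (Φ c)) = fun c => ((fm d c)^[i] (Φ c)) ^ d + c := by
        funext c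
        rw [Function.iterate_succ_apply']
        rfl
      rw [h1]
      exact (ih.pow d).add differentiableOn_id
  have hlamd : DifferentiableOn ℂ lam (ball c₀ s) := by
    rw [hlam]
    simp only [deriv_iterU, deriv_fm]
    apply DifferentiableOn.fun_finsetProd
    intro i _
    exact ((hiter i).pow _).const_mul _
  have hlam1 : ‖lam c₁‖ < 1 := by
    show ‖deriv ((fm d c₁)^[N]) (Φ c₁)‖ < 1
    rw [hz₁]
    exact h₁.2.2
  by_contra hno
  have hc₀ : c₀ ∈ ball c₀ s := mem_ball_self hs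
  have hlam0 : 1 ≤ ‖lam c₀‖ := by
    by_contra h
    push Not at h
    exact hno ⟨Φ c₀, N, hN, hfix c₀ hc₀, h⟩
  rcases (hlamd.analyticOnNhd isOpen_ball).is_constant_or_isOpen hconn with ⟨w, hw⟩ | hopen
  · rw [hw c₀ hc₀] at hlam0
    rw [hw c₁ hc₁] at hlam1
    linarith
  have h2 := hopen _ (Subset.refl _) isOpen_ball
  obtain ⟨δ, hδ, hball⟩ := Metric.isOpen_iff.1 h2 (lam c₀) ⟨c₀, hc₀, rfl⟩
  obtain ⟨c₂, hc₂, hlc₂⟩ : ∃ c₂ ∈ ball c₀ s, 1 < ‖lam c₂‖ := by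
    set t : ℝ := δ / (2 * ‖lam c₀‖) with ht
    have hl0 : 0 < ‖lam c₀‖ := by linarith
    have ht0 : 0 < t := by rw [ht]; positivity
    have h3 : lam c₀ * (1 + t) ∈ ball (lam c₀) δ := by
      rw [mem_ball_iff_norm]
      have e : lam c₀ * (1 + t) - lam c₀ = lam c₀ * t := by ring
      rw [e, norm_mul, Complex.norm_real, Real.norm_of_nonneg ht0.le, ht]
      have e2 : ‖lam c₀‖ * (δ / (2 * ‖lam c₀‖)) = δ / 2 := by field_simp
      rw [e2]
      linarith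
    obtain ⟨c₂, hc₂, hc₂e⟩ := hball h3
    refine ⟨c₂, hc₂, ?_⟩
    rw [hc₂e, norm_mul]
    have e : (1 : ℂ) + t = ((1 + t : ℝ) : ℂ) := by push_cast; rfl
    rw [e, Complex.norm_real, Real.norm_of_nonneg (by linarith)]
    nlinarith
  have hO : IsOpen {c | c ∈ ball c₀ s ∧ 1 < ‖lam c‖} := by
    have h3 := hlamd.continuousOn.norm.isOpen_inter_preimage isOpen_ball (isOpen_Ioi (a := (1 : ℝ)))
    exact h3
  have hdense : Dense (⋂ k : ℕ, {c : ℂ | (fm d c)^[(j + N * k) + N] 0 ≠ (fm d c)^[j + N * k] 0}) :=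
    dense_iInter_of_isOpen
      (fun k => isOpen_ne_fun (P_diff d _).continuous (P_diff d _).continuous)
      (fun k => rel_dense hd hN)
  obtain ⟨c₃, ⟨hc₃, hlc₃⟩, hc₃'⟩ := hdense.inter_open_nonempty _ hO ⟨c₂, hc₂, hlc₂⟩
  obtain ⟨k, hk⟩ := reach (G := (fm d c₃)^[N]) (p := Φ c₃) (u := fun k => F k c₃)
    ((fm_diff d c₃).iterate N _) (hfix c₃ hc₃) hlc₃ (fun k => hFs k c₃) (hlim c₃ hc₃)
  have h4 := mem_iInter.1 hc₃' k
  apply h4
  have h5 : F (k + 1) c₃ = F k c₃ := by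
    have hk' : F k c₃ = Φ c₃ := hk
    rw [hFs, hk', hfix c₃ hc₃]
  have e : (j + N * k) + N = j + N * (k + 1) := by ring
  rw [e]
  exact h5

/-- **Q1 is the hyperbolicity of the interior points.** -/
theorem int_iff {d : ℕ} (hd : 2 ≤ d) :
    (∀ c : ℂ, ¬ EscU d c → ∀ ε : ℝ, 0 < ε → ∃ c' : ℂ, dist c' c < ε ∧
      ∃ z : ℂ, ∃ k : ℕ, AttU d c' z k) ↔
    ∀ c : ℂ, (∃ ε : ℝ, 0 < ε ∧ ∀ c' : ℂ, ‖c' - c‖ < ε → ¬ EscU d c') → ∃ z k, AttU d c z k := by
  constructor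
  · rintro h c ⟨ε, hε, hb⟩
    obtain ⟨c', h1, z, k, h2⟩ := h c (hb c (by simpa using hε)) ε hε
    exact disc_hyp hd hε (fun c' hc' => hb c' (mem_ball_iff_norm.1 hc')) (mem_ball.2 h1) h2
  · intro h c hc ε hε
    by_contra hcon
    push Not at hcon
    have hno : ∀ c' ∈ ball c ε, ∀ n, 1 ≤ n → (fm d c')^[n] 0 ≠ 0 := by
      intro c' hc' n hn h0
      exact hcon c' (mem_ball.1 hc') 0 n (att_of_zero hd hn h0)
    obtain ⟨z, k, h1⟩ := h c ⟨ε / 2, by positivity, fun c' hc' =>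
      half_disc hd hε hc hno (mem_ball_iff_norm.2 hc')⟩
    exact hcon c (by simpa using hε) z k h1

end Pool.Agent.Y334.FU
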