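import Mathlib
import Pool.Agent.Y334.ST.Rate
import Pool.Agent.Y334.ST.IntQ
import Pool.Agent.Y334.FU.Ex

/-! The family `z ^ d + c`: non-hyperbolic points of the `n`-fold Multibrot sets are close to the
complement. -/

set_option autoImplicit false

open Filter Topology Metric Set Polynomial

namespace Pool.Agent.Y334.ST

open Pool.Agent.Y334.FP Pool.Agent.Y334.FN Pool.Agent.Y334.FU

section

variable {B : Type} {d : ℕ} {c : B → ℂ}

theorem sh_uni (s : B → ℂ) : sh (uni d c) s = uni d fun x => c x + s x := by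
  funext x
  simp only [sh, uni, map_add, add_assoc]

theorem fib_uni_succ (T : B → B) (k : ℕ) (x : B) (z : ℂ) :
    fib T (uni d c) (k + 1) x z = fib T (uni d c) k x z ^ d + c (T^[k] x) := by
  rw [fib_succ, uni_eval]

/-- a large shift of maximal modulus escapes -/
theorem esc_max (hd : 2 ≤ d) (T : B → B) {x : B} (hx : 2 < ‖c x‖) (hmax : ∀ y, ‖c y‖ ≤ ‖c x‖) :
    EscF T (uni d c) x 0 := by
  set m : ℝ := ‖c x‖ with hm
  have h1 : ∀ k : ℕ, m * (m - 1) ^ k ≤ ‖fib T (uni d c) (k + 1) x 0‖ := by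
    intro k
    induction k with
    | zero =>
      rw [fib_uni_succ]
      show m * (m - 1) ^ 0 ≤ ‖(0 : ℂ) ^ d + c x‖
      rw [zero_pow (by omega), zero_add, pow_zero, mul_one]
    | succ k ih =>
      rw [fib_uni_succ]
      set w : ℂ := fib T (uni d c) (k + 1) x 0 with hw
      have h2 : (1 : ℝ) ≤ (m - 1) ^ k := one_le_pow₀ (by linarith)
      have h3 : m ≤ ‖w‖ := by nlinarith
      have h4 : ‖w‖ ^ 2 ≤ ‖w‖ ^ d := pow_le_pow_right₀ (by linarith) hd
      have h5 := norm_sub_norm_le (w ^ d) (-c (T^[k + 1] x))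
      rw [sub_neg_eq_add, norm_neg, norm_pow] at h5
      have h6 := hmax (T^[k + 1] x)
      have h7 : ‖w‖ * (m - 1) ≤ ‖w‖ ^ 2 - m := by nlinarith
      have h8 : m * (m - 1) ^ k * (m - 1) ≤ ‖w‖ * (m - 1) := by
        have : 0 ≤ m - 1 := by linarith
        gcongr
      rw [pow_succ]
      linarith
  show Tendsto (fun k : ℕ => ‖fib T (uni d c) k x 0‖) atTop atTop
  rw [← tendsto_add_atTop_iff_nat 1]
  refine tendsto_atTop_mono h1 ?_
  exact (tendsto_pow_atTop_atTop_of_one_lt (by linarith)).const_mul_atTop (by linarith)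

theorem esc_three (hd : 2 ≤ d) (T : B → B) (x : B) :
    EscF T (uni d fun _ : B => (3 : ℂ)) x 0 :=
  esc_max hd T (by simp; norm_num) fun _ => le_rfl

end

/-! ### The cyclic base -/

/-- the return map -/
noncomputable def ret (d : ℕ) {n : ℕ} (c : ZMod n → ℂ) (i : ZMod n) : ℂ → ℂ :=
  fib (fun i : ZMod n => i + 1) (uni d c) n i

/-- the critical point `0` of the fibre over `i` is attracted -/
def AttR (d : ℕ) {n : ℕ} (c : ZMod n → ℂ) (i : ZMod n) : Prop :=
  ∃ (m : ℕ) (z : ℂ), 0 < m ∧ (ret d c i)^[m] z = z ∧ ‖deriv ((ret d c i)^[m]) z‖ < 1 ∧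
    Tendsto (fun k : ℕ => (ret d c i)^[m * k] 0) atTop (𝓝 z)

theorem hyp_cyc {d : ℕ} (hd : 2 ≤ d) {n : ℕ} (hn : 1 ≤ n) {c : ZMod n → ℂ} {r K lam : ℝ}
    (hr : 0 < r) (hl0 : 0 < lam) (hl1 : lam < 1)
    (h : HypP (fun i : ZMod n => i + 1) (uni d c) r K lam) (i : ZMod n) :
    EscF (fun i : ZMod n => i + 1) (uni d c) i 0 ∨ AttR d c i := by
  have : NeZero n := ⟨by omega⟩
  set T : ZMod n → ZMod n := fun i => i + 1 with hTdef
  have hT : ∀ (k : ℕ) (x : ZMod n), T^[k] x = x + k := by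
    intro k x
    induction k with
    | zero => simp
    | succ k ih =>
      rw [Function.iterate_succ_apply', ih]
      show x + k + 1 = _
      push_cast
      ring
  have hTn : T^[n] i = i := by rw [hT]; simp
  have h1 := hyp_of_per hr hl0 hl1 h (fun x => by rw [uni_deg (by omega)]; exact hd) hn hTn
  have hev : (fun w : ℂ => (cmp (fun k => uni d c (T^[k] i)) n).eval w) = ret d c i := by
    funext w
    exact cmp_fib T (uni d c) i n w
  have hcr : (derivative (cmp (fun k => uni d c (T^[k] i)) n)).eval 0 = 0 := by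
    obtain ⟨m, rfl⟩ : ∃ m, n = m + 1 := ⟨n - 1, by omega⟩
    have h2 : HasDerivAt (fun w : ℂ => (cmp (fun k => uni d c (T^[k] i)) (m + 1)).eval w)
        ((derivative (cmp (fun k => uni d c (T^[k] i)) (m + 1))).eval 0) 0 :=
      (cmp (fun k => uni d c (T^[k] i)) (m + 1)).hasDerivAt _
    rw [hev] at h2
    have h3 := fib_hasDeriv (T := T) (g := uni d c) i 0 (m + 1)
    rw [h2.unique h3, Finset.prod_range_succ']
    have h4 : (derivative (uni d c (T^[0] i))).eval (fib T (uni d c) 0 i 0) = 0 :=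
      (uni_crit hd _ _).2 rfl
    rw [h4, mul_zero]
  rcases h1 0 hcr with h2 | ⟨m, hm, z, h3, h4, h5⟩
  · left
    have h2' : Tendsto (fun k : ℕ => ‖(ret d c i)^[k] 0‖) atTop atTop := by
      have h6 : Tendsto (fun k : ℕ =>
        ‖(fun w : ℂ => (cmp (fun k => uni d c (T^[k] i)) n).eval w)^[k] 0‖) atTop atTop := h2
      rwa [hev] at h6
    -- the whole orbit
    obtain ⟨A, hA, hAc⟩ : ∃ A : ℝ, 1 ≤ A ∧ ∀ j, ‖c j‖ ≤ A := by
      refine ⟨max 1 (∑ j, ‖c j‖), le_max_left _ _, fun j => ?_⟩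
      exact (Finset.single_le_sum (f := fun j => ‖c j‖) (fun j _ => norm_nonneg _)
        (Finset.mem_univ j)).trans (le_max_right _ _)
    have hB : ∀ j, Bd d A (uni d c j) := fun j => uni_bd hd hA (hAc j)
    have hE := esc_iff hA (U := fun j => uni d c (T^[j] i)) (fun j => hB _) 0
    unfold EscF
    simp only [it_fib]
    rw [hE]
    obtain ⟨k, hk⟩ := (h2'.eventually (eventually_gt_atTop (BB d A))).exists
    refine ⟨k * n, ?_⟩
    rw [← it_fib]
    have h6 : ∀ k : ℕ, fib T (uni d c) (k * n) i 0 = (ret d c i)^[k] 0 := by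
      intro k
      induction k with
      | zero => rw [Nat.zero_mul]; rfl
      | succ k ih =>
        rw [Nat.succ_mul, add_comm, fib_add, Function.iterate_succ_apply', ih]
        have h7 : T^[k * n] i = i := by rw [hT]; push_cast; simp
        rw [h7]
        rfl
    rw [h6]
    exact hk
  · right
    rw [hev] at h3 h4 h5
    exact ⟨m, z, hm, h3, h4, h5⟩

/-- **Non-hyperbolic cyclic sequences are unstable at the scale `log n / n`.** -/
theorem fold_rate {d : ℕ} (hd : 2 ≤ d) (R : ℝ) :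
    ∃ C : ℝ, 0 < C ∧ ∀ n : ℕ, 2 ≤ n → ∀ c : ZMod n → ℂ, (∀ i, ‖c i‖ ≤ R) →
      (¬ ∀ i, EscF (fun i : ZMod n => i + 1) (uni d c) i 0 ∨ AttR d c i) →
      ∃ c' : ZMod n → ℂ, (∀ i, ‖c' i - c i‖ ≤ C * Real.log n / n) ∧
        ∃ i, ¬ (EscF (fun i : ZMod n => i + 1) (uni d c') i 0 ↔
          EscF (fun i : ZMod n => i + 1) (uni d c) i 0) := by
  obtain ⟨C₀, hC₀, hrate⟩ := rate d (le_max_right R 1)
  -- small values of `n`
  obtain ⟨n₁, hn₁⟩ : ∃ n₁ : ℕ, ∀ n : ℕ, n₁ ≤ n → C₀ * Real.log n / n ≤ 1 := by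
    have h1 : Tendsto (fun n : ℕ => C₀ * (Real.log n / n)) atTop (𝓝 (C₀ * 0)) := by
      apply Tendsto.const_mul
      have h2 : Tendsto (fun x : ℝ => Real.log x / x) atTop (𝓝 0) := by
        have h3 := Real.isLittleO_log_id_atTop.tendsto_div_nhds_zero
        exact h3
      exact h2.comp tendsto_natCast_atTop_atTop
    rw [mul_zero] at h1
    obtain ⟨n₁, h2⟩ := (h1.eventually (gt_mem_nhds (one_pos : (0 : ℝ) < 1))).exists_forall_of_atTop
    refine ⟨n₁, fun n hn => ?_⟩
    have h3 := h2 n hn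
    rw [mul_div_assoc]
    exact h3.le
  have hlog2 : 0 < Real.log 2 := Real.log_pos (by norm_num)
  set C : ℝ := C₀ + (3 + |R|) * n₁ / Real.log 2 with hC
  have hC1 : 0 ≤ (3 + |R|) * n₁ / Real.log 2 := by positivity
  have hC0 : 0 < C := by rw [hC]; linarith
  refine ⟨C, hC0, ?_⟩
  intro n hn c hR hnh
  have hn2 : (2 : ℝ) ≤ n := by exact_mod_cast hn
  have hn0 : (0 : ℝ) < n := by linarith
  have hlogn : Real.log 2 ≤ Real.log n := Real.log_le_log (by norm_num) hn2
  have hlog0 : 0 < Real.log n := by linarith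
  set T : ZMod n → ZMod n := fun i => i + 1 with hTdef
  by_contra hcon
  push Not at hcon
  rcases Nat.lt_or_ge n n₁ with h | h
  · -- constant sequence
    push Not at hnh
    obtain ⟨i, hi, -⟩ := hnh
    have h1 := (hcon (fun _ => 3) (fun j => by
      have h2 : ‖(3 : ℂ) - c j‖ ≤ 3 + |R| := by
        refine (norm_sub_le _ _).trans ?_
        have h3 : ‖(3 : ℂ)‖ = 3 := by simp
        rw [h3]
        have := hR j
        have := le_abs_self R
        linarith
      refine h2.trans ?_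
      rw [le_div_iff₀ hn0]
      have h3 : (n : ℝ) ≤ n₁ := by exact_mod_cast h.le
      have h4 : (3 + |R|) * n₁ ≤ (3 + |R|) * n₁ / Real.log 2 * Real.log n := by
        rw [div_mul_eq_mul_div, le_div_iff₀ hlog2]
        gcongr
      have h5 : 0 ≤ 3 + |R| := by positivity
      calc (3 + |R|) * n ≤ (3 + |R|) * n₁ := by gcongr
        _ ≤ (3 + |R|) * n₁ / Real.log 2 * Real.log n := h4
        _ ≤ C * Real.log n := by
            rw [hC]
            gcongr
            linarith)) i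
    exact hi (h1.1 (esc_three hd T i))
  · -- long sequences
    apply hnh
    have hst : Stb T (uni d c) (C₀ * Real.log n / n) := by
      intro s _ hs x z hz
      rw [uni_crit hd] at hz
      subst hz
      rw [sh_uni]
      exact hcon (fun x => c x + s x) (fun j => by
        rw [add_sub_cancel_left]
        refine (hs j).le.trans ?_
        rw [hC]
        gcongr
        linarith) x
    have hT : ∀ (k : ℕ) (x : ZMod n), T^[k] x = x + k := by
      intro k x
      induction k with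
      | zero => simp
      | succ k ih =>
        rw [Function.iterate_succ_apply', ih]
        show x + k + 1 = _
        push_cast
        ring
    obtain ⟨r, K, lam, hr, hl0, hl1, h1⟩ := hrate n hn (hn₁ n h) (ZMod n) T
      continuous_of_discreteTopology (fun x k hk1 hk2 hk => by
        rw [hT] at hk
        have h1 : (k : ZMod n) = 0 := by simpa using hk
        rw [ZMod.natCast_eq_zero_iff] at h1
        exact absurd (Nat.le_of_dvd (by omega) h1) (by omega)) (uni d c)
      (fun k => continuous_of_discreteTopology)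
      (fun x => uni_bd hd (le_max_right R 1) ((hR x).trans (le_max_left _ _))) hst
    exact hyp_cyc hd (by omega) hr hl0 hl1 h1

/-- **The same for the `n`-fold Multibrot set.** -/
theorem fold_bdry {d : ℕ} (hd : 2 ≤ d) :
    ∃ C : ℝ, 0 < C ∧ ∀ n : ℕ, 2 ≤ n → ∀ c : ZMod n → ℂ,
      (∀ i, ¬ EscF (fun i : ZMod n => i + 1) (uni d c) i 0) → (¬ ∀ i, AttR d c i) →
      ∃ c' : ZMod n → ℂ, (∀ i, ‖c' i - c i‖ ≤ C * Real.log n / n) ∧
        ∃ i, EscF (fun i : ZMod n => i + 1) (uni d c') i 0 := by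
  obtain ⟨C, hC, h⟩ := fold_rate hd 2
  refine ⟨C, hC, fun n hn c hc hnh => ?_⟩
  have : NeZero n := ⟨by omega⟩
  have hR : ∀ i, ‖c i‖ ≤ 2 := by
    obtain ⟨x, hx⟩ := Finite.exists_max fun i => ‖c i‖
    intro i
    by_contra hcon
    push Not at hcon
    exact hc x (esc_max hd _ (hcon.trans_le (hx i)) hx)
  obtain ⟨c', h1, i, h2⟩ := h n hn c hR (fun h3 => hnh fun i => (h3 i).resolve_left (hc i))
  refine ⟨c', h1, i, ?_⟩
  by_contra h3
  exact h2 ⟨fun h4 => absurd h4 h3, fun h4 => absurd h4 (hc i)⟩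

/-- **Systems without periodic points: the interior is hyperbolic.** -/
theorem int_aper {d : ℕ} (hd : 2 ≤ d) {X : Type} [TopologicalSpace X] [NormalSpace X] [T1Space X]
    {T : X → X} (hTc : Continuous T) (hT : ∀ x : X, ∀ k : ℕ, 1 ≤ k → T^[k] x ≠ x) {c : X → ℂ}
    (hc : Continuous c) {R : ℝ} (hR : ∀ x, ‖c x‖ ≤ R) (hM : ∀ x, ¬ EscF T (uni d c) x 0) :
    (∃ r K lam : ℝ, 0 < r ∧ 0 < lam ∧ lam < 1 ∧ HypP T (uni d c) r K lam) ↔
      ∃ ε : ℝ, 0 < ε ∧ ∀ c' : X → ℂ, Continuous c' → (∀ x, ‖c' x - c x‖ < ε) →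
        ∀ x, ¬ EscF T (uni d c') x 0 := by
  rw [← stb_iff hTc hT (uni_cont hc) (le_max_right R 1)
    (fun x => uni_bd hd (le_max_right R 1) ((hR x).trans (le_max_left _ _)))]
  constructor
  · rintro ⟨ε, hε, h⟩
    refine ⟨ε, hε, fun c' hc' hcc x => ?_⟩
    have h1 := h (fun x => c' x - c x) (hc'.sub hc) hcc x 0 ((uni_crit hd x 0).2 rfl)
    rw [sh_uni] at h1
    have e : (fun x => c x + (c' x - c x)) = c' := by
      funext x
      ring
    rw [e] at h1
    rw [h1]
    exact hM x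
  · rintro ⟨ε, hε, h⟩
    refine ⟨ε, hε, fun s hs hsε x z hz => ?_⟩
    rw [uni_crit hd] at hz
    subst hz
    rw [sh_uni]
    have h1 := h (fun x => c x + s x) (hc.add hs) (fun x => by
      rw [add_sub_cancel_left]
      exact hsε x) x
    exact ⟨fun h2 => absurd h2 h1, fun h2 => absurd h2 (hM x)⟩

end Pool.Agent.Y334.ST
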