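import Mathlib
import Pool.Agent.Y334.ST.UniM
import Pool.Agent.Y334.FN.Unif
import Pool.Agent.Y334.FN.Pt

/-! The family `z ^ d + c`: periodic perturbations of a single parameter. -/

set_option autoImplicit false

open Filter Topology Metric Set Polynomial

namespace Pool.Agent.Y334.ST

open Pool.Agent.Y334.FP Pool.Agent.Y334.FN Pool.Agent.Y334.FU

/-- the orbit of `0` under the sequence `z ^ d + s k` -/
noncomputable def orb (d : ℕ) (s : ℕ → ℂ) : ℕ → ℂ
  | 0 => 0
  | k + 1 => orb d s k ^ d + s k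

theorem orb_fib {B : Type} (T : B → B) (d : ℕ) (c : B → ℂ) (x : B) (k : ℕ) :
    fib T (uni d c) k x 0 = orb d (fun k => c (T^[k] x)) k := by
  induction k with
  | zero => rfl
  | succ k ih => rw [fib_uni_succ, ih, orb]

theorem orb_const (d : ℕ) (c : ℂ) (k : ℕ) : orb d (fun _ => c) k = (fm d c)^[k] 0 := by
  induction k with
  | zero => rfl
  | succ k ih =>
    rw [orb, ih, Function.iterate_succ_apply']
    rfl

theorem rot_iter {n : ℕ} (k : ℕ) (x : ZMod n) : (fun i : ZMod n => i + 1)^[k] x = x + k := by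
  induction k with
  | zero => simp
  | succ k ih =>
    rw [Function.iterate_succ_apply', ih]
    show x + k + 1 = _
    push_cast
    ring

theorem ret_const (d : ℕ) {n : ℕ} (c : ℂ) (i : ZMod n) : ret d (fun _ => c) i = (fm d c)^[n] := by
  funext z
  show fib (fun i : ZMod n => i + 1) (uni d fun _ => c) n i z = _
  have h : ∀ k : ℕ, fib (fun i : ZMod n => i + 1) (uni d fun _ => c) k i z = (fm d c)^[k] z := by
    intro k
    induction k with
    | zero => rfl
    | succ k ih =>
      rw [fib_uni_succ, ih, Function.iterate_succ_apply']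
      rfl
  exact h n

/-- **Non-hyperbolic parameters escape under periodic perturbations of size `log n / n`.** -/
theorem per_escape {d : ℕ} (hd : 2 ≤ d) :
    ∃ C : ℝ, 0 < C ∧ ∀ n : ℕ, 2 ≤ n → ∀ c : ℂ, ¬ EscU d c → (¬ ∃ z k, AttU d c z k) →
      ∃ s : ℕ → ℂ, (∀ i, s (i + n) = s i) ∧ (∀ i, ‖s i - c‖ ≤ C * Real.log n / n) ∧
        Tendsto (fun k => ‖orb d s k‖) atTop atTop := by
  obtain ⟨C, hC, h⟩ := fold_bdry hd
  refine ⟨C, hC, fun n hn c hc hno => ?_⟩
  obtain ⟨c', h1, i, h2⟩ := h n hn (fun _ => c) (fun i h1 => by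
    apply hc
    have h1' : Tendsto (fun k : ℕ => ‖fib (fun i : ZMod n => i + 1) (uni d fun _ => c) k i 0‖)
      atTop atTop := h1
    simp only [orb_fib, orb_const] at h1'
    exact h1') (fun h1 => by
    obtain ⟨m, z, hm, h2, h3, -⟩ := h1 0
    rw [ret_const, ← Function.iterate_mul] at h2 h3
    exact hno ⟨z, n * m, Nat.mul_pos (by omega) hm, h2, h3⟩)
  refine ⟨fun k => c' (i + k), fun k => ?_, fun k => h1 _, ?_⟩
  · show c' (i + ((k + n : ℕ) : ZMod n)) = c' (i + k)
    congr 1
    push_cast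
    simp
  · have h2' : Tendsto (fun k : ℕ => ‖fib (fun i : ZMod n => i + 1) (uni d c') k i 0‖)
      atTop atTop := h2
    simp only [orb_fib, rot_iter] at h2'
    exact h2'

/-- **Hyperbolic parameters are stable under all small perturbations.** -/
theorem att_bounded {d : ℕ} (hd : 2 ≤ d) {c z : ℂ} {N : ℕ} (h : AttU d c z N) :
    ∃ ε : ℝ, 0 < ε ∧ ∀ s : ℕ → ℂ, (∀ i, ‖s i - c‖ < ε) →
      ¬ Tendsto (fun k => ‖orb d s k‖) atTop atTop := by
  have hnesc : ¬ EscU d c := by
    intro h1
    obtain ⟨j, hj⟩ := fatouU hd h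
    have h2 : Tendsto (fun k : ℕ => ‖(fm d c)^[j + N * k] 0‖) atTop atTop := by
      refine h1.comp ?_
      refine tendsto_atTop_mono (fun m => ?_) tendsto_id
      have : m ≤ N * m := Nat.le_mul_of_pos_left _ h.1
      show m ≤ j + N * m
      omega
    exact not_tendsto_nhds_of_tendsto_atTop h2 _ hj.norm
  set P : Polynomial ℂ := uni d (fun _ : Unit => c) () with hP
  have hev : (fun w : ℂ => P.eval w) = fm d c := by
    funext w
    exact uni_eval () w
  have hdeg : 2 ≤ P.natDegree := by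
    rw [hP, uni_deg (by omega)]
    exact hd
  obtain ⟨r, K, lam, hr, hl0, hl1, h1⟩ := hyp_pt (P := P) hdeg (by
    intro w hw
    rw [hP, uni_crit hd] at hw
    subst hw
    rcases hypU_of_att hd h with h2 | ⟨n, z, h3, h4⟩
    · exact absurd h2 hnesc
    · right
      refine ⟨n, h3.1, z, ?_, ?_, ?_⟩
      · rw [hev]; exact h3.2.1
      · rw [hev]; exact h3.2.2
      · rw [hev]; exact h4)
  have h2 := hypP_comap (X := Unit) (Y := ℕ) (T := id) (U := fun i : ℕ => i + 1)
    (φ := fun _ => ()) continuous_const (fun _ => rfl) h1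
  obtain ⟨ε, hε, hst⟩ := stb_of_hyp (d := d) (A := max 1 ‖c‖) (le_max_left _ _)
    (fun _ : ℕ => uni_bd hd (le_max_left _ _) (le_max_right 1 ‖c‖)) hr hl0 hl1 h2
  refine ⟨ε, hε, fun s hs hesc => hnesc ?_⟩
  have h3 := hst (fun i => s i - c) continuous_of_discreteTopology hs 0 0
    ((uni_crit hd () 0).2 rfl)
  have e1 : sh (fun _ : ℕ => P) (fun i => s i - c) = uni d s := by
    funext i
    simp only [sh, hP, uni, map_sub]
    ring
  have e2 : (fun _ : ℕ => P) = uni d fun _ : ℕ => c := rfl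
  have e3 : ∀ s : ℕ → ℂ, EscF (fun i : ℕ => i + 1) (uni d s) 0 0 ↔
      Tendsto (fun k => ‖orb d s k‖) atTop atTop := by
    intro s
    unfold EscF
    simp only [orb_fib]
    have h4 : ∀ k : ℕ, (fun i : ℕ => i + 1)^[k] 0 = k := by
      intro k
      induction k with
      | zero => rfl
      | succ k ih => rw [Function.iterate_succ_apply', ih]
    simp only [h4]
  rw [e1, e2, e3, e3] at h3
  have h4 := h3.1 hesc
  simp only [orb_const] at h4
  exact h4

end Pool.Agent.Y334.ST
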